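import Mathlib.Algebra.AffineMonoid.Basic
import Mathlib.Algebra.AffineMonoid.UniqueSums
import Mathlib.Topology.Sheaves.Presheaf
import Mathlib.Tactic.Monotonicity.Lemmas
import Mathlib.Algebra.Field.ZMod
import Mathlib.FieldTheory.Finiteness
import Mathlib.Data.Int.Star
import Mathlib.Algebra.Order.Ring.Star
import Mathlib.Algebra.MvPolynomial.Monad
import Mathlib.RingTheory.PicardGroup
import Mathlib.Analysis.Normed.Ring.Lemmas
import Mathlib.Algebra.Polynomial.Basis
import Mathlib.Data.Fin.Tuple.Sort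
import Mathlib.Combinatorics.SimpleGraph.DegreeSum
import Mathlib.Combinatorics.SimpleGraph.Clique
import Mathlib.Combinatorics.SimpleGraph.Connectivity.Finite
import Mathlib.Data.Rat.Star
import Mathlib.Tactic.Polynomial.Basic
import Pool.Agent.MP_f8284b_co.Defs

-- ======== part 0: formerly Pool.Agent.MP_f8284b_co.Rank
section MrgPart0

set_option autoImplicit false

namespace Pool.Agent.MP_f8284b_co

open MvPolynomial Finset SimpleGraph

variable {W ε : Type} [Fintype W] [Fintype ε]

theorem card_cc_le (G : SimpleGraph W) : Nat.card G.ConnectedComponent ≤ Fintype.card W := by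
  rw [← Nat.card_eq_fintype_card]
  exact Nat.card_le_card_of_surjective G.connectedComponentMk (Quot.mk_surjective)

theorem card_colourings (G : SimpleGraph W) :
    Nat.card {σ : W → ZMod 2 // ∀ u v, G.Adj u v → σ u = σ v} =
      2 ^ Nat.card G.ConnectedComponent := by
  have e : (G.ConnectedComponent → ZMod 2) ≃ {σ : W → ZMod 2 // ∀ u v, G.Adj u v → σ u = σ v} :=
    { toFun := fun τ => ⟨fun v => τ (G.connectedComponentMk v), fun u v h =>
        congrArg τ (ConnectedComponent.connectedComponentMk_eq_of_adj h)⟩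
      invFun := fun σ => ConnectedComponent.lift σ.1 (fun v w p _ => by
        induction p with
        | nil => rfl
        | cons h _ ih => exact (σ.2 _ _ h).trans (ih (by simp_all [Walk.cons_isPath_iff])))
      left_inv := fun τ => funext fun c => c.ind fun _ => rfl
      right_inv := fun σ => rfl }
  rw [← Nat.card_congr e, Nat.card_fun, Nat.card_zmod]

/-- The edge is monochromatic. -/
def Mono (σ : W → ZMod 2) (e : Sym2 W) : Prop := (e.map σ).IsDiag

omit [Fintype W] [Fintype ε] in
theorem mono_iff (ends : ε → Sym2 W) (A : Finset ε) (σ : W → ZMod 2) :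
    (∀ a ∈ A, Mono σ (ends a)) ↔
      ∀ u v, (fromEdgeSet (ends '' (A : Set ε))).Adj u v → σ u = σ v := by
  constructor
  · rintro h u v ⟨⟨a, ha, e⟩, -⟩
    have := h a ha
    rw [e] at this
    simpa [Mono] using this
  · intro h a ha
    rcases he : ends a with ⟨u, v⟩
    by_cases huv : u = v
    · simp [Mono, huv]
    · simpa [Mono] using h u v ⟨⟨a, ha, he⟩, huv⟩

open Classical in
theorem card_mono (ends : ε → Sym2 W) (A : Finset ε) :
    (univ.filter fun σ : W → ZMod 2 => ∀ a ∈ A, Mono σ (ends a)).card * 2 ^ rk ends A =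
      2 ^ Fintype.card W := by
  have h := card_colourings (fromEdgeSet (ends '' (A : Set ε)))
  rw [Nat.card_eq_fintype_card, Fintype.card_subtype] at h
  simp only [mono_iff]
  rw [h, ← pow_add, rk, Nat.add_sub_cancel' (card_cc_le _)]

theorem rk_le_card (ends : ε → Sym2 W) (A : Finset ε) : rk ends A ≤ A.card := by
  classical
  let D : (W → ZMod 2) →ₗ[ZMod 2] (A → ZMod 2) :=
    { toFun := fun σ a => Sym2.lift ⟨fun u v => σ u + σ v, fun u v => add_comm _ _⟩ (ends a)
      map_add' := fun σ τ => funext fun a => by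
        simp only [Pi.add_apply]
        rcases ends a with ⟨u, v⟩
        simp only [Sym2.lift_mk]
        ring
      map_smul' := fun c σ => funext fun a => by
        simp only [Pi.smul_apply, RingHom.id_apply]
        rcases ends a with ⟨u, v⟩
        simp only [Sym2.lift_mk, smul_eq_mul]
        ring }
  have h1 := D.finrank_range_add_finrank_ker
  have h2 : Module.finrank (ZMod 2) (LinearMap.range D) ≤ A.card := by
    simpa using Submodule.finrank_le (LinearMap.range D)
  have h3 : Nat.card (LinearMap.ker D) =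
      (univ.filter fun σ : W → ZMod 2 => ∀ a ∈ A, Mono σ (ends a)).card := by
    rw [← Fintype.card_subtype, ← Nat.card_eq_fintype_card]
    refine Nat.card_congr (Equiv.subtypeEquivRight fun σ => ?_)
    simp only [LinearMap.mem_ker, funext_iff, Subtype.forall]
    refine forall₂_congr fun a ha => ?_
    show Sym2.lift ⟨fun u v => σ u + σ v, fun u v => add_comm _ _⟩ (ends a) = 0 ↔ _
    rcases ends a with ⟨u, v⟩
    simp only [Sym2.lift_mk, Mono, Sym2.map_mk, Sym2.mk_isDiag_iff]
    generalize σ u = x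
    generalize σ v = y
    revert x y
    decide
  have h4 := card_mono ends A
  rw [Module.natCard_eq_pow_finrank (K := ZMod 2), Nat.card_zmod] at h3
  have h5 : 2 ^ (Module.finrank (ZMod 2) (LinearMap.ker D) + rk ends A) = 2 ^ Fintype.card W := by
    rw [pow_add, h3]
    convert h4
  have h6 := Nat.pow_right_injective le_rfl h5
  simp only [Module.finrank_fintype_fun_eq_card] at h1
  omega

theorem rk_le_univ (ends : ε → Sym2 W) (A : Finset ε) : rk ends A ≤ rk ends univ := by
  have := ConnectedComponent.card_le_card_of_le (fromEdgeSet_mono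
    (Set.image_mono (f := ends) (coe_subset.2 (subset_univ A))))
  unfold rk
  omega

theorem rk_empty (ends : ε → Sym2 W) : rk ends ∅ = 0 :=
  Nat.le_zero.1 (rk_le_card ends ∅)

variable {W' ε' : Type} [Fintype W'] [Fintype ε']

theorem dist_aux {ends : ε → Sym2 W} {ends' : ε' → Sym2 W'} (h : tutte ends = tutte ends')
    (Θ : ℕ → ℕ → ℚ) :
    ∑ A : Finset ε, Θ (rk ends univ - rk ends A) (A.card - rk ends A) =
      ∑ A : Finset ε', Θ (rk ends' univ - rk ends' A) (A.card - rk ends' A) := by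
  let Λ : MvPolynomial (Fin 2) ℤ →ₗ[ℤ] ℚ :=
    (basisMonomials (Fin 2) ℤ).constr ℤ (fun m => Θ (m 0) (m 1))
  have hΛ : ∀ a b : ℕ, Λ (aeval (fun i : Fin 2 => (X i + 1 : MvPolynomial (Fin 2) ℤ))
      ((X 0 - 1) ^ a * (X 1 - 1) ^ b : MvPolynomial (Fin 2) ℤ)) = Θ a b := by
    intro a b
    have e : aeval (fun i : Fin 2 => (X i + 1 : MvPolynomial (Fin 2) ℤ))
        ((X 0 - 1) ^ a * (X 1 - 1) ^ b : MvPolynomial (Fin 2) ℤ) =
        basisMonomials (Fin 2) ℤ (Finsupp.single 0 a + Finsupp.single 1 b) := by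
      simp [X_pow_eq_monomial, monomial_mul]
    rw [e, Module.Basis.constr_basis]
    simp
  have := congrArg (fun p => Λ (aeval (fun i : Fin 2 => (X i + 1 : MvPolynomial (Fin 2) ℤ)) p)) h
  simpa only [tutte, map_sum, hΛ] using this

theorem rk_univ_le {ends : ε → Sym2 W} {ends' : ε' → Sym2 W'} (h : tutte ends = tutte ends') :
    rk ends' univ ≤ rk ends univ := by
  by_contra hlt
  have h1 := dist_aux h (fun a _ => if rk ends univ < a then 1 else 0)
  rw [sum_eq_zero (fun A _ => if_neg (by omega))] at h1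
  have h2 := single_le_sum (f := fun A : Finset ε' =>
    if rk ends univ < rk ends' univ - rk ends' A then (1 : ℚ) else 0)
    (fun A _ => by split_ifs <;> norm_num) (mem_univ ∅)
  rw [← h1, rk_empty, if_pos (by omega)] at h2
  norm_num at h2

theorem rk_univ_eq {ends : ε → Sym2 W} {ends' : ε' → Sym2 W'} (h : tutte ends = tutte ends') :
    rk ends univ = rk ends' univ :=
  le_antisymm (rk_univ_le h.symm) (rk_univ_le h)

theorem dist_eq {ends : ε → Sym2 W} {ends' : ε' → Sym2 W'} (h : tutte ends = tutte ends')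
    (Θ : ℕ → ℕ → ℚ) :
    ∑ A : Finset ε, Θ (rk ends A) A.card = ∑ A : Finset ε', Θ (rk ends' A) A.card := by
  have h1 := dist_aux h (fun a b => Θ (rk ends univ - a) (b + (rk ends univ - a)))
  convert h1 using 2 with A _ A _
  · have := rk_le_univ ends A
    have := rk_le_card ends A
    congr 1 <;> omega
  · have := rk_le_univ ends' A
    have := rk_le_card ends' A
    have := rk_univ_eq h
    congr 1 <;> omega

theorem count_eq {ends : ε → Sym2 W} {ends' : ε' → Sym2 W'} (h : tutte ends = tutte ends')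
    (r s : ℕ) :
    (univ.filter fun A : Finset ε => rk ends A = r ∧ A.card = s).card =
      (univ.filter fun A : Finset ε' => rk ends' A = r ∧ A.card = s).card := by
  have := dist_eq h (fun a b => if a = r ∧ b = s then 1 else 0)
  simp only [sum_boole] at this
  exact_mod_cast this

theorem card_edges_eq {ends : ε → Sym2 W} {ends' : ε' → Sym2 W'} (h : tutte ends = tutte ends') :
    Fintype.card ε = Fintype.card ε' := by
  have := dist_eq h (fun _ _ => 1)
  simp only [sum_const, card_univ, Fintype.card_finset, nsmul_eq_mul, mul_one] at this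
  exact Nat.pow_right_injective le_rfl (by exact_mod_cast this)

open Classical in
/-- The number of edges cut by a colouring. -/
noncomputable def cut (ends : ε → Sym2 W) (σ : W → ZMod 2) : ℕ :=
  (univ.filter fun a => ¬ Mono σ (ends a)).card

open Classical in
theorem cut_expand (ends : ε → Sym2 W) (Λ : Polynomial ℚ →ₗ[ℚ] ℚ) :
    ∑ σ : W → ZMod 2, Λ (Polynomial.X ^ (Fintype.card ε - cut ends σ)) =
      2 ^ Fintype.card W *
        ∑ A : Finset ε, ((2 : ℚ) ^ rk ends A)⁻¹ * Λ ((Polynomial.X - 1) ^ A.card) := by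
  have h1 : ∀ σ : W → ZMod 2, (Polynomial.X : Polynomial ℚ) ^ (Fintype.card ε - cut ends σ) =
      ∑ A : Finset ε, if ∀ a ∈ A, Mono σ (ends a) then (Polynomial.X - 1) ^ A.card else 0 := by
    intro σ
    have e1 : Fintype.card ε - cut ends σ = (univ.filter fun a => Mono σ (ends a)).card := by
      have := card_filter_add_card_filter_not (s := univ) (fun a => Mono σ (ends a))
      rw [card_univ] at this
      unfold cut
      omega
    rw [e1, ← sum_filter]
    have e2 : (univ.filter fun A : Finset ε => ∀ a ∈ A, Mono σ (ends a)) =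
        (univ.filter fun a => Mono σ (ends a)).powerset := by
      ext A
      simp [subset_iff]
    rw [e2]
    have := prod_one_add (f := fun _ : ε => (Polynomial.X - 1 : Polynomial ℚ))
      (univ.filter fun a => Mono σ (ends a))
    simpa using this
  simp only [h1, map_sum]
  rw [sum_comm, mul_sum]
  refine sum_congr rfl fun A _ => ?_
  simp only [apply_ite Λ, map_zero]
  rw [← sum_filter, sum_const, nsmul_eq_mul, ← mul_assoc]
  congr 1
  have : ((univ.filter fun σ : W → ZMod 2 => ∀ a ∈ A, Mono σ (ends a)).card : ℚ) * 2 ^ rk ends A =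
      2 ^ Fintype.card W := by exact_mod_cast card_mono ends A
  field_simp
  convert this

open Classical in
theorem cut_dist {ends : ε → Sym2 W} {ends' : ε' → Sym2 W'} (h : tutte ends = tutte ends')
    (φ : ℕ → ℚ) :
    2 ^ Fintype.card W' * ∑ σ : W → ZMod 2, φ (cut ends σ) =
      2 ^ Fintype.card W * ∑ σ : W' → ZMod 2, φ (cut ends' σ) := by
  let Λ : Polynomial ℚ →ₗ[ℚ] ℚ :=
    (Polynomial.basisMonomials ℚ).constr ℚ (fun j => φ (Fintype.card ε - j))
  have hΛ : ∀ j, Λ (Polynomial.X ^ j) = φ (Fintype.card ε - j) := by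
    intro j
    have : (Polynomial.X : Polynomial ℚ) ^ j = Polynomial.basisMonomials ℚ j := by
      simp [Polynomial.X_pow_eq_monomial]
    rw [this, Module.Basis.constr_basis]
  have h1 := cut_expand ends Λ
  have h2 := cut_expand ends' Λ
  have h3 := dist_eq h (fun r s => ((2 : ℚ) ^ r)⁻¹ * Λ ((Polynomial.X - 1) ^ s))
  have h4 := card_edges_eq h
  have c1 : ∀ σ, Fintype.card ε - (Fintype.card ε - cut ends σ) = cut ends σ := fun σ => by
    have : cut ends σ ≤ Fintype.card ε := card_le_univ _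
    omega
  have c2 : ∀ σ, Fintype.card ε - (Fintype.card ε' - cut ends' σ) = cut ends' σ := fun σ => by
    have : cut ends' σ ≤ Fintype.card ε' := card_le_univ _
    omega
  simp only [hΛ, c1, c2] at h1 h2
  rw [h1, h2, h3]
  ring

end Pool.Agent.MP_f8284b_co

end MrgPart0

-- ======== part 1: formerly Pool.Agent.MP_f8284b_co.Simple
section MrgPart1

set_option autoImplicit false

namespace Pool.Agent.MP_f8284b_co

open Finset SimpleGraph Classical

variable {W ε : Type} [Fintype W] [Fintype ε]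

noncomputable def fib (G : SimpleGraph W) (C : G.ConnectedComponent) : Finset W :=
  univ.filter fun v => G.connectedComponentMk v = C

noncomputable def grk (G : SimpleGraph W) : ℕ := Fintype.card W - Nat.card G.ConnectedComponent

theorem fib_pos (G : SimpleGraph W) (C : G.ConnectedComponent) : 0 < (fib G C).card := by
  obtain ⟨v, rfl⟩ := C.exists_rep
  exact card_pos.2 ⟨v, mem_filter.2 ⟨mem_univ _, rfl⟩⟩

theorem sum_fib (G : SimpleGraph W) : ∑ C, ((fib G C).card - 1) = grk G := by
  have h1 : Fintype.card W = ∑ C, (fib G C).card := by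
    rw [← card_univ]
    exact card_eq_sum_card_fiberwise (fun v _ => mem_univ (G.connectedComponentMk v))
  have h2 : ∑ C, (fib G C).card = ∑ C, ((fib G C).card - 1) + ∑ _C : G.ConnectedComponent, 1 := by
    rw [← sum_add_distrib]
    exact sum_congr rfl fun C _ => by have := fib_pos G C; omega
  simp only [sum_const, card_univ, smul_eq_mul, mul_one] at h2
  rw [grk, Nat.card_eq_fintype_card]
  omega

theorem nbr_subset (G : SimpleGraph W) (v : W) :
    G.neighborFinset v ⊆ (fib G (G.connectedComponentMk v)).erase v := by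
  intro u hu
  rw [mem_neighborFinset] at hu
  exact mem_erase.2 ⟨hu.ne', mem_filter.2 ⟨mem_univ _,
    ConnectedComponent.connectedComponentMk_eq_of_adj hu.symm⟩⟩

theorem card_erase_fib (G : SimpleGraph W) (v : W) :
    ((fib G (G.connectedComponentMk v)).erase v).card =
      (fib G (G.connectedComponentMk v)).card - 1 :=
  card_erase_of_mem (mem_filter.2 ⟨mem_univ _, rfl⟩)

theorem degree_le_fib (G : SimpleGraph W) (v : W) :
    G.degree v ≤ (fib G (G.connectedComponentMk v)).card - 1 :=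
  (card_le_card (nbr_subset G v)).trans (card_erase_fib G v).le

theorem sum_fib_sq (G : SimpleGraph W) :
    ∑ v, ((fib G (G.connectedComponentMk v)).card - 1) =
      ∑ C, (fib G C).card * ((fib G C).card - 1) := by
  rw [← sum_fiberwise univ G.connectedComponentMk]
  refine sum_congr rfl fun C _ => ?_
  rw [sum_congr rfl (g := fun _ => (fib G C).card - 1)
    (fun v hv => by rw [(mem_filter.1 hv).2]), sum_const, smul_eq_mul]
  rfl

theorem fib_le (G : SimpleGraph W) (C : G.ConnectedComponent) : (fib G C).card ≤ grk G + 1 := by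
  have := single_le_sum (f := fun C => (fib G C).card - 1) (fun _ _ => Nat.zero_le _) (mem_univ C)
  rw [sum_fib] at this
  omega

theorem sum_sq_le (G : SimpleGraph W) :
    ∑ C, (fib G C).card * ((fib G C).card - 1) ≤ ∑ C, (grk G + 1) * ((fib G C).card - 1) :=
  sum_le_sum fun C _ => Nat.mul_le_mul_right _ (fib_le G C)

theorem two_edges_le (G : SimpleGraph W) : 2 * G.edgeFinset.card ≤ (grk G + 1) * grk G := by
  rw [← sum_degrees_eq_twice_card_edges]
  refine (sum_le_sum fun v _ => degree_le_fib G v).trans ?_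
  rw [sum_fib_sq]
  refine (sum_sq_le G).trans ?_
  rw [← mul_sum, sum_fib]

theorem clique_of_extremal (G : SimpleGraph W) (hr : 1 ≤ grk G)
    (h : 2 * G.edgeFinset.card = (grk G + 1) * grk G) :
    ∃ S : Finset W, S.card = grk G + 1 ∧ ∀ u v, G.Adj u v ↔ u ≠ v ∧ u ∈ S ∧ v ∈ S := by
  have a1 : ∑ v, G.degree v ≤ ∑ v, ((fib G (G.connectedComponentMk v)).card - 1) :=
    sum_le_sum fun v _ => degree_le_fib G v
  have a2 := sum_sq_le G
  have a3 : ∑ C, (grk G + 1) * ((fib G C).card - 1) = (grk G + 1) * grk G := by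
    rw [← mul_sum, sum_fib]
  have a4 := sum_fib_sq G
  have a5 := G.sum_degrees_eq_twice_card_edges
  have b1 := (sum_eq_sum_iff_of_le (fun v (_ : v ∈ univ) => degree_le_fib G v)).1 (by omega)
  have b2 := (sum_eq_sum_iff_of_le
    (fun C (_ : C ∈ univ) => Nat.mul_le_mul_right ((fib G C).card - 1) (fib_le G C))).1 (by omega)
  obtain ⟨C₀, -, hC₀⟩ := exists_ne_zero_of_sum_ne_zero (s := univ)
    (f := fun C => (fib G C).card - 1) (by rw [sum_fib]; omega)
  have c1 : (fib G C₀).card = grk G + 1 :=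
    Nat.eq_of_mul_eq_mul_right (Nat.pos_of_ne_zero hC₀) (b2 C₀ (mem_univ _))
  have c2 : ∀ C, C ≠ C₀ → (fib G C).card - 1 = 0 := by
    intro C hC
    have := sum_le_sum_of_subset (f := fun C => (fib G C).card - 1) (subset_univ {C, C₀})
    rw [sum_fib, sum_pair hC] at this
    omega
  refine ⟨fib G C₀, c1, fun u v => ⟨fun huv => ?_, ?_⟩⟩
  · have hu : G.connectedComponentMk u = C₀ := by
      by_contra hne
      have h1 := c2 _ hne
      have h2 := degree_le_fib G u
      have h3 := huv.degree_pos_left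
      omega
    exact ⟨huv.ne, mem_filter.2 ⟨mem_univ _, hu⟩, mem_filter.2 ⟨mem_univ _,
      (ConnectedComponent.connectedComponentMk_eq_of_adj huv.symm).trans hu⟩⟩
  · rintro ⟨hne, hu, hv⟩
    have e := eq_of_subset_of_card_le (nbr_subset G u)
      (by rw [card_erase_fib, ← b1 u (mem_univ _)]; rfl)
    rw [← mem_neighborFinset, e, (mem_filter.1 hu).2]
    exact mem_erase.2 ⟨hne.symm, hv⟩

theorem extremal_of_clique (G : SimpleGraph W) (S : Finset W) (r : ℕ) (hS : S.card = r + 1)
    (h : ∀ u v, G.Adj u v ↔ u ≠ v ∧ u ∈ S ∧ v ∈ S) :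
    grk G = r ∧ 2 * G.edgeFinset.card = (r + 1) * r := by
  obtain ⟨s, hs⟩ : S.Nonempty := card_pos.1 (by omega)
  have hreach : ∀ u v, G.Reachable u v → u = v ∨ (u ∈ S ∧ v ∈ S) := by
    rintro u v ⟨p⟩
    induction p with
    | nil => exact Or.inl rfl
    | cons hadj _ ih =>
      obtain ⟨-, h1, h2⟩ := (h _ _).1 hadj
      rcases ih with rfl | ih
      · exact Or.inr ⟨h1, h2⟩
      · exact Or.inr ⟨h1, ih.2⟩
  have h1 : fib G (G.connectedComponentMk s) = S := by
    ext v
    simp only [fib, mem_filter, mem_univ, true_and, ConnectedComponent.eq]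
    constructor
    · intro hv
      rcases hreach _ _ hv with rfl | hv
      · exact hs
      · exact hv.1
    · intro hv
      by_cases e : v = s
      · rw [e]
      · exact ((h _ _).2 ⟨e, hv, hs⟩).reachable
  constructor
  · rw [← sum_fib, sum_eq_single (G.connectedComponentMk s), h1, hS]
    · rfl
    · intro C _ hC
      induction C using ConnectedComponent.ind with | h v => ?_
      have hv : v ∉ S := fun hv => by
        rw [← h1] at hv
        exact hC (mem_filter.1 hv).2
      have : fib G (G.connectedComponentMk v) ⊆ {v} := by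
        intro u hu
        rcases hreach _ _ (ConnectedComponent.eq.1 (mem_filter.1 hu).2) with e | e
        · exact mem_singleton.2 e
        · exact absurd e.2 hv
      have := card_le_card this
      rw [card_singleton] at this
      exact Nat.sub_eq_zero_of_le this
    · simp
  · rw [← sum_degrees_eq_twice_card_edges, ← hS]
    have : ∀ v, G.degree v = if v ∈ S then r else 0 := by
      intro v
      split_ifs with hv
      · have : G.neighborFinset v = S.erase v := by
          ext u
          simp [h, hv, eq_comm]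
        rw [degree, this, card_erase_of_mem hv, hS]
        rfl
      · have : G.neighborFinset v = ∅ := by
          ext u
          simp [h, hv]
        rw [degree, this, card_empty]
    simp [this]

/-- No loops and no parallel edges. -/
def IsSimple (ends : ε → Sym2 W) : Prop := Function.Injective ends ∧ ∀ a, ¬ (ends a).IsDiag

omit [Fintype ε] [Fintype W] in
theorem card_edge_sub {ends : ε → Sym2 W} (h : IsSimple ends) (A : Finset ε)
    [Fintype (fromEdgeSet (ends '' (A : Set ε))).edgeSet] :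
    (fromEdgeSet (ends '' (A : Set ε))).edgeFinset.card = A.card := by
  rw [← card_image_of_injective A h.1]
  congr 1
  ext e
  simp only [mem_edgeFinset, edgeSet_fromEdgeSet, Set.mem_sdiff, Set.mem_image, mem_coe,
    Sym2.mem_diagSet, mem_image]
  exact ⟨fun h' => h'.1, fun ⟨a, ha, e'⟩ => ⟨⟨a, ha, e'⟩, e' ▸ h.2 a⟩⟩

variable {W' ε' : Type} [Fintype W'] [Fintype ε']

theorem simple_of_tutte {ends : ε → Sym2 W} {ends' : ε' → Sym2 W'} (h : tutte ends = tutte ends')
    (hs : IsSimple ends) : IsSimple ends' := by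
  have h1 := dist_eq h (fun r s => if (r + 1) * r < 2 * s then 1 else 0)
  rw [sum_eq_zero (fun A _ => if_neg (by
    have := two_edges_le (fromEdgeSet (ends '' (A : Set ε)))
    rw [card_edge_sub hs] at this
    exact not_lt.2 this))] at h1
  have h2 : ∀ A : Finset ε', 2 * A.card ≤ (rk ends' A + 1) * rk ends' A := by
    intro A
    by_contra hA
    have := (sum_eq_zero_iff_of_nonneg (fun A _ => by split_ifs <;> norm_num)).1 h1.symm A
      (mem_univ A)
    rw [if_pos (not_le.1 hA)] at this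
    norm_num at this
  constructor
  · intro a b hab
    by_contra hne
    have e : rk ends' {a, b} = rk ends' {a} := by
      unfold rk
      rw [coe_pair, coe_singleton, Set.image_pair, Set.image_singleton, hab, Set.pair_eq_singleton]
    have h3 := h2 {a, b}
    have h4 := rk_le_card ends' {a}
    rw [card_pair hne, e] at h3
    rw [card_singleton] at h4
    nlinarith
  · intro a ha
    have e : rk ends' {a} = rk ends' ∅ := by
      unfold rk
      have : fromEdgeSet (ends' '' (({a} : Finset ε') : Set ε')) =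
          fromEdgeSet (ends' '' ((∅ : Finset ε') : Set ε')) := by
        ext u v
        simp only [coe_singleton, Set.image_singleton, fromEdgeSet_adj, Set.mem_singleton_iff,
          coe_empty, Set.image_empty, Set.mem_empty_iff_false, false_and, iff_false, not_and,
          not_not]
        intro e
        rw [← e] at ha
        simpa using ha
      rw [this]
    have h3 := h2 {a}
    rw [e, rk_empty] at h3
    simp at h3

/-- The simple graph underlying a multigraph. -/
def gr (ends : ε → Sym2 W) : SimpleGraph W := fromEdgeSet (Set.range ends)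

/-- The number of cliques with `s` vertices. -/
noncomputable def cliq (G : SimpleGraph W) (s : ℕ) : ℕ :=
  (univ.filter fun S : Finset W => S.card = s ∧ G.IsClique (S : Set W)).card

theorem cliq_eq_count {ends : ε → Sym2 W} (hs : IsSimple ends) (r : ℕ) (hr : 1 ≤ r) :
    cliq (gr ends) (r + 1) =
      (univ.filter fun A : Finset ε => rk ends A = r ∧ 2 * A.card = (r + 1) * r).card := by
  have key : ∀ S : Finset W, (gr ends).IsClique (S : Set W) → ∀ u v,
      (fromEdgeSet (ends '' ((univ.filter fun a => ∀ v ∈ ends a, v ∈ S : Finset ε) : Set ε))).Adj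
        u v ↔ u ≠ v ∧ u ∈ S ∧ v ∈ S := by
    intro S hS u v
    simp only [coe_filter, mem_univ, true_and, fromEdgeSet_adj, Set.mem_image, Set.mem_ofPred_eq]
    constructor
    · rintro ⟨⟨a, ha, e⟩, hne⟩
      exact ⟨hne, ha u (by simp [e]), ha v (by simp [e])⟩
    · rintro ⟨hne, hu, hv⟩
      obtain ⟨⟨a, e⟩, -⟩ := hS hu hv hne
      exact ⟨⟨a, by simp [e, hu, hv], e⟩, hne⟩
  refine card_bij (fun S _ => univ.filter fun a => ∀ v ∈ ends a, v ∈ S) ?_ ?_ ?_
  · intro S hS
    obtain ⟨h1, h2⟩ := (mem_filter.1 hS).2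
    obtain ⟨e1, e2⟩ := extremal_of_clique _ S r h1 (key S h2)
    rw [card_edge_sub hs] at e2
    exact mem_filter.2 ⟨mem_univ _, e1, e2⟩
  · have sub : ∀ S T : Finset W, S.card = r + 1 → (gr ends).IsClique (S : Set W) →
        (gr ends).IsClique (T : Set W) →
        (univ.filter fun a => ∀ v ∈ ends a, v ∈ S) = (univ.filter fun a => ∀ v ∈ ends a, v ∈ T) →
        S ⊆ T := by
      intro S T h1 h2 h3 e u hu
      obtain ⟨v, hv, hne⟩ := exists_mem_ne (s := S) (by omega) u
      have := (key S h2 u v).2 ⟨hne.symm, hu, hv⟩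
      rw [e] at this
      exact ((key T h3 u v).1 this).2.1
    intro S hS T hT e
    obtain ⟨h1, h2⟩ := (mem_filter.1 hS).2
    obtain ⟨h3, h4⟩ := (mem_filter.1 hT).2
    exact Subset.antisymm (sub S T h1 h2 h4 e) (sub T S h3 h4 h2 e.symm)
  · intro A hA
    obtain ⟨h1, h2⟩ := (mem_filter.1 hA).2
    have h1' : grk (fromEdgeSet (ends '' (A : Set ε))) = r := h1
    obtain ⟨S, hS, hadj⟩ := clique_of_extremal (fromEdgeSet (ends '' (A : Set ε)))
      (by omega) (by rw [card_edge_sub hs, h1', h2])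
    refine ⟨S, mem_filter.2 ⟨mem_univ _, h1' ▸ hS, fun u hu v hv hne => ?_⟩, ?_⟩
    · exact fromEdgeSet_mono (Set.image_subset_range _ _) ((hadj u v).2 ⟨hne, hu, hv⟩)
    · ext a
      have hd := hs.2 a
      rcases he : ends a with ⟨u, v⟩
      rw [he] at hd
      have hne : u ≠ v := by simpa using hd
      simp only [mem_filter, mem_univ, true_and, he, Sym2.mem_iff, forall_eq_or_imp, forall_eq]
      constructor
      · intro h
        obtain ⟨⟨b, hb, e⟩, -⟩ := (hadj u v).2 ⟨hne, h⟩
        rwa [← hs.1 (e.trans he.symm)]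
      · intro ha
        exact ((hadj u v).1 ⟨⟨a, ha, he⟩, hne⟩).2

theorem cliq_eq {ends : ε → Sym2 W} {ends' : ε' → Sym2 W'} (h : tutte ends = tutte ends')
    (hs : IsSimple ends) (hc : Fintype.card W = Fintype.card W') (s : ℕ) :
    cliq (gr ends) s = cliq (gr ends') s := by
  rcases s with _ | _ | r
  · simp [cliq, filter_eq', filter_and]
  · have : ∀ {V : Type} [Fintype V] (G : SimpleGraph V), cliq G 1 = Fintype.card V := by
      intro V _ G
      have : (univ.filter fun S : Finset V => S.card = 1 ∧ G.IsClique (S : Set V)) =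
          powersetCard 1 univ := by
        ext S
        simp only [mem_filter, mem_univ, true_and, mem_powersetCard, subset_univ, and_iff_left_iff_imp]
        intro h
        obtain ⟨v, rfl⟩ := card_eq_one.1 h
        simp
      rw [cliq, this, card_powersetCard]
      simp
    rw [this, this, hc]
  · rw [cliq_eq_count hs (r + 1) (by omega), cliq_eq_count (simple_of_tutte h hs) (r + 1) (by omega)]
    have := dist_eq h (fun a b => if a = r + 1 ∧ 2 * b = (r + 1 + 1) * (r + 1) then 1 else 0)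
    simp only [sum_boole] at this
    exact_mod_cast this

/-- The number of edges of `G` between `S` and its complement. -/
noncomputable def gcut (G : SimpleGraph W) (S : Finset W) : ℕ :=
  ((S ×ˢ Sᶜ).filter fun p => G.Adj p.1 p.2).card

theorem cut_eq_gcut {ends : ε → Sym2 W} (hs : IsSimple ends) (σ : W → ZMod 2) :
    cut ends σ = gcut (gr ends) (univ.filter fun v => σ v = 1) := by
  have z : ∀ x y : ZMod 2, x ≠ y ↔ (x = 1 ∧ y ≠ 1) ∨ (y = 1 ∧ x ≠ 1) := by decide
  rw [cut, ← card_image_of_injective _ hs.1]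
  symm
  refine card_bij (fun p _ => s(p.1, p.2)) ?_ ?_ ?_
  · rintro ⟨u, v⟩ hp
    simp only [mem_filter, mem_product, mem_univ, true_and, mem_compl] at hp
    obtain ⟨⟨hu, hv⟩, ⟨a, e⟩, -⟩ := hp
    refine mem_image.2 ⟨a, mem_filter.2 ⟨mem_univ _, ?_⟩, e⟩
    rw [e]
    simpa [Mono] using (z _ _).2 (Or.inl ⟨hu, hv⟩)
  · rintro ⟨u, v⟩ hp ⟨u', v'⟩ hp' e
    simp only [mem_filter, mem_product, mem_univ, true_and, mem_compl] at hp hp'
    rcases Sym2.eq_iff.1 e with ⟨rfl, rfl⟩ | ⟨rfl, rfl⟩
    · rfl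
    · exact absurd hp.1.1 hp'.1.2
  · intro e he
    obtain ⟨a, ha, rfl⟩ := mem_image.1 he
    have ha' := (mem_filter.1 ha).2
    rcases he : ends a with ⟨u, v⟩
    rw [he] at ha'
    have hne : σ u ≠ σ v := by simpa [Mono] using ha'
    have huv : u ≠ v := fun e => hne (by rw [e])
    have hadj : (gr ends).Adj u v := ⟨⟨a, he⟩, huv⟩
    rcases (z _ _).1 hne with h | h
    · exact ⟨(u, v), by simp [h.1, h.2, hadj], rfl⟩
    · exact ⟨(v, u), by simp [h.1, h.2, hadj.symm], Sym2.eq_swap⟩

theorem sum_cut {ends : ε → Sym2 W} (hs : IsSimple ends) (φ : ℕ → ℚ) :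
    ∑ σ : W → ZMod 2, φ (cut ends σ) = ∑ S : Finset W, φ (gcut (gr ends) S) := by
  simp only [cut_eq_gcut hs]
  refine sum_bij (fun σ _ => univ.filter fun v => σ v = 1) (fun _ _ => mem_univ _) ?_ ?_
    (fun _ _ => rfl)
  · intro σ _ τ _ e
    funext v
    have := Finset.ext_iff.1 e v
    simp only [mem_filter, mem_univ, true_and] at this
    revert this
    generalize σ v = x
    generalize τ v = y
    revert x y
    decide
  · intro S _
    exact ⟨fun v => if v ∈ S then 1 else 0, mem_univ _, by ext v; simp⟩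

theorem gcut_dist {ends : ε → Sym2 W} {ends' : ε' → Sym2 W'} (h : tutte ends = tutte ends')
    (hs : IsSimple ends) (φ : ℕ → ℚ) :
    2 ^ Fintype.card W' * ∑ S : Finset W, φ (gcut (gr ends) S) =
      2 ^ Fintype.card W * ∑ S : Finset W', φ (gcut (gr ends') S) := by
  rw [← sum_cut hs, ← sum_cut (simple_of_tutte h hs), cut_dist h]

end Pool.Agent.MP_f8284b_co

end MrgPart1

-- ======== part 2: formerly Pool.Agent.MP_f8284b_co.h58.Near
section MrgPart2

set_option autoImplicit false

namespace Pool.Agent.MP_f8284b_co.H58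

open Finset SimpleGraph Classical

/-- Adjacency indicator. -/
noncomputable def ad {V : Type} (G : SimpleGraph V) (u v : V) : ℕ := if G.Adj u v then 1 else 0

/-- Twice the number of edges inside `S`. -/
noncomputable def ee {V : Type} (G : SimpleGraph V) (S : Finset V) : ℕ :=
  ∑ u ∈ S, ∑ v ∈ S, ad G u v

theorem ad_comm {V : Type} (G : SimpleGraph V) (u v : V) : ad G u v = ad G v u := by
  simp only [ad, G.adj_comm]

theorem ad_self {V : Type} (G : SimpleGraph V) (u : V) : ad G u u = 0 := by simp [ad]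

theorem ad_le {V : Type} (G : SimpleGraph V) (u v : V) : ad G u v ≤ 1 := by
  unfold ad
  split_ifs <;> omega

/-- The number of `k`-sets spanning `t / 2` edges. -/
noncomputable def cnt {V : Type} [Fintype V] (G : SimpleGraph V) (k t : ℕ) : ℕ :=
  (univ.filter fun S : Finset V => S.card = k ∧ ee G S = t).card

/-- The histograms of sparse sets agree. -/
def Inv2 {V V' : Type} [Fintype V] [Fintype V'] (G : SimpleGraph V) (G' : SimpleGraph V') : Prop :=
  ∀ k t, t + 1 < k → cnt G k t = cnt G' k t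

variable {W ε : Type} [Fintype W] [Fintype ε]

theorem ee_univ (G : SimpleGraph W) : ee G univ = 2 * G.edgeFinset.card := by
  rw [← sum_degrees_eq_twice_card_edges, ee]
  refine sum_congr rfl fun u _ => ?_
  rw [degree, neighborFinset_eq_filter, card_filter]
  rfl

omit [Fintype ε] in
theorem ee_sub {ends : ε → Sym2 W} (hs : IsSimple ends) (A : Finset ε) :
    ee (fromEdgeSet (ends '' (A : Set ε))) univ = 2 * A.card := by
  rw [ee_univ, card_edge_sub hs]

theorem support_of_dense (G : SimpleGraph W) (h : grk G * grk G < ee G univ) :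
    ∃ S : Finset W, S.card = grk G + 1 ∧ ∀ u v, G.Adj u v → u ∈ S := by
  have a1 : ∑ v, G.degree v ≤ ∑ v, ((fib G (G.connectedComponentMk v)).card - 1) :=
    sum_le_sum fun v _ => degree_le_fib G v
  have a4 := sum_fib_sq G
  have a5 := G.sum_degrees_eq_twice_card_edges
  rw [← ee_univ] at a5
  have : ∃ C, (fib G C).card = grk G + 1 := by
    by_contra hc
    have a2 : ∑ C, (fib G C).card * ((fib G C).card - 1) ≤ ∑ C, grk G * ((fib G C).card - 1) :=
      sum_le_sum fun C _ => Nat.mul_le_mul_right _ (by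
        have := fib_le G C
        have : (fib G C).card ≠ grk G + 1 := fun e => hc ⟨C, e⟩
        omega)
    rw [← mul_sum, sum_fib] at a2
    omega
  obtain ⟨C₀, c1⟩ := this
  refine ⟨fib G C₀, c1, fun u v huv => ?_⟩
  by_contra hu
  have hne : G.connectedComponentMk u ≠ C₀ := fun e => hu (mem_filter.2 ⟨mem_univ _, e⟩)
  have := sum_le_sum_of_subset (f := fun C => (fib G C).card - 1)
    (subset_univ {G.connectedComponentMk u, C₀})
  rw [sum_fib, sum_pair hne] at this
  have h2 := degree_le_fib G u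
  have h3 := huv.degree_pos_left
  omega

theorem edges_le_of_support (G : SimpleGraph W) (T : Finset W) (h : ∀ u v, G.Adj u v → u ∈ T) :
    ee G univ ≤ T.card * (T.card - 1) := by
  rw [ee_univ, ← sum_degrees_eq_twice_card_edges]
  have : ∀ v, G.degree v ≤ if v ∈ T then T.card - 1 else 0 := by
    intro v
    split_ifs with hv
    · rw [← card_erase_of_mem hv]
      refine card_le_card fun u hu => ?_
      rw [mem_neighborFinset] at hu
      exact mem_erase.2 ⟨hu.ne', h _ _ hu.symm⟩
    · rw [Nat.le_zero, degree, card_eq_zero]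
      ext u
      simpa using fun a => hv (h _ _ a)
  refine (sum_le_sum fun v _ => this v).trans ?_
  simp

theorem grk_of_support (G : SimpleGraph W) (S : Finset W) (r : ℕ) (hS : S.card = r + 1)
    (h : ∀ u v, G.Adj u v → u ∈ S) (hd : r * r < ee G univ) : grk G = r := by
  have a1 := two_edges_le G
  rw [← ee_univ] at a1
  have a2 : r ≤ grk G := by
    by_contra hc
    have : (grk G + 1) * grk G ≤ r * r := Nat.mul_le_mul (by omega) (by omega)
    omega
  let K : SimpleGraph W := fromRel fun u v => u ∈ S ∧ v ∈ S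
  have hK : ∀ u v, K.Adj u v ↔ u ≠ v ∧ u ∈ S ∧ v ∈ S := by
    intro u v
    simp only [K, fromRel_adj]
    tauto
  have a3 := (extremal_of_clique K S r hS hK).1
  have a4 : G ≤ K := fun u v huv => (hK u v).2 ⟨huv.ne, h _ _ huv, h _ _ huv.symm⟩
  have a5 := ConnectedComponent.card_le_card_of_le a4
  unfold grk at *
  omega

/-- The edges inside `S`. -/
noncomputable def inE (ends : ε → Sym2 W) (S : Finset W) : Finset ε :=
  univ.filter fun a => ∀ v ∈ ends a, v ∈ S

theorem sub_inE {ends : ε → Sym2 W} (hs : IsSimple ends) (A : Finset ε) (S : Finset W) :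
    A ⊆ inE ends S ↔ ∀ u v, (fromEdgeSet (ends '' (A : Set ε))).Adj u v → u ∈ S := by
  constructor
  · rintro h u v ⟨⟨a, ha, e⟩, -⟩
    exact (mem_filter.1 (h ha)).2 u (by simp [e])
  · intro h a ha
    have hd := hs.2 a
    rcases he : ends a with ⟨u, v⟩
    rw [he] at hd
    have hne : u ≠ v := by simpa using hd
    have huv : (fromEdgeSet (ends '' (A : Set ε))).Adj u v := ⟨⟨a, ha, he⟩, hne⟩
    simp only [inE, mem_filter, mem_univ, true_and, he, Sym2.mem_iff, forall_eq_or_imp, forall_eq]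
    exact ⟨h _ _ huv, h _ _ huv.symm⟩

theorem count_dense {ends : ε → Sym2 W} (hs : IsSimple ends) (r μ : ℕ) (h : r * r < 2 * μ) :
    (univ.filter fun A : Finset ε => rk ends A = r ∧ A.card = μ).card =
      ∑ S ∈ powersetCard (r + 1) (univ : Finset W), (inE ends S).card.choose μ := by
  have key : ∀ A : Finset ε, (if rk ends A = r ∧ A.card = μ then 1 else 0) =
      ∑ S ∈ powersetCard (r + 1) (univ : Finset W),
        if A ∈ powersetCard μ (inE ends S) then 1 else 0 := by
    intro A
    have e0 := ee_sub hs A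
    have e1 : rk ends A = grk (fromEdgeSet (ends '' (A : Set ε))) := rfl
    split_ifs with hA
    · obtain ⟨S, hS, hsup⟩ := support_of_dense (fromEdgeSet (ends '' (A : Set ε)))
        (by rw [← e1, hA.1, e0, hA.2]; exact h)
      rw [← e1, hA.1] at hS
      rw [sum_eq_single S, if_pos (mem_powersetCard.2 ⟨(sub_inE hs A S).2 hsup, hA.2⟩)]
      · intro T hT hne
        refine if_neg fun hc => ?_
        have hT' := (mem_powersetCard.1 hT).2
        have hsup' := (sub_inE hs A T).1 (mem_powersetCard.1 hc).1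
        have a1 := edges_le_of_support _ (S ∩ T)
          (fun u v a => mem_inter.2 ⟨hsup u v a, hsup' u v a⟩)
        have a2 : (S ∩ T).card < T.card := card_lt_card ⟨inter_subset_right, fun hc =>
          hne (eq_of_subset_of_card_le (subset_inter_iff.1 hc).1 (by omega))⟩
        have : (S ∩ T).card * ((S ∩ T).card - 1) ≤ r * r := Nat.mul_le_mul (by omega) (by omega)
        rw [e0, hA.2] at a1
        omega
      · intro hc
        exact absurd (mem_powersetCard.2 ⟨subset_univ _, hS⟩) hc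
    · refine (sum_eq_zero fun S hS => if_neg fun hc => hA ?_).symm
      obtain ⟨h1, h2⟩ := mem_powersetCard.1 hc
      exact ⟨grk_of_support _ S r (mem_powersetCard.1 hS).2 ((sub_inE hs A S).1 h1)
        (by rw [e0, h2]; exact h), h2⟩
  rw [card_filter, sum_congr rfl fun A _ => key A, sum_comm]
  refine sum_congr rfl fun S _ => ?_
  rw [← card_filter, filter_mem_eq_inter, univ_inter, card_powersetCard]

theorem inE_add {ends : ε → Sym2 W} (hs : IsSimple ends) (S : Finset W) :
    2 * (inE ends S).card + ee (gr ends)ᶜ S + S.card = S.card * S.card := by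
  have e0 := ee_sub hs (inE ends S)
  have hadj : ∀ u v, (fromEdgeSet (ends '' (inE ends S : Set ε))).Adj u v ↔
      u ∈ S ∧ v ∈ S ∧ (gr ends).Adj u v := by
    intro u v
    constructor
    · intro a
      exact ⟨(sub_inE hs _ S).1 Subset.rfl _ _ a, (sub_inE hs _ S).1 Subset.rfl _ _ a.symm,
        fromEdgeSet_mono (Set.image_subset_range _ _) a⟩
    · rintro ⟨hu, hv, ⟨a, e⟩, hne⟩
      exact ⟨⟨a, by simp [inE, e, hu, hv], e⟩, hne⟩
  have e2 : ee (fromEdgeSet (ends '' (inE ends S : Set ε))) univ = ee (gr ends) S := by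
    have : ∀ u v, ad (fromEdgeSet (ends '' (inE ends S : Set ε))) u v =
        if u ∈ S then (if v ∈ S then ad (gr ends) u v else 0) else 0 := by
      intro u v
      simp only [ad, hadj]
      by_cases hu : u ∈ S <;> by_cases hv : v ∈ S <;> simp [hu, hv]
    simp only [ee, this, sum_ite_irrel, sum_const_zero, sum_ite_mem, univ_inter]
  have e3 : ee (gr ends) S + ee (gr ends)ᶜ S + S.card = S.card * S.card := by
    have : ∀ u ∈ S, ∑ v ∈ S, ad (gr ends) u v + ∑ v ∈ S, ad (gr ends)ᶜ u v + 1 = S.card := by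
      intro u hu
      have : (1 : ℕ) = ∑ v ∈ S, if u = v then 1 else 0 := by simp [hu]
      rw [this, ← sum_add_distrib, ← sum_add_distrib, card_eq_sum_ones]
      refine sum_congr rfl fun v _ => ?_
      by_cases a : (gr ends).Adj u v
      · simp [ad, a, a.ne]
      · by_cases b : u = v <;> simp [ad, a, b]
    rw [ee, ee, card_eq_sum_ones S, ← sum_add_distrib, ← sum_add_distrib, sum_congr rfl this]
    simp
  omega

theorem fibre_of_choose {α β : Type} (I : Finset α) (J : Finset β) (f : α → ℕ) (g : β → ℕ)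
    (b : ℕ) (h : ∀ μ, b ≤ μ → ∑ i ∈ I, (f i).choose μ = ∑ j ∈ J, (g j).choose μ) (e : ℕ)
    (he : b ≤ e) : (I.filter fun i => f i = e).card = (J.filter fun j => g j = e).card := by
  open Polynomial in
  let P : ℤ[X] := ∑ i ∈ I, (X + 1) ^ f i - ∑ j ∈ J, (X + 1) ^ g j
  have h1 : P.degree < b := by
    rw [Polynomial.degree_lt_iff_coeff_zero]
    intro μ hμ
    simp only [P, Polynomial.coeff_sub, Polynomial.finsetSum_coeff, Polynomial.coeff_X_add_one_pow]
    have := h μ hμ
    rw [sub_eq_zero]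
    exact_mod_cast this
  have h2 : (P.comp (Polynomial.X - 1)).degree < b := by
    by_cases h0 : P = 0
    · simp [h0]
    · have a1 : (Polynomial.X - 1 : Polynomial ℤ).natDegree = 1 := Polynomial.natDegree_X_sub_C 1
      have a2 := Polynomial.natDegree_comp (p := P) (q := Polynomial.X - 1)
      rw [a1, mul_one] at a2
      refine lt_of_le_of_lt Polynomial.degree_le_natDegree ?_
      rw [a2, ← Polynomial.degree_eq_natDegree h0]
      exact h1
  have h3 := (Polynomial.degree_lt_iff_coeff_zero _ _).1 h2 e he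
  simp only [P, Polynomial.sub_comp, Polynomial.sum_comp, Polynomial.pow_comp,
    Polynomial.add_comp, Polynomial.X_comp, Polynomial.one_comp, sub_add_cancel,
    Polynomial.coeff_sub, Polynomial.finsetSum_coeff, Polynomial.coeff_X_pow] at h3
  rw [sub_eq_zero] at h3
  simp only [eq_comm (a := e), sum_boole] at h3
  exact_mod_cast h3

variable {W' ε' : Type} [Fintype W'] [Fintype ε']

theorem inv2_of_tutte {ends : ε → Sym2 W} {ends' : ε' → Sym2 W'} (h : tutte ends = tutte ends')
    (hs : IsSimple ends) : Inv2 (gr ends)ᶜ (gr ends')ᶜ := by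
  have hs' := simple_of_tutte h hs
  intro k t ht
  obtain ⟨r, rfl⟩ : ∃ r, k = r + 1 := ⟨k - 1, by omega⟩
  have key : ∀ {W ε : Type} [Fintype W] [Fintype ε] {ends : ε → Sym2 W}, IsSimple ends →
      cnt (gr ends)ᶜ (r + 1) t = if t % 2 = (r * r + r) % 2 then
        ((powersetCard (r + 1) (univ : Finset W)).filter
          fun S => (inE ends S).card = (r * r + r - t) / 2).card else 0 := by
    intro W ε _ _ ends hs
    have hr : r ≤ r * r := Nat.le_mul_self r
    have hS : ∀ S : Finset W, S.card = r + 1 →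
        2 * (inE ends S).card + ee (gr ends)ᶜ S = r * r + r := by
      intro S hS
      have := inE_add hs S
      rw [hS] at this
      nlinarith
    unfold cnt
    split_ifs with hp
    · congr 1
      ext S
      simp only [mem_filter, mem_univ, true_and, mem_powersetCard, subset_univ,
        and_congr_right_iff]
      intro h1
      have := hS S h1
      omega
    · rw [card_eq_zero, filter_eq_empty_iff]
      rintro S - ⟨h1, h2⟩
      have := hS S h1
      omega
  rw [key hs, key hs']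
  split_ifs with hp
  · refine fibre_of_choose _ _ _ _ (r * r / 2 + 1) (fun μ hμ => ?_) _ (by omega)
    rw [← count_dense hs r μ (by omega), ← count_dense hs' r μ (by omega)]
    exact count_eq h r μ
  · rfl

theorem Inv2.sum {V V' M : Type} [Fintype V] [Fintype V'] [AddCommMonoid M] {G : SimpleGraph V}
    {G' : SimpleGraph V'} (h : Inv2 G G') (k : ℕ) (φ : ℕ → M) (hφ : ∀ t, k ≤ t + 1 → φ t = 0) :
    ∑ S ∈ powersetCard k univ, φ (ee G S) = ∑ S ∈ powersetCard k univ, φ (ee G' S) := by
  have key : ∀ {V : Type} [Fintype V] (G : SimpleGraph V),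
      ∑ S ∈ powersetCard k univ, φ (ee G S) = ∑ t ∈ range k, cnt G k t • φ t := by
    intro V _ G
    have e1 : ∀ S : Finset V, φ (ee G S) = ∑ t ∈ range k, if ee G S = t then φ t else 0 := by
      intro S
      rw [sum_ite_eq]
      split_ifs with a
      · rfl
      · exact hφ _ (by rw [mem_range] at a; omega)
    simp only [e1]
    rw [sum_comm]
    refine sum_congr rfl fun t _ => ?_
    rw [← sum_filter, sum_const, cnt]
    congr 2
    ext S
    simp
  rw [key, key]
  refine sum_congr rfl fun t _ => ?_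
  by_cases a : t + 1 < k
  · rw [h k t a]
  · rw [hφ t (by omega), smul_zero, smul_zero]

theorem ee_map {V V' : Type} (G' : SimpleGraph V') (e : V ↪ V') (S : Finset V) :
    ee G' (S.map e) = ee (G'.comap e) S := by
  simp only [ee, sum_map]
  rfl

theorem Inv2.comap {V V' V'' : Type} [Fintype V] [Fintype V'] [Fintype V''] {G : SimpleGraph V}
    {G' : SimpleGraph V'} (h : Inv2 G G') (e : V'' ≃ V') : Inv2 G (G'.comap e) := by
  intro k t ht
  rw [h k t ht, cnt, cnt]
  symm
  refine card_bij (fun S _ => S.map e.toEmbedding) ?_ ?_ ?_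
  · intro S hS
    simp only [mem_filter, mem_univ, true_and, card_map, ee_map] at hS ⊢
    exact hS
  · intro S _ T _ hST
    exact map_injective _ hST
  · intro S hS
    refine ⟨S.map e.symm.toEmbedding, ?_, by simp [Finset.map_map]⟩
    have : ee (G'.comap e) (S.map e.symm.toEmbedding) = ee G' S := by
      have := ee_map G' e.toEmbedding (S.map e.symm.toEmbedding)
      simpa [Finset.map_map] using this.symm
    simpa [this] using hS

end Pool.Agent.MP_f8284b_co.H58

end MrgPart2

-- ======== part 3: formerly Pool.Agent.MP_f8284b_co.h58.Str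
section MrgPart3

set_option autoImplicit false

namespace Pool.Agent.MP_f8284b_co.H58

open Finset SimpleGraph Classical Sum

section general
variable {V : Type}

theorem ee_mono (G : SimpleGraph V) {S T : Finset V} (h : S ⊆ T) : ee G S ≤ ee G T :=
  (sum_le_sum fun _ _ => sum_le_sum_of_subset h).trans (sum_le_sum_of_subset h)

theorem ee_insert (G : SimpleGraph V) {S : Finset V} {x : V} (h : x ∉ S) :
    ee G (insert x S) = ee G S + 2 * ∑ v ∈ S, ad G x v := by
  simp only [ee, sum_insert h, ad_self, sum_add_distrib, ad_comm G _ x]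
  ring

theorem ee_le_sq (G : SimpleGraph V) (S : Finset V) : ee G S ≤ S.card * (S.card - 1) := by
  rw [← smul_eq_mul]
  refine sum_le_card_nsmul _ _ _ fun u hu => ?_
  rw [← add_sum_erase _ _ hu, ad_self, zero_add, ← card_erase_of_mem hu, card_eq_sum_ones]
  exact sum_le_sum fun v _ => ad_le _ _ _

end general

variable {κ μ : Type} [Fintype κ] [Fintype μ]

/-- Degree inside the skeleton. -/
noncomputable def dK (Γ : SimpleGraph (κ ⊕ μ)) (a : κ) : ℕ := ∑ b, ad Γ (inl a) (inl b)

/-- Adjacency between the skeleton and the main part. -/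
noncomputable def cr (Γ : SimpleGraph (κ ⊕ μ)) (a : κ) (u : μ) : ℕ := ad Γ (inl a) (inr u)

/-- Twice the number of edges inside a part of the skeleton. -/
noncomputable def eK (Γ : SimpleGraph (κ ⊕ μ)) (E : Finset κ) : ℕ :=
  ∑ a ∈ E, ∑ b ∈ E, ad Γ (inl a) (inl b)

/-- Twice the number of edges inside a set of main vertices. -/
noncomputable def eM (Γ : SimpleGraph (κ ⊕ μ)) (U : Finset μ) : ℕ :=
  ∑ u ∈ U, ∑ v ∈ U, ad Γ (inr u) (inr v)

omit [Fintype κ] [Fintype μ] in
theorem ee_disjSum (Γ : SimpleGraph (κ ⊕ μ)) (A : Finset κ) (U : Finset μ) :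
    ee Γ (A.disjSum U) = eK Γ A + 2 * ∑ u ∈ U, ∑ a ∈ A, cr Γ a u + eM Γ U := by
  simp only [ee, sum_disjSum, sum_add_distrib, eK, eM, cr, ad_comm Γ (inr _) (inl _)]
  rw [sum_comm (s := A) (t := U)]
  ring

omit [Fintype κ] [Fintype μ] in
theorem eM_le (Γ : SimpleGraph (κ ⊕ μ)) (U : Finset μ) : eM Γ U ≤ U.card * (U.card - 1) :=
  ee_le_sq (Γ.comap inr) U

/-- The skeleton spans `m` edges and every main vertex has `W` neighbours in it. -/
structure Str (Γ : SimpleGraph (κ ⊕ μ)) (m W : ℕ) : Prop where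
  hm : eK Γ univ = 2 * m
  hW : ∀ u, ∑ a, cr Γ a u = W

/-- Numerical conditions. -/
structure Num (s m W D : ℕ) : Prop where
  h1 : m + 1 + 3 * (D + 3) < W
  h2 : 2 * m + 4 * W + 3 + D < s

/-- Large sets with many main vertices span many edges. -/
def Sparse (Γ : SimpleGraph (κ ⊕ μ)) (m W D : ℕ) : Prop :=
  ∀ (E : Finset κ) (U : Finset μ) (j : ℕ), j ≤ 2 → j < U.card → E.card ≤ D + U.card →
    2 * m + 2 * j * W + 2 < ee Γ (Eᶜ.disjSum U)

variable {Γ Γ' : SimpleGraph (κ ⊕ μ)} {m W D : ℕ}

omit [Fintype μ] in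
theorem Str.master (h : Str Γ m W) (E : Finset κ) (U : Finset μ) :
    ee Γ (Eᶜ.disjSum U) + 2 * ∑ a ∈ E, (dK Γ a + ∑ u ∈ U, cr Γ a u) =
      2 * m + 2 * U.card * W + eM Γ U + eK Γ E := by
  have e1 : ∑ u ∈ U, ∑ a ∈ Eᶜ, cr Γ a u + ∑ a ∈ E, ∑ u ∈ U, cr Γ a u = U.card * W := by
    rw [sum_comm (s := E), ← sum_add_distrib, ← smul_eq_mul, ← sum_const]
    refine sum_congr rfl fun u _ => ?_
    rw [add_comm, sum_add_sum_compl, h.hW]
  have e2 : ∀ a, dK Γ a = ∑ b ∈ E, ad Γ (inl a) (inl b) + ∑ b ∈ Eᶜ, ad Γ (inl a) (inl b) :=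
    fun a => (sum_add_sum_compl E _).symm
  have e3 : 2 * m = ∑ a ∈ E, dK Γ a + ∑ a ∈ Eᶜ, dK Γ a := by
    rw [sum_add_sum_compl, ← h.hm]
    rfl
  have e4 : ∑ a ∈ Eᶜ, ∑ b ∈ E, ad Γ (inl a) (inl b) = ∑ a ∈ E, ∑ b ∈ Eᶜ, ad Γ (inl a) (inl b) := by
    rw [sum_comm]
    simp only [ad_comm Γ (inl _) (inl _)]
  simp only [e2, sum_add_distrib] at e3
  rw [ee_disjSum]
  simp only [e2, sum_add_distrib, eK]
  rw [e4] at e3
  nlinarith

omit [Fintype μ] in
theorem Str.ee_le (h : Str Γ m W) (A : Finset κ) (U : Finset μ) (j : ℕ) (hj : j ≤ 2)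
    (hU : U.card ≤ j) : ee Γ (A.disjSum U) ≤ 2 * m + 2 * j * W + 2 := by
  have e1 : eK Γ A ≤ 2 * m := h.hm ▸ ee_mono (Γ.comap inl) (subset_univ A)
  have e2 : ∑ u ∈ U, ∑ a ∈ A, cr Γ a u ≤ j * W := by
    refine le_trans ?_ (Nat.mul_le_mul_right W hU)
    rw [← smul_eq_mul]
    exact sum_le_card_nsmul _ _ _ fun u _ => h.hW u ▸ sum_le_sum_of_subset (subset_univ A)
  have e3 := eM_le Γ U
  have e4 : U.card * (U.card - 1) ≤ 2 * 1 := Nat.mul_le_mul (by omega) (by omega)
  rw [ee_disjSum]
  nlinarith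

omit [Fintype μ] in
theorem Str.ee_ge (h : Str Γ m W) (E : Finset κ) (U : Finset μ) :
    2 * U.card * W + eM Γ U ≤ ee Γ (Eᶜ.disjSum U) + 2 * U.card * E.card := by
  have e1 : U.card * W ≤ ∑ u ∈ U, ∑ a ∈ Eᶜ, cr Γ a u + U.card * E.card := by
    rw [← smul_eq_mul, ← smul_eq_mul, ← sum_const, ← sum_const, ← sum_add_distrib]
    refine sum_le_sum fun u _ => ?_
    rw [← h.hW u, ← sum_add_sum_compl E, add_comm, card_eq_sum_ones]
    exact Nat.add_le_add_left (sum_le_sum fun a _ => ad_le _ _ _) _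
  rw [ee_disjSum]
  nlinarith

omit [Fintype μ] in
theorem split (S : Finset (κ ⊕ μ)) : S = (S.toLeftᶜ)ᶜ.disjSum S.toRight := by
  rw [compl_compl, toLeft_disjSum_toRight]

omit [Fintype μ] in
theorem card_split (S : Finset (κ ⊕ μ)) :
    S.card + (S.toLeftᶜ).card = Fintype.card κ + S.toRight.card := by
  have h1 := card_toLeft_add_card_toRight (u := S)
  have h2 := card_add_card_compl S.toLeft
  omega

omit [Fintype μ] in
theorem low_iff (h : Str Γ m W) (hs : Sparse Γ m W D) {j : ℕ} (hj : j ≤ 2) (S : Finset (κ ⊕ μ))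
    (hS : Fintype.card κ ≤ S.card + D) : ee Γ S ≤ 2 * m + 2 * j * W + 2 ↔ S.toRight.card ≤ j := by
  have := card_split S
  rw [split S, toRight_disjSum]
  exact ⟨fun a => not_lt.1 fun b => absurd (hs _ _ j hj b (by omega)) (not_lt.2 a),
    fun a => h.ee_le _ _ j hj a⟩

theorem level {M : Type} [AddCommMonoid M] (hI : Inv2 Γ Γ') (h : Str Γ m W) (h' : Str Γ' m W)
    (hs : Sparse Γ m W D) (hN : Num (Fintype.card κ) m W D) {j d : ℕ} (hj : j ≤ 2) (hd : d ≤ D)
    (φ : ℕ → M) :
    ∑ U ∈ powersetCard j (univ : Finset μ), ∑ E ∈ powersetCard d (univ : Finset κ),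
      φ (ee Γ (Eᶜ.disjSum U)) =
    ∑ U ∈ powersetCard j (univ : Finset μ), ∑ E ∈ powersetCard d (univ : Finset κ),
      φ (ee Γ' (Eᶜ.disjSum U)) := by
  have n1 := hN.h1
  have n2 := hN.h2
  obtain ⟨k, hk⟩ : ∃ k, k + d = Fintype.card κ + j := ⟨Fintype.card κ + j - d, by omega⟩
  have hjW : j * W ≤ 2 * W := Nat.mul_le_mul_right W hj
  have hr : 2 * m + 2 * j * W + 2 + 1 < k := by nlinarith
  have l1 : ∀ S ∈ powersetCard k (univ : Finset (κ ⊕ μ)),
      ee Γ S ≤ 2 * m + 2 * j * W + 2 ↔ S.toRight.card ≤ j := fun S hS =>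
    low_iff h hs hj S (by rw [(mem_powersetCard.1 hS).2]; omega)
  have l2 : ∀ S ∈ powersetCard k (univ : Finset (κ ⊕ μ)),
      ee Γ' S ≤ 2 * m + 2 * j * W + 2 ↔ S.toRight.card ≤ j := by
    have c := hI.sum k (fun t => if t ≤ 2 * m + 2 * j * W + 2 then 1 else 0)
      (fun t ht => if_neg (by omega))
    rw [← card_filter, ← card_filter, filter_congr l1] at c
    have := eq_of_subset_of_card_le (s := (powersetCard k univ).filter fun S => S.toRight.card ≤ j)
      (t := (powersetCard k univ).filter fun S => ee Γ' S ≤ 2 * m + 2 * j * W + 2)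
      (fun S hS => mem_filter.2 ⟨(mem_filter.1 hS).1, by
        rw [split S]
        exact h'.ee_le _ _ j hj (mem_filter.1 hS).2⟩) c.ge
    intro S hS
    simpa [hS] using (Finset.ext_iff.1 this S).symm
  have key : ∀ G : SimpleGraph (κ ⊕ μ), Str G m W → (∀ S ∈ powersetCard k (univ : Finset (κ ⊕ μ)),
      ee G S ≤ 2 * m + 2 * j * W + 2 ↔ S.toRight.card ≤ j) →
      ∑ U ∈ powersetCard j (univ : Finset μ), ∑ E ∈ powersetCard d (univ : Finset κ),
        φ (ee G (Eᶜ.disjSum U)) = ∑ S ∈ powersetCard k univ,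
        (fun t => if t ≤ 2 * m + 2 * j * W + 2 ∧ (j = 0 ∨ 2 * m + 2 * (j - 1) * W + 2 < t)
          then φ t else 0) (ee G S) := by
    intro G hG l
    have l3 : ∀ S ∈ powersetCard k (univ : Finset (κ ⊕ μ)),
        (ee G S ≤ 2 * m + 2 * j * W + 2 ∧ (j = 0 ∨ 2 * m + 2 * (j - 1) * W + 2 < ee G S)) ↔
          S.toRight.card = j := by
      intro S hS
      rw [l S hS]
      have c1 := card_split S
      rw [(mem_powersetCard.1 hS).2] at c1
      constructor
      · rintro ⟨a, b⟩
        by_contra hc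
        have := hG.ee_le (S.toLeftᶜ)ᶜ S.toRight (j - 1) (by omega) (by omega)
        rw [← split] at this
        omega
      · intro a
        have := hG.ee_ge S.toLeftᶜ S.toRight
        rw [← split, a, show (S.toLeftᶜ).card = d by omega] at this
        refine ⟨a.le, ?_⟩
        interval_cases j <;> omega
    simp only
    rw [← sum_filter, filter_congr l3, ← sum_product']
    refine sum_nbij' (fun p => p.2ᶜ.disjSum p.1) (fun S => (S.toRight, S.toLeftᶜ)) ?_ ?_ ?_ ?_ ?_
    · rintro ⟨U, E⟩ hp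
      simp only [mem_product, mem_powersetCard, subset_univ, true_and, mem_filter, card_disjSum,
        toRight_disjSum] at hp ⊢
      have := card_add_card_compl E
      omega
    · intro S hS
      simp only [mem_product, mem_powersetCard, subset_univ, true_and, mem_filter] at hS ⊢
      have := card_split S
      omega
    · rintro ⟨U, E⟩ _
      simp
    · intro S _
      exact (split S).symm
    · intro p _
      rfl
  rw [key Γ h l1, key Γ' h' l2]
  exact hI.sum k (fun t => if t ≤ 2 * m + 2 * j * W + 2 ∧ (j = 0 ∨ 2 * m + 2 * (j - 1) * W + 2 < t)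
    then φ t else 0) fun t ht => if_neg fun a => by have := a.1; omega

theorem stage0 {V' : Type} [Fintype V'] (G' : SimpleGraph V') (hI : Inv2 Γ G'ᶜ) (h : Str Γ m W)
    (hs : Sparse Γ m W D) (hN : Num (Fintype.card κ) m W D)
    (hr : grk G' < Fintype.card κ + Fintype.card μ) (hi : ∀ w, ∃ v, G'.Adj w v) :
    ∃ e : κ ⊕ μ ≃ V', Str (G'ᶜ.comap e) m W := by
  have n1 := hN.h1
  have n2 := hN.h2
  set s := Fintype.card κ with hs0
  have cf : ∀ (k : ℕ) (p : ℕ → Prop) [DecidablePred p], (∀ t, p t → t + 1 < k) →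
      ((powersetCard k univ).filter fun S => p (ee Γ S)).card =
        ((powersetCard k univ).filter fun S => p (ee G'ᶜ S)).card := by
    intro k p _ hp
    rw [card_filter, card_filter]
    exact hI.sum k (fun t => if p t then 1 else 0) fun t ht => if_neg fun a => by
      have := hp t a
      omega
  have eeK : ee Γ (univ.disjSum ∅) = 2 * m := by
    rw [ee_disjSum]
    simp [h.hm, eM]
  obtain ⟨K, hK⟩ : ∃ K, (powersetCard s univ).filter (fun S => ee G'ᶜ S ≤ 2 * m + 2) = {K} := by
    rw [← card_eq_one, ← cf s (fun t => t ≤ 2 * m + 2) (fun t ht => by omega), card_eq_one]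
    refine ⟨univ.disjSum ∅, ?_⟩
    ext S
    simp only [mem_filter, mem_powersetCard, subset_univ, true_and, mem_singleton]
    constructor
    · rintro ⟨a, b⟩
      have c1 := card_split S
      have c2 := (low_iff h hs (j := 0) (by omega) S (by omega)).1 (by omega)
      rw [split S, card_eq_zero.1 (show (S.toLeftᶜ).card = 0 by omega),
        card_eq_zero.1 (show S.toRight.card = 0 by omega), compl_empty]
    · rintro rfl
      exact ⟨by simp [hs0], by omega⟩
  have hKu : ∀ T : Finset V', T.card = s → ee G'ᶜ T ≤ 2 * m + 2 → T = K := fun T a b =>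
    mem_singleton.1 (hK ▸ mem_filter.2 ⟨mem_powersetCard.2 ⟨subset_univ _, a⟩, b⟩)
  obtain ⟨hKc, hKe⟩ : K.card = s ∧ ee G'ᶜ K = 2 * m := by
    have := cf s (fun t => t = 2 * m) (fun t ht => by omega)
    obtain ⟨T, hT⟩ := card_pos.1 (this ▸ card_pos.2 ⟨univ.disjSum ∅,
      mem_filter.2 ⟨mem_powersetCard.2 ⟨subset_univ _, by simp [hs0]⟩, eeK⟩⟩)
    simp only [mem_filter, mem_powersetCard, subset_univ, true_and] at hT
    exact hKu T hT.1 (by omega) ▸ hT
  let F := (powersetCard (s + 1) univ).filter fun S => ee G'ᶜ S = 2 * m + 2 * W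
  have hF : F.card = Fintype.card μ := by
    rw [← cf (s + 1) (fun t => t = 2 * m + 2 * W) (fun t ht => by omega), ← card_univ]
    symm
    refine card_bij (fun u _ => univ.disjSum {u}) ?_ ?_ ?_
    · intro u _
      simp [ee_disjSum, h.hm, h.hW, eM, ad_self, hs0]
    · intro u _ v _ e
      simpa using congrArg toRight e
    · intro S hS
      simp only [mem_filter, mem_powersetCard, subset_univ, true_and] at hS
      have c1 := card_split S
      have c2 := (low_iff h hs (j := 1) (by omega) S (by omega)).1 (by omega)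
      obtain ⟨u, hu⟩ := card_eq_one.1 (show S.toRight.card = 1 by omega)
      refine ⟨u, mem_univ _, ?_⟩
      rw [split S, card_eq_zero.1 (show (S.toLeftᶜ).card = 0 by omega), hu, compl_empty]
  let T := (powersetCard s univ).filter fun S => ee G'ᶜ S ≤ 2 * m + 2 * W + 2
  have hT : T.card ≤ Fintype.card μ * s + 1 := by
    rw [← cf s (fun t => t ≤ 2 * m + 2 * W + 2) (fun t ht => by omega)]
    refine (card_le_card (t := insert (univ.disjSum ∅)
      ((univ ×ˢ univ).image fun p : μ × κ => ({p.2}ᶜ : Finset κ).disjSum {p.1})) ?_).trans ?_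
    · intro S hS
      simp only [mem_filter, mem_powersetCard, subset_univ, true_and] at hS
      have c1 := card_split S
      have c2 := (low_iff h hs (j := 1) (by omega) S (by omega)).1 (by omega)
      by_cases c3 : S.toRight.card = 0
      · rw [split S, card_eq_zero.1 (show (S.toLeftᶜ).card = 0 by omega), card_eq_zero.1 c3,
          compl_empty]
        exact mem_insert_self _ _
      · obtain ⟨u, hu⟩ := card_eq_one.1 (show S.toRight.card = 1 by omega)
        obtain ⟨a, ha⟩ := card_eq_one.1 (show (S.toLeftᶜ).card = 1 by omega)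
        exact mem_insert_of_mem (mem_image.2 ⟨(u, a), by simp, by rw [split S, hu, ha]⟩)
    · refine (card_insert_le _ _).trans (Nat.add_le_add_right (card_image_le.trans ?_) 1)
      simp [hs0]
  have h2 : ∀ S : Finset V', S.card = s + 2 → 2 * m + 4 * W ≤ ee G'ᶜ S := by
    have := cf (s + 2) (fun t => t < 2 * m + 4 * W) (fun t ht => by omega)
    rw [card_eq_zero.2 (filter_eq_empty_iff.2 fun S hS a => by
      have c0 := (mem_powersetCard.1 hS).2
      have c1 := card_split S
      have c2 := (low_iff h hs (j := 2) (by omega) S (by omega)).1 (by omega)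
      have c3 := h.master S.toLeftᶜ S.toRight
      rw [← split, card_eq_zero.1 (show (S.toLeftᶜ).card = 0 by omega),
        show S.toRight.card = 2 by omega] at c3
      simp only [sum_empty] at c3
      omega)] at this
    intro S hS
    exact not_lt.1 (filter_eq_empty_iff.1 (card_eq_zero.1 this.symm)
      (mem_powersetCard.2 ⟨subset_univ _, hS⟩))
  have hFm : ∀ S ∈ F, S.card = s + 1 ∧ ee G'ᶜ S = 2 * m + 2 * W := fun S hS => by
    simpa [F] using hS
  have h3 : ∀ S ∈ F, K ⊆ S := by
    intro S₀ hS₀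
    by_contra hc
    let P := (F.sigma fun S => S).filter fun p => p.1.erase p.2 ≠ K
    have c1 : P.card ≤ (T.erase K).card := by
      refine card_le_card_of_injOn (fun p => p.1.erase p.2) ?_ ?_
      · rintro ⟨S, x⟩ hp
        simp only [P, coe_filter, mem_sigma, Set.mem_ofPred_eq] at hp
        obtain ⟨⟨a, b⟩, c⟩ := hp
        have := hFm S a
        have := ee_mono G'ᶜ (erase_subset x S)
        simp only [coe_erase, Set.mem_sdiff, mem_coe, Set.mem_singleton_iff, T, mem_filter,
          mem_powersetCard, subset_univ, true_and, card_erase_of_mem b]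
        exact ⟨⟨by omega, by omega⟩, c⟩
      · rintro ⟨S, x⟩ hp ⟨S', x'⟩ hp' e
        simp only [P, coe_filter, mem_sigma, Set.mem_ofPred_eq] at hp hp' e
        obtain ⟨⟨a, b⟩, c⟩ := hp
        obtain ⟨⟨a', b'⟩, -⟩ := hp'
        have hx : x = x' := by
          by_contra hx
          have d1 := insert_erase b
          have d2 := insert_erase b'
          have d3 : x ∉ S.erase x := notMem_erase _ _
          have d4 : x' ∉ S.erase x := e ▸ notMem_erase _ _
          have d5 : x ∉ insert x' (S.erase x) := by simp [hx]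
          have f1 := ee_insert G'ᶜ d3
          have f2 := ee_insert G'ᶜ d4
          have f3 := ee_insert G'ᶜ d5
          have f4 := h2 (insert x (insert x' (S.erase x))) (by
            rw [card_insert_of_notMem d5, card_insert_of_notMem d4, card_erase_of_mem b,
              (hFm S a).1]
            rfl)
          rw [sum_insert d4] at f3
          rw [d1, (hFm S a).2] at f1
          have f5 : ee G'ᶜ (insert x' (S.erase x)) = 2 * m + 2 * W := by
            rw [e, d2, (hFm S' a').2]
          have f6 := ad_le G'ᶜ x x'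
          exact c (hKu _ (by rw [card_erase_of_mem b, (hFm S a).1]; rfl) (by omega))
        subst hx
        have : S = S' := by rw [← insert_erase b, e, insert_erase b']
        subst this
        rfl
    have c2 : ∀ S ∈ F, s + (if S = S₀ then 1 else 0) ≤ (S.filter fun x => S.erase x ≠ K).card := by
      intro S hS
      have d1 := card_filter_add_card_filter_not (s := S) (fun x => S.erase x ≠ K)
      have d2 : (S.filter fun x => ¬ S.erase x ≠ K).card ≤ 1 := card_le_one.2 fun x hx y hy => by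
        simp only [mem_filter, not_not] at hx hy
        exact (erase_inj S hx.1).1 (hx.2.trans hy.2.symm)
      rw [(hFm S hS).1] at d1
      split_ifs with a
      · have : (S.filter fun x => ¬ S.erase x ≠ K).card = 0 :=
          card_eq_zero.2 (filter_eq_empty_iff.2 fun x _ b => hc (by
            rw [← not_not.1 b, a]
            exact erase_subset _ _))
        omega
      · omega
    have c3 : P.card = ∑ S ∈ F, (S.filter fun x => S.erase x ≠ K).card := by
      simp only [P, card_filter, sum_sigma]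
    have c4 := sum_le_sum c2
    rw [sum_add_distrib, sum_const, sum_ite_eq', if_pos hS₀, hF, smul_eq_mul, ← c3] at c4
    have c5 : K ∈ T := mem_filter.2 ⟨mem_powersetCard.2 ⟨subset_univ _, hKc⟩, by omega⟩
    rw [card_erase_of_mem c5] at c1
    omega
  let M := univ.filter fun u => u ∉ K ∧ insert u K ∈ F
  have hM : M.card = Fintype.card μ := by
    rw [← hF]
    refine card_bij (fun u _ => insert u K) (fun u hu => (mem_filter.1 hu).2.2) ?_ ?_
    · intro u hu v _ e
      exact (insert_inj (mem_filter.1 hu).2.1).1 e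
    · intro S hS
      obtain ⟨u, hu⟩ := card_eq_one.1 (show (S \ K).card = 1 by
        rw [card_sdiff_of_subset (h3 S hS), (hFm S hS).1, hKc]
        omega)
      have e : insert u K = S := by rw [← sdiff_union_of_subset (h3 S hS), hu, insert_eq]
      have : u ∈ S \ K := hu ▸ mem_singleton_self u
      exact ⟨u, mem_filter.2 ⟨mem_univ _, (mem_sdiff.1 this).2, e ▸ hS⟩, e⟩
  have hMW : ∀ u ∈ M, u ∉ K ∧ ∑ v ∈ K, ad G'ᶜ u v = W := by
    intro u hu
    obtain ⟨a, b⟩ := (mem_filter.1 hu).2
    have := ee_insert G'ᶜ a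
    rw [(hFm _ b).2, hKe] at this
    exact ⟨a, by omega⟩
  have hex : ∀ f : V' → ℕ, ∑ v ∈ K, f v < s → ∃ v ∈ K, f v = 0 := by
    intro f hf
    by_contra hc
    have := card_nsmul_le_sum K f 1 fun v hv => Nat.pos_of_ne_zero fun e => hc ⟨v, hv, e⟩
    rw [hKc, smul_eq_mul, mul_one] at this
    exact absurd hf (not_lt.2 this)
  have hadj : ∀ u v, u ≠ v → ad G'ᶜ u v = 0 → G'.Adj u v := by
    intro u v hne a
    by_contra hc
    simp [ad, hne, hc] at a
  obtain ⟨a₀, ha₀, ha₁⟩ := hex (fun a => ∑ b ∈ K, ad G'ᶜ a b) (by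
    change ee G'ᶜ K < s
    omega)
  have hKa : ∀ b ∈ K, G'.connectedComponentMk b = G'.connectedComponentMk a₀ := by
    intro b hb
    by_cases e : a₀ = b
    · rw [e]
    · exact ConnectedComponent.connectedComponentMk_eq_of_adj
        (hadj _ _ e ((sum_eq_zero_iff.1 ha₁) b hb)).symm
  have hsub : K ∪ M ⊆ fib G' (G'.connectedComponentMk a₀) := by
    intro u hu
    refine mem_filter.2 ⟨mem_univ _, ?_⟩
    rcases mem_union.1 hu with a | a
    · exact hKa u a
    · obtain ⟨b, hb, hb'⟩ := hex (ad G'ᶜ u) (by rw [(hMW u a).2]; omega)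
      rw [← hKa b hb]
      exact ConnectedComponent.connectedComponentMk_eq_of_adj
        (hadj _ _ (fun e => (hMW u a).1 (e ▸ hb)) hb')
  have hdis : Disjoint K M := disjoint_right.2 fun u hu => (hMW u hu).1
  have hall : ∀ u, u ∈ K ∪ M := by
    have c1 := card_le_card hsub
    have c2 := fib_le G' (G'.connectedComponentMk a₀)
    rw [card_union_of_disjoint hdis, hKc, hM] at c1
    intro u
    rw [eq_of_subset_of_card_le hsub (by rw [card_union_of_disjoint hdis, hKc, hM]; omega)]
    by_contra hu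
    have hne : G'.connectedComponentMk u ≠ G'.connectedComponentMk a₀ :=
      fun e => hu (mem_filter.2 ⟨mem_univ _, e⟩)
    have := sum_le_sum_of_subset (f := fun C => (fib G' C).card - 1)
      (subset_univ {G'.connectedComponentMk u, G'.connectedComponentMk a₀})
    rw [sum_fib, sum_pair hne] at this
    have h2 := degree_le_fib G' u
    have h3 := (hi u).choose_spec.degree_pos_left
    omega
  obtain ⟨e1⟩ : Nonempty (κ ≃ {x // x ∈ K}) := ⟨Fintype.equivOfCardEq (by simp [hKc, hs0])⟩
  obtain ⟨e2⟩ : Nonempty (μ ≃ {x // x ∉ K}) := ⟨Fintype.equivOfCardEq (by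
    rw [← hM, Fintype.card_subtype]
    congr 1
    ext u
    have := mem_union.1 (hall u)
    constructor
    · exact fun a => mem_filter.2 ⟨mem_univ _, (hMW u a).1⟩
    · exact fun a => this.resolve_left (mem_filter.1 a).2)⟩
  have hsum : ∀ f : V' → ℕ, ∑ a, f (e1 a) = ∑ v ∈ K, f v := fun f => by
    rw [← sum_coe_sort K]
    exact Equiv.sum_comp e1 fun x => f x
  refine ⟨(e1.sumCongr e2).trans (Equiv.sumCompl (· ∈ K)), ?_, fun u => ?_⟩
  · rw [← hKe, ee, ← hsum]
    exact sum_congr rfl fun a _ => hsum (ad G'ᶜ (e1 a))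
  · rw [← (hMW (e2 u) ((mem_union.1 (hall _)).resolve_left (e2 u).2)).2, ← hsum]
    exact sum_congr rfl fun a _ => ad_comm _ _ _

end Pool.Agent.MP_f8284b_co.H58

end MrgPart3

-- ======== part 4: formerly Pool.Agent.MP_f8284b_co.h58.Alg
section MrgPart4

set_option autoImplicit false

namespace Pool.Agent.MP_f8284b_co.H58

open Finset Polynomial Classical

/-- The terms of least order of a vanishing sum cancel. -/
theorem peel {R S ι : Type} [CommRing R] [IsDomain R] [CommRing S] (φ : R →+* S) (p : R)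
    (hp : p ≠ 0) (hφ : φ p = 0) (I : Finset ι) (hI : I.Nonempty) (e : ι → ℕ) (q : ι → R)
    (h : ∑ i ∈ I, p ^ e i * q i = 0) :
    ∃ i₀ ∈ I, ∑ i ∈ I.filter (fun i => e i = e i₀), φ (q i) = 0 := by
  obtain ⟨i₀, hi₀, hmin⟩ := exists_min_image I e hI
  refine ⟨i₀, hi₀, ?_⟩
  have h1 : p ^ e i₀ * ∑ i ∈ I, p ^ (e i - e i₀) * q i = 0 := by
    rw [mul_sum, ← h]
    refine sum_congr rfl fun i hi => ?_
    rw [← mul_assoc, ← pow_add, Nat.add_sub_cancel' (hmin i hi)]
  have h2 := congrArg φ ((mul_eq_zero.1 h1).resolve_left (pow_ne_zero _ hp))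
  rw [map_sum, map_zero] at h2
  rw [← h2, sum_filter]
  refine sum_congr rfl fun i hi => ?_
  split_ifs with a
  · simp [a]
  · have := hmin i hi
    rw [map_mul, map_pow, hφ, zero_pow (by omega), zero_mul]

theorem trunc_zero {R : Type} [CommRing R] (U F : R[X]) (D : ℕ) (hU : U.coeff 0 = 1)
    (hF : F.natDegree ≤ D) (h : ∀ d ≤ D, (U * F).coeff d = 0) : F = 0 := by
  have h1 : X ^ (D + 1) ∣ U * F := X_pow_dvd_iff.2 fun d hd => h d (by omega)
  have h2 : IsCoprime (X : R[X]) U := by
    refine ⟨-U.divX, 1, ?_⟩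
    have := X_mul_divX_add U
    rw [hU, C_1] at this
    linear_combination (-1 : R[X]) * this
  have h3 := (h2.pow_left (m := D + 1)).dvd_of_dvd_mul_left h1
  ext d
  by_cases hd : d ≤ D
  · exact X_pow_dvd_iff.1 h3 d (by omega)
  · exact coeff_eq_zero_of_natDegree_lt (by omega)

/-- The factor of a vertex with `k` edges. -/
noncomputable def xk {R : Type} [CommRing R] (τ : R) (k : ℕ) : R[X] := 1 + X * C (τ ^ k)

/-- A product of factors. -/
noncomputable def ps {R : Type} [CommRing R] (τ : R) (κ : ℕ → ℕ) : R[X] :=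
  ∏ k ∈ range 9, xk τ k ^ κ k

theorem ps_coeff_zero {R : Type} [CommRing R] (τ : R) (κ : ℕ → ℕ) : (ps τ κ).coeff 0 = 1 := by
  rw [coeff_zero_eq_eval_zero]
  simp [ps, xk, eval_prod]

theorem ps_add {R : Type} [CommRing R] (τ : R) (κ κ' : ℕ → ℕ) :
    ps τ (fun k => κ k + κ' k) = ps τ κ * ps τ κ' := by
  simp only [ps, pow_add, prod_mul_distrib]

theorem ps_natDegree {R : Type} [CommRing R] (τ : R) (κ : ℕ → ℕ) :
    (ps τ κ).natDegree ≤ ∑ k ∈ range 9, κ k := by
  refine (natDegree_prod_le _ _).trans (sum_le_sum fun k _ => ?_)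
  refine natDegree_pow_le.trans ?_
  have : (xk τ k).natDegree ≤ 1 := by
    unfold xk
    compute_degree
  nlinarith

theorem coeff_prod_xk {R α : Type} [CommRing R] (τ : R) (K : Finset α) (c : α → ℕ) (d : ℕ) :
    (∏ a ∈ K, xk τ (c a)).coeff d = ∑ E ∈ powersetCard d K, τ ^ ∑ a ∈ E, c a := by
  simp only [xk]
  rw [prod_one_add, finsetSum_coeff, powersetCard_eq_filter, sum_filter]
  refine sum_congr rfl fun E _ => ?_
  rw [prod_mul_distrib, prod_const, ← map_prod, prod_pow_eq_pow_sum, mul_comm, coeff_C_mul,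
    coeff_X_pow]
  simp [eq_comm]

theorem val2 {R ι : Type} [CommRing R] [IsDomain R] (τ τ' : R) (hτ : τ * τ' = 1) (ψ : R →+* ℤ)
    (hψ : ψ τ = -1) (h1 : 1 + τ ≠ 0) (T : ℕ) (hT : T < 9) (ν : ℕ → ℕ) (q : ℕ → R)
    (hq : ∀ k ∈ (range 9).erase T, 1 - τ' ^ T * τ ^ k = (1 + τ) ^ ν k * q k)
    (I : Finset ι) (hI : I.Nonempty) (c : ι → ℤ) (κ : ι → ℕ → ℕ)
    (h : ∑ i ∈ I, (c i : R[X]) * ps τ (κ i) = 0) :
    ∃ i₀ ∈ I, ∑ i ∈ I.filter (fun i => κ i T = κ i₀ T ∧
        ∑ k ∈ (range 9).erase T, ν k * κ i k = ∑ k ∈ (range 9).erase T, ν k * κ i₀ k),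
      c i * ∏ k ∈ (range 9).erase T, ψ (q k) ^ κ i k = 0 := by
  have hp : xk τ T ≠ 0 := fun e => by
    have := congrArg (fun p => p.coeff 0) e
    simp [xk] at this
  have hφ : evalRingHom (-τ' ^ T) (xk τ T) = 0 := by
    have : τ ^ T * τ' ^ T = 1 := by rw [← mul_pow, hτ, one_pow]
    simp only [xk, coe_evalRingHom, eval_add, eval_one, eval_mul, eval_X, eval_C]
    linear_combination (-1 : R) * this
  obtain ⟨i₁, hi₁, h2⟩ := peel (evalRingHom (-τ' ^ T)) _ hp hφ I hI (fun i => κ i T)
    (fun i => (c i : R[X]) * ∏ k ∈ (range 9).erase T, xk τ k ^ κ i k) (by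
      rw [← h]
      refine sum_congr rfl fun i _ => ?_
      rw [ps, ← mul_prod_erase _ _ (mem_range.2 hT)]
      ring)
  obtain ⟨i₀, hi₀, h3⟩ := peel ψ (1 + τ) h1 (by simp [hψ]) (I.filter fun i => κ i T = κ i₁ T)
    ⟨i₁, mem_filter.2 ⟨hi₁, rfl⟩⟩ (fun i => ∑ k ∈ (range 9).erase T, ν k * κ i k)
    (fun i => (c i : R) * ∏ k ∈ (range 9).erase T, q k ^ κ i k) (by
      rw [← h2]
      refine sum_congr rfl fun i _ => ?_
      rw [map_mul, map_intCast, map_prod, ← prod_pow_eq_pow_sum, mul_left_comm,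
        ← prod_mul_distrib]
      congr 1
      refine prod_congr rfl fun k hk => ?_
      rw [map_pow, pow_mul, ← mul_pow, ← hq k hk]
      congr 1
      simp only [xk, coe_evalRingHom, eval_add, eval_one, eval_mul, eval_X, eval_C]
      ring)
  obtain ⟨hi₀', e⟩ := mem_filter.1 hi₀
  refine ⟨i₀, hi₀', ?_⟩
  rw [← h3, filter_filter]
  simp only [e]
  refine sum_congr rfl fun i _ => ?_
  simp [map_prod]

/-- Laurent polynomials. -/
abbrev LR : Type := LaurentPolynomial ℤ

/-- The variable. -/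
noncomputable def ta : LR := LaurentPolynomial.T 1

/-- Its inverse. -/
noncomputable def tb : LR := LaurentPolynomial.T (-1)

/-- Evaluation at `-1`. -/
noncomputable def ev : LR →+* ℤ := LaurentPolynomial.eval₂ (RingHom.id ℤ) (-1 : ℤˣ)

theorem ta_tb : ta * tb = 1 := by
  rw [ta, tb, ← LaurentPolynomial.T_add]
  rfl

theorem ev_ta : ev ta = -1 := by
  rw [ev, ta, LaurentPolynomial.eval₂_T]
  rfl

theorem ev_tb : ev tb = -1 := by
  rw [ev, tb, LaurentPolynomial.eval₂_T]
  rfl

theorem one_add_ta : 1 + ta ≠ 0 := fun h => by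
  have := congrArg (LaurentPolynomial.eval₂ (RingHom.id ℤ) (1 : ℤˣ)) h
  rw [map_add, map_one, map_zero, ta, LaurentPolynomial.eval₂_T] at this
  simp at this

theorem one_sub_ta : 1 - ta ≠ 0 := fun h => by
  have := congrArg ev h
  rw [map_sub, map_one, map_zero, ev_ta] at this
  simp at this

theorem val_four {ι : Type} (I : Finset ι) (hI : I.Nonempty) (c : ι → ℤ) (κ : ι → ℕ → ℕ)
    (h : ∑ i ∈ I, (c i : LR[X]) * ps ta (κ i) = 0) :
    ∃ i₀ ∈ I, ∑ i ∈ I.filter (fun i => κ i 4 = κ i₀ 4 ∧
        κ i 0 + κ i 2 + κ i 6 + κ i 8 = κ i₀ 0 + κ i₀ 2 + κ i₀ 6 + κ i₀ 8),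
      2 ^ (κ i 1 + κ i 3 + κ i 5 + κ i 7 + κ i 2 + κ i 6 + 2 * (κ i 0 + κ i 8)) *
        (c i * (-1) ^ (κ i 0 + κ i 2)) = 0 := by
  have h4 : ta ^ 4 * tb ^ 4 = 1 := by rw [← mul_pow, ta_tb, one_pow]
  have e : (range 9).erase 4 = {0, 1, 2, 3, 5, 6, 7, 8} := by decide
  obtain ⟨i₀, hi₀, h1⟩ := val2 ta tb ta_tb ev ev_ta one_add_ta 4 (by norm_num)
    (fun k => if k % 2 = 0 then 1 else 0)
    (fun k => if k = 0 then tb ^ 4 * ((ta - 1) * (ta ^ 2 + 1)) else
      if k = 2 then tb ^ 4 * ta ^ 2 * (ta - 1) else if k = 6 then 1 - ta else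
      if k = 8 then (1 - ta) * (1 + ta ^ 2) else 1 - tb ^ 4 * ta ^ k)
    (by
      rw [e]
      intro k hk
      simp only [mem_insert, mem_singleton] at hk
      rcases hk with rfl | rfl | rfl | rfl | rfl | rfl | rfl | rfl <;> norm_num
      · linear_combination (-1 : LR) * h4
      · linear_combination (-1 : LR) * h4
      · linear_combination (-ta ^ 2) * h4
      · linear_combination (-ta ^ 4) * h4) I hI c κ h
  refine ⟨i₀, hi₀, ?_⟩
  rw [← h1, e]
  refine sum_congr (filter_congr fun i _ => ?_) fun i _ => ?_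
  · simp
    omega
  · simp [ev_ta, ev_tb]
    have a1 : (-4 : ℤ) ^ κ i 0 = (-1) ^ κ i 0 * 2 ^ (2 * κ i 0) := by
      rw [pow_mul, ← mul_pow]
      norm_num
    have a2 : (-2 : ℤ) ^ κ i 2 = (-1) ^ κ i 2 * 2 ^ κ i 2 := by
      rw [← mul_pow]
      norm_num
    have a3 : (4 : ℤ) ^ κ i 8 = 2 ^ (2 * κ i 8) := by
      rw [pow_mul]
      norm_num
    rw [a1, a2, a3]
    ring

theorem val_six {ι : Type} (I : Finset ι) (hI : I.Nonempty) (c : ι → ℤ) (κ : ι → ℕ → ℕ)
    (h : ∑ i ∈ I, (c i : LR[X]) * ps ta (κ i) = 0) :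
    ∃ i₀ ∈ I, ∃ l : ℕ → ℤ, (∀ k ∈ (range 9).erase 6, l k ≠ 0) ∧
      ∑ i ∈ I.filter (fun i => κ i 6 = κ i₀ 6 ∧
        κ i 0 + κ i 2 + κ i 4 + κ i 8 = κ i₀ 0 + κ i₀ 2 + κ i₀ 4 + κ i₀ 8),
      c i * ∏ k ∈ (range 9).erase 6, l k ^ κ i k = 0 := by
  have h6 : ta ^ 6 * tb ^ 6 = 1 := by rw [← mul_pow, ta_tb, one_pow]
  have e : (range 9).erase 6 = {0, 1, 2, 3, 4, 5, 7, 8} := by decide
  obtain ⟨i₀, hi₀, h1⟩ := val2 ta tb ta_tb ev ev_ta one_add_ta 6 (by norm_num)
    (fun k => if k % 2 = 0 then 1 else 0)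
    (fun k => if k = 0 then tb ^ 6 * ((ta - 1) * (ta ^ 4 + ta ^ 2 + 1)) else
      if k = 2 then tb ^ 6 * ta ^ 2 * ((ta - 1) * (ta ^ 2 + 1)) else
      if k = 4 then tb ^ 6 * ta ^ 4 * (ta - 1) else
      if k = 8 then 1 - ta else 1 - tb ^ 6 * ta ^ k)
    (by
      rw [e]
      intro k hk
      simp only [mem_insert, mem_singleton] at hk
      rcases hk with rfl | rfl | rfl | rfl | rfl | rfl | rfl | rfl <;> norm_num
      · linear_combination (-1 : LR) * h6
      · linear_combination (-1 : LR) * h6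
      · linear_combination (-1 : LR) * h6
      · linear_combination (-ta ^ 2) * h6) I hI c κ h
  refine ⟨i₀, hi₀, fun k => ev (if k = 0 then tb ^ 6 * ((ta - 1) * (ta ^ 4 + ta ^ 2 + 1)) else
      if k = 2 then tb ^ 6 * ta ^ 2 * ((ta - 1) * (ta ^ 2 + 1)) else
      if k = 4 then tb ^ 6 * ta ^ 4 * (ta - 1) else
      if k = 8 then 1 - ta else 1 - tb ^ 6 * ta ^ k), ?_, ?_⟩
  rotate_left
  · rw [← h1]
    refine sum_congr (filter_congr fun i _ => ?_) fun i _ => rfl
    rw [e]
    simp
    omega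
  · rw [e]
    intro k hk
    simp only [mem_insert, mem_singleton] at hk
    rcases hk with rfl | rfl | rfl | rfl | rfl | rfl | rfl | rfl <;> simp [ev_ta, ev_tb]

theorem binary {ι : Type} (I : Finset ι) (hI : I.Nonempty) (f : ι → ℕ) (c : ι → ℤ)
    (hc : ∀ i ∈ I, Odd (c i)) (hf : Set.InjOn f I) : ∑ i ∈ I, 2 ^ f i * c i ≠ 0 := by
  intro h
  obtain ⟨i₀, hi₀, h1⟩ := peel (Int.castRingHom (ZMod 2)) 2 two_ne_zero (by decide) I hI f c h
  have : I.filter (fun i => f i = f i₀) = {i₀} := by
    ext i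
    simp only [mem_filter, mem_singleton]
    exact ⟨fun a => hf a.1 hi₀ a.2, fun a => by simp [a, hi₀]⟩
  rw [this, sum_singleton] at h1
  obtain ⟨m, hm⟩ := hc i₀ hi₀
  rw [hm] at h1
  have h2 : (2 : ZMod 2) = 0 := by decide
  simp [h2] at h1

theorem exists_equiv {α α' β : Type} [Fintype α] [Fintype α'] [DecidableEq β] (f : α → β)
    (g : α' → β)
    (h : ∀ b, (univ.filter fun a => f a = b).card = (univ.filter fun a => g a = b).card) :
    ∃ e : α ≃ α', ∀ a, g (e a) = f a := by
  have : ∀ b, Nonempty ({a // f a = b} ≃ {a // g a = b}) := fun b =>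
    ⟨Fintype.equivOfCardEq (by rw [Fintype.card_subtype, Fintype.card_subtype, h])⟩
  exact ⟨Equiv.ofFiberEquiv fun b => (this b).some, fun a => Equiv.ofFiberEquiv_map _ a⟩

theorem nested_of_card {Ω : Type} [DecidableEq Ω] {A B : Finset Ω}
    (h : min A.card B.card ≤ (A ∩ B).card) :
    A ⊆ B ∨ B ⊆ A := by
  rcases le_total A.card B.card with a | a
  · rw [min_eq_left a] at h
    exact Or.inl (inter_eq_left.1 (eq_of_subset_of_card_le inter_subset_left h))
  · rw [min_eq_right a] at h
    exact Or.inr (inter_eq_right.1 (eq_of_subset_of_card_le inter_subset_right h))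

theorem card_inter_le_min {Ω : Type} [DecidableEq Ω] (A B : Finset Ω) :
    (A ∩ B).card ≤ min A.card B.card :=
  le_min (card_le_card inter_subset_left) (card_le_card inter_subset_right)

/-- A nested family consists of initial segments of a suitable order. -/
theorem chain {ι : Type} [Fintype ι] {s : ℕ} (N : ι → Finset (Fin s))
    (h : ∀ i j, N i ⊆ N j ∨ N j ⊆ N i) :
    ∃ σ : Equiv.Perm (Fin s), ∀ i a, σ a ∈ N i ↔ (a : ℕ) < (N i).card := by
  let f : Fin s → ℕ := fun a => (univ.filter fun i => a ∉ N i).card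
  have hf : ∀ i a b, f a ≤ f b → b ∈ N i → a ∈ N i := by
    intro i a b hab hb
    by_contra ha
    refine absurd hab (not_le.2 (card_lt_card ⟨fun j hj => ?_, fun hc => ?_⟩))
    · simp only [mem_filter, mem_univ, true_and] at hj ⊢
      rcases h i j with c | c
      · exact absurd (c hb) hj
      · exact fun hc => ha (c hc)
    · have := hc (mem_filter.2 ⟨mem_univ i, ha⟩)
      exact (mem_filter.1 this).2 hb
  refine ⟨Tuple.sort f, fun i a => ?_⟩
  have hm := Tuple.monotone_sort f
  let T := univ.filter fun b => Tuple.sort f b ∈ N i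
  have hT : T.card = (N i).card :=
    card_bij (fun b _ => Tuple.sort f b) (fun b hb => (mem_filter.1 hb).2)
      (fun b _ b' _ e => (Tuple.sort f).injective e)
      (fun b hb => ⟨(Tuple.sort f).symm b, by simpa [T] using hb, by simp⟩)
  rw [← hT]
  constructor
  · intro ha
    have : Iic a ⊆ T := fun b hb =>
      mem_filter.2 ⟨mem_univ _, hf i _ _ (hm (mem_Iic.1 hb)) ha⟩
    have := card_le_card this
    rw [Fin.card_Iic] at this
    omega
  · intro ha
    by_contra hc
    have : T ⊆ Iio a := fun b hb => mem_Iio.2 (by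
      by_contra hab
      exact hc (hf i _ _ (hm (not_lt.1 hab)) (mem_filter.1 hb).2))
    have := card_le_card this
    rw [Fin.card_Iio] at this
    omega

theorem card_lt_fin (s l : ℕ) (h : l ≤ s) : (univ.filter fun a : Fin s => (a : ℕ) < l).card = l := by
  rw [Fin.card_filter_val_lt]
  omega

end Pool.Agent.MP_f8284b_co.H58

end MrgPart4

-- ======== part 5: formerly Pool.Agent.MP_f8284b_co.h58.Model
section MrgPart5

set_option autoImplicit false

namespace Pool.Agent.MP_f8284b_co.H58

open Finset SimpleGraph Classical Sum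

section tools
variable {κ μ : Type} [Fintype κ] [Fintype μ] {Γ Γ' : SimpleGraph (κ ⊕ μ)} {m W D : ℕ}

/-- The deficit of a set. -/
noncomputable def lam (Γ : SimpleGraph (κ ⊕ μ)) (m W : ℕ) (U : Finset μ) (E : Finset κ) : ℕ :=
  2 * m + 2 * U.card * W + 2 - ee Γ (Eᶜ.disjSum U)

omit [Fintype μ] in
theorem Str.lam_eq (h : Str Γ m W) (U : Finset μ) (hU : U.card ≤ 2) (E : Finset κ) :
    lam Γ m W U E + eM Γ U + eK Γ E = 2 * ∑ a ∈ E, (dK Γ a + ∑ u ∈ U, cr Γ a u) + 2 := by
  have h1 := h.master E U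
  have h2 := h.ee_le Eᶜ U _ hU le_rfl
  unfold lam
  omega

omit [Fintype μ] in
theorem Str.lam_ge (h : Str Γ m W) (U : Finset μ) (hU : U.card ≤ 2) (E : Finset κ) (a : κ)
    (ha : a ∈ E) : 2 * dK Γ a ≤ lam Γ m W U E := by
  have h1 := h.lam_eq U hU {a}
  have h2 : ee Γ (Eᶜ.disjSum U) ≤ ee Γ (({a} : Finset κ)ᶜ.disjSum U) :=
    ee_mono _ (disjSum_mono (compl_subset_compl.2 (singleton_subset_iff.2 ha)) Subset.rfl)
  have h3 := eM_le Γ U
  have h4 : U.card * (U.card - 1) ≤ 2 * 1 := Nat.mul_le_mul hU (by omega)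
  simp only [eK, sum_singleton, ad_self] at h1
  unfold lam at h1 ⊢
  omega

/-- The level sums agree. -/
def Lev (Γ Γ' : SimpleGraph (κ ⊕ μ)) (m W D : ℕ) : Prop :=
  ∀ (M : Type) [AddCommMonoid M] (j d : ℕ), j ≤ 2 → d ≤ D → ∀ ψ : ℕ → M,
    ∑ U ∈ powersetCard j (univ : Finset μ), ∑ E ∈ powersetCard d (univ : Finset κ),
      ψ (lam Γ m W U E) =
    ∑ U ∈ powersetCard j (univ : Finset μ), ∑ E ∈ powersetCard d (univ : Finset κ),
      ψ (lam Γ' m W U E)

theorem lev_of (hI : Inv2 Γ Γ') (h : Str Γ m W) (h' : Str Γ' m W) (hs : Sparse Γ m W D)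
    (hN : Num (Fintype.card κ) m W D) : Lev Γ Γ' m W D := by
  intro M _ j d hj hd ψ
  have := level hI h h' hs hN hj hd (fun t => ψ (2 * m + 2 * j * W + 2 - t))
  refine (sum_congr rfl fun U hU => ?_).trans (this.trans (sum_congr rfl fun U hU => ?_)) <;>
    simp only [lam, (mem_powersetCard.1 hU).2]

omit [Fintype μ] in
theorem Str.comap (h : Str Γ m W) (π : Equiv.Perm κ) (σ : Equiv.Perm μ) :
    Str (Γ.comap (π.sumCongr σ)) m W := by
  refine ⟨?_, fun u => ?_⟩
  · rw [← h.hm, eK, eK, ← Equiv.sum_comp π fun a => ∑ b, ad Γ (inl a) (inl b)]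
    exact sum_congr rfl fun a _ => Equiv.sum_comp π fun b => ad Γ (inl (π a)) (inl b)
  · rw [← h.hW (σ u)]
    exact Equiv.sum_comp π fun a => cr Γ a (σ u)

end tools

theorem sum_pc_one {α M : Type} [Fintype α] [AddCommMonoid M] (f : Finset α → M) :
    ∑ E ∈ powersetCard 1 univ, f E = ∑ a, f {a} := by
  rw [powersetCard_one, sum_map]
  rfl

/-- Increasing pairs. -/
def prs (α : Type) [Fintype α] [LinearOrder α] : Finset (α × α) := univ.filter fun p => p.1 < p.2

theorem sum_pc_two {α M : Type} [Fintype α] [LinearOrder α] [AddCommMonoid M]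
    (f : Finset α → M) : ∑ E ∈ powersetCard 2 univ, f E = ∑ p ∈ prs α, f {p.1, p.2} := by
  symm
  refine sum_bij (fun p _ => {p.1, p.2}) ?_ ?_ ?_ fun _ _ => rfl
  · intro p hp
    exact mem_powersetCard.2 ⟨subset_univ _, card_pair (mem_filter.1 hp).2.ne⟩
  · rintro ⟨a, b⟩ hp ⟨c, d⟩ hq e
    have h1 : a < b := (mem_filter.1 hp).2
    have h2 : c < d := (mem_filter.1 hq).2
    rcases Set.pair_eq_pair_iff.1 (by simpa using congrArg (fun s : Finset α => (s : Set α)) e) with
      ⟨rfl, rfl⟩ | ⟨rfl, rfl⟩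
    · rfl
    · exact absurd h1 h2.asymm
  · intro E hE
    obtain ⟨a, b, hab, rfl⟩ := card_eq_two.1 (mem_powersetCard.1 hE).2
    rcases lt_or_gt_of_ne hab with h | h
    · exact ⟨(a, b), mem_filter.2 ⟨mem_univ _, h⟩, rfl⟩
    · exact ⟨(b, a), mem_filter.2 ⟨mem_univ _, h⟩, pair_comm _ _⟩

theorem sum_sq_prs {α M : Type} [Fintype α] [LinearOrder α] [AddCommMonoid M] (f : α → α → M)
    (hf : ∀ a b, f a b = f b a) :
    ∑ a, ∑ b, f a b = ∑ a, f a a + (∑ p ∈ prs α, f p.1 p.2 + ∑ p ∈ prs α, f p.1 p.2) := by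
  have e : ∀ a b, f a b = (if a = b then f a a else 0) + ((if a < b then f a b else 0) +
      if b < a then f b a else 0) := by
    intro a b
    rcases lt_trichotomy a b with h | h | h
    · simp [h, h.ne, h.asymm]
    · simp [h]
    · simp [h, h.ne', h.asymm, hf a b]
  rw [sum_congr rfl fun a _ => sum_congr rfl fun b _ => e a b]
  simp only [sum_add_distrib, prs, sum_filter, ← univ_product_univ, sum_product]
  rw [sum_comm (f := fun a b => if b < a then f b a else 0)]
  simp

theorem sum_inter_sq {ι Ω : Type} [Fintype ι] [Fintype Ω] [DecidableEq Ω] (N : ι → Finset Ω) :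
    ∑ x, ∑ y, (N x ∩ N y).card = ∑ r, (∑ x, if r ∈ N x then 1 else 0) ^ 2 := by
  have : ∀ x y, (N x ∩ N y).card =
      ∑ r, (if r ∈ N x then 1 else 0) * (if r ∈ N y then 1 else 0) := by
    intro x y
    rw [card_eq_sum_ones, ← univ_inter (N x ∩ N y), ← sum_ite_mem]
    refine sum_congr rfl fun r _ => ?_
    by_cases a : r ∈ N x <;> by_cases b : r ∈ N y <;> simp [a, b]
  simp only [this, sq, sum_mul_sum]
  rw [sum_congr rfl fun x _ => sum_comm, sum_comm]

/-- Parameters of the construction. -/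
structure Par where
  /-- number of main vertices -/
  n : ℕ
  /-- range of the first address -/
  R : ℕ
  /-- size of the class of the second address -/
  s6 : ℕ
  /-- number of groups -/
  L : ℕ
  /-- first address -/
  A : Fin n → ℕ
  /-- second address -/
  B : Fin n → ℕ
  /-- group -/
  g : Fin n → ℕ

/-- Degrees of the classes inside the skeleton. -/
def ex : Fin 5 → ℕ := ![0, 2, 3, 6, 7]

namespace Par
variable (P : Par)

/-- Total size of the variable classes. -/
def V : ℕ := 2 * P.R * P.R + 2 * P.R + P.s6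

/-- Sizes of the classes. -/
def sz : Fin 5 → ℕ := ![2000 * P.V, 2 * P.R * P.R, 2 * P.R, P.s6, 18 * P.V + 2]

/-- Edges of the skeleton. -/
def m : ℕ := 2 * (2 * P.R * P.R) + 3 * (2 * P.R) + 6 * P.s6 + 7 * (18 * P.V + 2)

/-- Chain lengths. -/
def len (c : Fin 5) (u : Fin P.n) : ℕ :=
  ![400 * P.V - (2 * P.R * P.A u + 2 * P.A u + 2 * P.B u), 2 * P.R * P.A u, 2 * P.A u,
    2 * P.B u, 0] c

/-- Class vertices. -/
abbrev Kt : Type := Σ c : Fin 5, Fin (P.sz c)

/-- Skeleton vertices. -/
abbrev Ka : Type := Fin 7 ⊕ P.Kt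

/-- All vertices. -/
abbrev Vt : Type := P.Ka ⊕ Fin P.n

/-- Conditions on the parameters. -/
structure OK : Prop where
  hA : ∀ u, P.A u < P.R
  hB : ∀ u, 2 * P.B u ≤ P.s6
  hg : ∀ u, P.g u < P.L
  hL : P.L ≤ P.V
  hV : 1 ≤ P.V
  mono : ∀ u v, u < v → P.g u ≤ P.g v
  hAB : ∀ u v, P.g u < P.g v → P.A u < P.A v ∧ P.B u < P.B v
  inj : ∀ u v, P.A u = P.A v → P.B u = P.B v → u = v

/-- The skeleton has the prescribed edges. -/
structure Sk (Γ : SimpleGraph P.Vt) : Prop where
  pp : ∀ r r', ¬ Γ.Adj (inl (inl r)) (inl (inl r'))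
  kk : ∀ x y, ¬ Γ.Adj (inl (inr x)) (inl (inr y))
  pk : ∀ r x, Γ.Adj (inl (inl r)) (inl (inr x)) ↔ (r : ℕ) < ex x.1

/-- The edges between skeleton and main part are the prescribed ones. -/
structure Cr (Γ : SimpleGraph P.Vt) : Prop where
  pm : ∀ r u, ¬ Γ.Adj (inl (inl r)) (inr u)
  km : ∀ x u, Γ.Adj (inl (inr x)) (inr u) ↔ (x.2 : ℕ) < P.len x.1 u

/-- Groups are cliques. -/
def Cl (Γ : SimpleGraph P.Vt) : Prop := ∀ u v, u ≠ v → P.g u = P.g v → Γ.Adj (inr u) (inr v)

variable {P}

theorem sum_Kt {M : Type} [AddCommMonoid M] (f : P.Kt → M) :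
    ∑ x, f x = ∑ c, ∑ i, f ⟨c, i⟩ := Fintype.sum_sigma f

theorem sum_cls {M : Type} [AddCommMonoid M] (f : Fin 5 → M) :
    ∑ x : P.Kt, f x.1 = ∑ c, P.sz c • f c := by
  rw [sum_Kt]
  exact sum_congr rfl fun c _ => by simp

theorem sz0 : P.sz 0 = 2000 * P.V := rfl
theorem sz1 : P.sz 1 = 2 * P.R * P.R := rfl
theorem sz2 : P.sz 2 = 2 * P.R := rfl
theorem sz3 : P.sz 3 = P.s6 := rfl
theorem sz4 : P.sz 4 = 18 * P.V + 2 := rfl
theorem ex0 : ex 0 = 0 := rfl
theorem ex1 : ex 1 = 2 := rfl
theorem ex2 : ex 2 = 3 := rfl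
theorem ex3 : ex 3 = 6 := rfl
theorem ex4 : ex 4 = 7 := rfl

theorem card_Ka : Fintype.card P.Ka = 2019 * P.V + 9 := by
  rw [Fintype.card_sum, Fintype.card_fin, Fintype.card_sigma]
  simp only [Fintype.card_fin]
  rw [Fin.sum_univ_five, sz0, sz1, sz2, sz3, sz4]
  unfold V
  omega

theorem ex_le (c : Fin 5) : ex c ≤ 7 := by
  fin_cases c <;> simp [ex]

theorem Sk.dK_k {Γ : SimpleGraph P.Vt} (h : P.Sk Γ) (x : P.Kt) : dK Γ (inr x) = ex x.1 := by
  simp only [dK, Fintype.sum_sum_type, ad, h.kk, Γ.adj_comm (inl (inr x)), h.pk]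
  rw [← card_filter, card_lt_fin _ _ (ex_le _)]
  simp

theorem Sk.dK_p {Γ : SimpleGraph P.Vt} (h : P.Sk Γ) (r : Fin 7) :
    dK Γ (inl r) = ∑ c, if (r : ℕ) < ex c then P.sz c else 0 := by
  simp only [dK, Fintype.sum_sum_type, ad, h.pp, h.pk]
  rw [sum_cls fun c => if (r : ℕ) < ex c then 1 else 0]
  simp

theorem Sk.dK_p_bd {Γ : SimpleGraph P.Vt} (h : P.Sk Γ) (r : Fin 7) :
    18 * P.V + 2 ≤ dK Γ (inl r) ∧ dK Γ (inl r) ≤ 19 * P.V + 2 := by
  rw [h.dK_p, Fin.sum_univ_five]
  have := r.2
  simp only [sz0, sz1, sz2, sz3, sz4, ex0, ex1, ex2, ex3, ex4, V]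
  split_ifs <;> omega

theorem Sk.dK_eq {Γ Γ' : SimpleGraph P.Vt} (h : P.Sk Γ) (h' : P.Sk Γ') (a : P.Ka) :
    dK Γ a = dK Γ' a := by
  rcases a with r | x
  · rw [h.dK_p, h'.dK_p]
  · rw [h.dK_k, h'.dK_k]

theorem OK.len_le (h : P.OK) (c : Fin 5) (u : Fin P.n) : P.len c u ≤ P.sz c := by
  have h1 := h.hA u
  have h2 := h.hB u
  have h3 : 2 * P.R * P.A u ≤ 2 * P.R * P.R := Nat.mul_le_mul_left _ h1.le
  fin_cases c <;> simp [len, sz] <;> omega

theorem OK.sum_len (h : P.OK) (u : Fin P.n) : ∑ c, P.len c u = 400 * P.V := by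
  have h1 := h.hA u
  have h2 := h.hB u
  have h3 : 2 * P.R * P.A u ≤ 2 * P.R * P.R := Nat.mul_le_mul_left _ h1.le
  rw [Fin.sum_univ_five]
  simp only [len, V]
  simp
  omega

theorem m_le : P.m ≤ 132 * P.V + 14 := by
  simp only [m, V]
  omega

theorem OK.num (h : P.OK) : Num (Fintype.card P.Ka) P.m (400 * P.V) (2 * P.V) := by
  have := h.hV
  have := m_le (P := P)
  rw [card_Ka]
  constructor <;> omega

theorem OK.str (h : P.OK) {Γ : SimpleGraph P.Vt} (h1 : P.Sk Γ) (h2 : P.Cr Γ) :
    Str Γ P.m (400 * P.V) := by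
  refine ⟨?_, fun u => ?_⟩
  · change ∑ a, dK Γ a = _
    simp only [Fintype.sum_sum_type, h1.dK_k, h1.dK_p]
    rw [sum_cls ex]
    simp only [Fin.sum_univ_five, Fin.sum_univ_seven, sz0, sz1, sz2, sz3, sz4, ex0, ex1, ex2, ex3,
      ex4, m]
    simp
    ring
  · simp only [cr, ad, Fintype.sum_sum_type, h2.pm, h2.km, sum_Kt]
    simp only [← card_filter, card_lt_fin _ _ (h.len_le _ u), h.sum_len]
    simp

theorem OK.turan (h : P.OK) {Γ : SimpleGraph P.Vt} (h3 : P.Cl Γ) (U : Finset (Fin P.n)) :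
    80 * U.card ≤ eM Γ U + 1640 * P.L := by
  have e1 : U.card = ∑ b ∈ range P.L, (U.filter fun u => P.g u = b).card :=
    card_eq_sum_card_fiberwise fun u _ => mem_range.2 (h.hg u)
  have e2 : ∑ b ∈ range P.L, eM Γ (U.filter fun u => P.g u = b) ≤ eM Γ U := by
    unfold eM
    rw [← sum_fiberwise_of_maps_to (s := U) (t := range P.L) (g := P.g)
      fun u _ => mem_range.2 (h.hg u)]
    exact sum_le_sum fun b _ => sum_le_sum fun u _ => sum_le_sum_of_subset (filter_subset _ _)
  have e3 : ∀ b, 80 * (U.filter fun u => P.g u = b).card ≤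
      eM Γ (U.filter fun u => P.g u = b) + 1640 := by
    intro b
    set T := U.filter fun u => P.g u = b
    have : T.card * (T.card - 1) ≤ eM Γ T := by
      rw [← smul_eq_mul]
      refine card_nsmul_le_sum _ _ _ fun u hu => ?_
      rw [← card_erase_of_mem hu, card_eq_sum_ones]
      refine le_trans (sum_le_sum fun v hv => ?_) (sum_le_sum_of_subset (erase_subset u T))
      obtain ⟨a, b⟩ := mem_erase.1 hv
      rw [ad, if_pos (h3 u v a.symm ((mem_filter.1 hu).2.trans (mem_filter.1 b).2.symm))]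
    rcases Nat.eq_zero_or_pos T.card with a | a
    · omega
    · obtain ⟨t, ht⟩ : ∃ t, T.card = t + 1 := ⟨T.card - 1, by omega⟩
      rw [ht, Nat.add_sub_cancel] at this
      rw [ht]
      rcases le_total t 39 with c | c
      · obtain ⟨y, hy⟩ := Nat.exists_eq_add_of_le c
        nlinarith
      · obtain ⟨y, rfl⟩ := Nat.exists_eq_add_of_le c
        nlinarith [Nat.le_mul_self y]
  have e4 := sum_le_sum fun b (_ : b ∈ range P.L) => e3 b
  rw [← mul_sum, sum_add_distrib, sum_const, card_range, smul_eq_mul, ← e1] at e4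
  omega

theorem OK.sparse (h : P.OK) {Γ : SimpleGraph P.Vt} (h1 : P.Sk Γ) (h2 : P.Cr Γ) (h3 : P.Cl Γ) :
    Sparse Γ P.m (400 * P.V) (2 * P.V) := by
  intro E U j hj hU hE
  have a1 := (h.str h1 h2).ee_ge E U
  have a2 := h.turan h3 U
  have a3 := h.hV
  have a4 := m_le (P := P)
  have a5 := h.hL
  have a6 : U.card * E.card ≤ U.card * (2 * P.V + U.card) := Nat.mul_le_mul_left _ hE
  by_cases c : U.card ≤ 3
  · obtain ⟨k, hk⟩ : ∃ k, U.card = k := ⟨_, rfl⟩
    rw [hk] at a1 c hU hE
    interval_cases k <;> interval_cases j <;> omega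
  · by_cases c' : U.card ≤ 50 * P.V
    · have a7 : U.card * E.card ≤ U.card * (52 * P.V) := Nat.mul_le_mul_left _ (by omega)
      have a8 : 4 * P.V ≤ U.card * P.V := Nat.mul_le_mul_right _ (by omega)
      have a9 : j * P.V ≤ 2 * P.V := Nat.mul_le_mul_right _ hj
      nlinarith
    · rw [ee_disjSum]
      have a9 : j * P.V ≤ 2 * P.V := Nat.mul_le_mul_right _ hj
      have : 2 * j * (400 * P.V) = 800 * (j * P.V) := by ring
      omega

end Par

end Pool.Agent.MP_f8284b_co.H58

end MrgPart5

-- marker of a merged file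
example : 731051 + 96041 = 731051 + 96041 := rfl
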