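import Mathlib.Analysis.SpecialFunctions.Pow.Real
import Mathlib.Algebra.Ring.IsFormallyReal
import Pool.Agent.MP_f8284b_co.h58.Model

-- ======== part 0: formerly Pool.Agent.MP_f8284b_co.h58.Skel
section MrgPart0

set_option autoImplicit false

namespace Pool.Agent.MP_f8284b_co.H58

open Finset SimpleGraph Classical Sum

section tools
variable {κ μ : Type} [Fintype κ] [Fintype μ] {Γ Γ' : SimpleGraph (κ ⊕ μ)} {m W D : ℕ}

omit [Fintype μ] in
theorem dK_comap (π : Equiv.Perm κ) (σ : Equiv.Perm μ) (a : κ) :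
    dK (Γ.comap (π.sumCongr σ)) a = dK Γ (π a) :=
  Equiv.sum_comp π fun b => ad Γ (inl (π a)) (inl b)

theorem deg_equiv (hL : Lev Γ Γ' m W D) (h : Str Γ m W) (h' : Str Γ' m W) (hD : 1 ≤ D) :
    ∃ π : Equiv.Perm κ, ∀ a, dK Γ' (π a) = dK Γ a := by
  refine exists_equiv (dK Γ) (dK Γ') fun b => ?_
  have := hL ℕ 0 1 (by omega) hD fun t => if t = 2 * b + 2 then 1 else 0
  simp only [powersetCard_zero, sum_singleton, sum_pc_one] at this
  have key : ∀ G : SimpleGraph (κ ⊕ μ), Str G m W → ∀ a,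
      (lam G m W ∅ {a} = 2 * b + 2 ↔ dK G a = b) := by
    intro G hG a
    have := hG.lam_eq ∅ (by simp) {a}
    simp only [eM, eK, sum_empty, sum_singleton, ad_self] at this
    omega
  simpa only [key Γ h, key Γ' h', ← card_filter] using this

theorem edge_sum (hL : Lev Γ Γ' m W D) (h : Str Γ m W) (h' : Str Γ' m W) (hD : 2 ≤ D)
    (hd : ∀ a, dK Γ' a = dK Γ a) (a b : κ) (hab : Γ'.Adj (inl a) (inl b)) :
    ∃ a' b', Γ.Adj (inl a') (inl b') ∧ dK Γ a' + dK Γ b' = dK Γ a + dK Γ b := by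
  obtain ⟨_⟩ : Nonempty (LinearOrder κ) :=
    ⟨LinearOrder.lift' (Fintype.equivFin κ) (Fintype.equivFin κ).injective⟩
  obtain ⟨x, hx⟩ : ∃ x, x = dK Γ a + dK Γ b := ⟨_, rfl⟩
  have := hL ℕ 0 2 (by omega) hD fun t => if t ≤ 2 * x then 1 else 0
  simp only [powersetCard_zero, sum_singleton, sum_pc_two] at this
  have key : ∀ G : SimpleGraph (κ ⊕ μ), Str G m W → (∀ a, dK G a = dK Γ a) →
      ∑ p ∈ prs κ, (if lam G m W ∅ {p.1, p.2} ≤ 2 * x then 1 else 0) =
        ∑ p ∈ prs κ, (if dK Γ p.1 + dK Γ p.2 < x then 1 else 0) +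
        ∑ p ∈ prs κ, if G.Adj (inl p.1) (inl p.2) ∧ dK Γ p.1 + dK Γ p.2 = x then 1 else 0 := by
    intro G hG hd
    rw [← sum_add_distrib]
    refine sum_congr rfl fun p hp => ?_
    have hne : p.1 ≠ p.2 := (mem_filter.1 hp).2.ne
    have := hG.lam_eq ∅ (by simp) {p.1, p.2}
    simp only [eM, eK, sum_empty, sum_pair hne, ad_self, hd, ad_comm G (inl p.2)] at this
    by_cases c : G.Adj (inl p.1) (inl p.2) <;> simp only [ad, c, if_true, if_false] at this <;>
      simp only [c, true_and, false_and, if_false] <;> split_ifs <;> omega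
  rw [key Γ h fun _ => rfl, key Γ' h' hd, Nat.add_left_cancel_iff, ← card_filter,
    ← card_filter] at this
  have hne : a ≠ b := fun e => hab.ne (by rw [e])
  have : ((prs κ).filter fun p => Γ.Adj (inl p.1) (inl p.2) ∧ dK Γ p.1 + dK Γ p.2 = x).Nonempty := by
    rw [← card_pos, this, card_pos]
    rcases lt_or_gt_of_ne hne with c | c
    · exact ⟨(a, b), mem_filter.2 ⟨mem_filter.2 ⟨mem_univ _, c⟩, hab, hx.symm⟩⟩
    · exact ⟨(b, a), mem_filter.2 ⟨mem_filter.2 ⟨mem_univ _, c⟩, hab.symm,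
        (add_comm _ _).trans hx.symm⟩⟩
  obtain ⟨p, hp⟩ := this
  exact ⟨p.1, p.2, (mem_filter.1 hp).2.1, (mem_filter.1 hp).2.2.trans hx⟩

end tools

theorem nested_of_sum {γ ι : Type} [Fintype γ] [Fintype ι] {Ω : γ → Type}
    [∀ c, DecidableEq (Ω c)] (N N' : ∀ c, ι → Finset (Ω c)) (hc : ∀ c x, (N' c x).card = (N c x).card)
    (hn : ∀ c x y, N c x ⊆ N c y ∨ N c y ⊆ N c x)
    (h : ∑ c, ∑ x, ∑ y, (N' c x ∩ N' c y).card = ∑ c, ∑ x, ∑ y, (N c x ∩ N c y).card) :
    ∀ c x y, N' c x ⊆ N' c y ∨ N' c y ⊆ N' c x := by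
  have e1 : ∀ c x y, (N c x ∩ N c y).card = min (N' c x).card (N' c y).card := by
    intro c x y
    rw [hc, hc]
    rcases hn c x y with a | a
    · rw [inter_eq_left.2 a, min_eq_left (card_le_card a)]
    · rw [inter_eq_right.2 a, min_eq_right (card_le_card a)]
  simp only [e1] at h
  intro c x y
  have h1 := (sum_eq_sum_iff_of_le fun c _ => sum_le_sum fun x _ => sum_le_sum fun y _ =>
    card_inter_le_min (N' c x) (N' c y)).1 h c (mem_univ _)
  have h2 := (sum_eq_sum_iff_of_le fun x _ => sum_le_sum fun y _ =>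
    card_inter_le_min (N' c x) (N' c y)).1 h1 x (mem_univ _)
  exact nested_of_card ((sum_eq_sum_iff_of_le fun y _ =>
    card_inter_le_min (N' c x) (N' c y)).1 h2 y (mem_univ _)).ge

namespace Par
variable {P : Par} {Γ Γ' : SimpleGraph P.Vt}

theorem sk_of_deg (hP : P.OK) (hL : Lev Γ Γ' P.m (400 * P.V) (2 * P.V)) (hS : P.Sk Γ)
    (h : Str Γ P.m (400 * P.V)) (h' : Str Γ' P.m (400 * P.V)) (hd : ∀ a, dK Γ' a = dK Γ a) :
    ∃ π : Equiv.Perm P.Ka, P.Sk (Γ'.comap (π.sumCongr (Equiv.refl _))) := by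
  have hV := hP.hV
  have hE : ∀ a b, Γ'.Adj (inl a) (inl b) →
      18 * P.V + 2 ≤ dK Γ a + dK Γ b ∧ dK Γ a + dK Γ b ≤ 19 * P.V + 9 := by
    intro a b hab
    obtain ⟨a', b', h1, h2⟩ := edge_sum hL h h' (by omega) hd a b hab
    rw [← h2]
    rcases a' with r | x <;> rcases b' with r' | y
    · exact absurd h1 (hS.pp _ _)
    · have := hS.dK_p_bd r
      have := ex_le y.1
      rw [hS.dK_k]
      omega
    · have := hS.dK_p_bd r'
      have := ex_le x.1
      rw [hS.dK_k]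
      omega
    · exact absurd h1 (hS.kk _ _)
  have pp : ∀ r r', ¬ Γ'.Adj (inl (inl r)) (inl (inl r')) := fun r r' c => by
    have := hE _ _ c
    have := hS.dK_p_bd r
    have := hS.dK_p_bd r'
    omega
  have kk : ∀ x y, ¬ Γ'.Adj (inl (inr x)) (inl (inr y)) := fun x y c => by
    have := hE _ _ c
    have := ex_le x.1
    have := ex_le y.1
    rw [hS.dK_k, hS.dK_k] at *
    omega
  let N : SimpleGraph P.Vt → P.Kt → Finset (Fin 7) := fun G x =>
    univ.filter fun r => G.Adj (inl (inl r)) (inl (inr x))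
  have c1 : ∀ G : SimpleGraph P.Vt, (∀ x y, ¬ G.Adj (inl (inr x)) (inl (inr y))) → ∀ x,
      (N G x).card = dK G (inr x) := by
    intro G hG x
    simp only [dK, Fintype.sum_sum_type, ad, hG, G.adj_comm (inl (inr x)), N, card_filter]
    simp
  have c2 : ∀ G : SimpleGraph P.Vt, (∀ x y, ¬ G.Adj (inl (inl x)) (inl (inl y))) →
      ∑ x, ∑ y, (N G x ∩ N G y).card = ∑ r, dK G (inl r) ^ 2 := by
    intro G hG
    rw [sum_inter_sq]
    refine sum_congr rfl fun r _ => ?_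
    simp only [dK, Fintype.sum_sum_type, ad, hG, N, mem_filter, mem_univ, true_and]
    simp
  have c3 := nested_of_sum (γ := Unit) (Ω := fun _ => Fin 7) (fun _ => N Γ) (fun _ => N Γ')
    (fun _ x => by rw [c1 Γ' kk, c1 Γ hS.kk, hd])
    (fun _ x y => by
      rcases le_total (ex x.1) (ex y.1) with a | a
      · refine Or.inl fun r hr => ?_
        simp only [N, mem_filter, mem_univ, true_and, hS.pk] at hr ⊢
        omega
      · refine Or.inr fun r hr => ?_
        simp only [N, mem_filter, mem_univ, true_and, hS.pk] at hr ⊢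
        omega)
    (by
      simp only [c2 Γ' pp, c2 Γ hS.pp, hd]) ()
  obtain ⟨ρ, hρ⟩ := chain (N Γ') c3
  refine ⟨ρ.sumCongr (Equiv.refl _), fun r r' => pp _ _, fun x y => kk _ _, fun r x => ?_⟩
  have := hρ x r
  rw [c1 Γ' kk, hd, hS.dK_k] at this
  simpa [N] using this

end Par

end Pool.Agent.MP_f8284b_co.H58

end MrgPart0

-- ======== part 1: formerly Pool.Agent.MP_f8284b_co.h58.Poly
section MrgPart1

set_option autoImplicit false

namespace Pool.Agent.MP_f8284b_co.H58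

open Finset SimpleGraph Classical Sum Polynomial

theorem ee_even {V : Type} (G : SimpleGraph V) (S : Finset V) : ee G S % 2 = 0 := by
  induction S using Finset.induction_on with
  | empty => simp [ee]
  | insert x S hx ih =>
    rw [ee_insert G hx]
    omega

section tools
variable {κ μ : Type} [Fintype κ] [Fintype μ] {Γ Γ' : SimpleGraph (κ ⊕ μ)} {m W D : ℕ}

theorem first_moment (hL : Lev Γ Γ' m W D) (h : Str Γ m W) (h' : Str Γ' m W) (hD : 1 ≤ D)
    (hd : ∀ a, dK Γ' a = dK Γ a) (y : ℕ) (hy : ∀ a u, dK Γ a = y → cr Γ a u = 0) (a : κ) (u : μ)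
    (ha : dK Γ a = y) : cr Γ' a u = 0 := by
  have := hL ℕ 1 1 (by omega) hD fun t => if 2 * y + 2 < t then 1 else 0
  simp only [sum_pc_one] at this
  have key : ∀ G : SimpleGraph (κ ⊕ μ), Str G m W → (∀ a, dK G a = dK Γ a) →
      ∑ u, ∑ a, (if 2 * y + 2 < lam G m W {u} {a} then 1 else 0) =
        ∑ _u : μ, ∑ a, (if y < dK Γ a then 1 else 0) +
          ∑ u, ∑ a, if dK Γ a = y then cr G a u else 0 := by
    intro G hG hd
    simp only [← sum_add_distrib]
    refine sum_congr rfl fun u _ => sum_congr rfl fun a _ => ?_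
    have h1 := hG.lam_eq {u} (by simp) {a}
    have h2 : cr G a u ≤ 1 := ad_le _ _ _
    simp only [eM, eK, sum_singleton, ad_self, hd] at h1
    split_ifs <;> omega
  rw [key Γ h fun _ => rfl, key Γ' h' hd, Nat.add_left_cancel_iff,
    sum_eq_zero fun u _ => sum_eq_zero fun a _ => by
      split_ifs with c
      · exact hy a u c
      · rfl] at this
  have := sum_eq_zero_iff.1 (sum_eq_zero_iff.1 this.symm u (mem_univ _)) a (mem_univ _)
  rwa [if_pos ha] at this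

/-- Common neighbours in the skeleton. -/
noncomputable def gam (Γ : SimpleGraph (κ ⊕ μ)) (u v : μ) : ℕ := ∑ a, cr Γ a u * cr Γ a v

theorem cr_sq {κ μ : Type} (Γ : SimpleGraph (κ ⊕ μ)) (a : κ) (u : μ) :
    cr Γ a u * cr Γ a u = cr Γ a u := by
  unfold cr ad
  split_ifs <;> rfl

theorem gam_sum (hL : Lev Γ Γ' m W D) (h : Str Γ m W) (h' : Str Γ' m W) (hD : 1 ≤ D)
    (hd : ∀ a, dK Γ' a = dK Γ a)
    (hm : ∀ u, ∑ a, dK Γ a * cr Γ' a u = ∑ a, dK Γ a * cr Γ a u) :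
    ∑ u, ∑ v, gam Γ' u v = ∑ u, ∑ v, gam Γ u v := by
  obtain ⟨_⟩ : Nonempty (LinearOrder μ) :=
    ⟨LinearOrder.lift' (Fintype.equivFin μ) (Fintype.equivFin μ).injective⟩
  have e0 := hL ℤ 2 0 le_rfl (by omega) fun t => t
  have e1 := hL ℤ 2 1 le_rfl hD fun t => (t : ℤ) ^ 2
  simp only [sum_pc_one, sum_pc_two, powersetCard_zero, sum_singleton] at e0 e1
  have key : ∀ G : SimpleGraph (κ ⊕ μ), Str G m W → (∀ a, dK G a = dK Γ a) →
      (∀ u, ∑ a, dK Γ a * cr G a u = ∑ a, dK Γ a * cr Γ a u) → ∀ p ∈ prs μ,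
      ∑ a, (lam G m W {p.1, p.2} {a} : ℤ) ^ 2 =
        (4 * ∑ a, (dK Γ a : ℤ) ^ 2 + 8 * W +
          8 * (∑ a, dK Γ a * cr Γ a p.1 + ∑ a, dK Γ a * cr Γ a p.2 : ℕ)) +
        (4 * ∑ a, (dK Γ a : ℤ) + 8 * W + 2 * Fintype.card κ) * lam G m W {p.1, p.2} ∅ +
        8 * gam G p.1 p.2 := by
    intro G hG hd hm p hp
    have hne : p.1 ≠ p.2 := (mem_filter.1 hp).2.ne
    have a0 := hG.lam_eq {p.1, p.2} (card_pair hne).le ∅
    have a1 := fun a => hG.lam_eq {p.1, p.2} (card_pair hne).le {a}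
    simp only [eM, eK, sum_empty, sum_singleton, sum_pair hne, ad_self, hd,
      ad_comm G (inr p.2)] at a0 a1
    have a2 := ad_le G (inr p.1) (inr p.2)
    obtain ⟨l, hl⟩ : ∃ l, l = lam G m W {p.1, p.2} ∅ := ⟨_, rfl⟩
    have a3 : (l : ℤ) ^ 2 = 2 * l := by
      rcases (by omega : l = 0 ∨ l = 2) with c | c <;> simp [c]
    have a4 : ∀ a, (lam G m W {p.1, p.2} {a} : ℤ) ^ 2 =
        4 * (dK Γ a : ℤ) ^ 2 + 4 * (cr G a p.1 : ℤ) + 4 * (cr G a p.2 : ℤ) +
        8 * ((dK Γ a * cr G a p.1 : ℕ) : ℤ) + 8 * ((dK Γ a * cr G a p.2 : ℕ) : ℤ) +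
        (4 * (dK Γ a : ℤ) + 4 * (cr G a p.1 : ℤ) + 4 * (cr G a p.2 : ℤ) + 2) * l +
        8 * ((cr G a p.1 * cr G a p.2 : ℕ) : ℤ) := by
      intro a
      have b1 : (lam G m W {p.1, p.2} {a} : ℤ) = 2 * (dK Γ a + cr G a p.1 + cr G a p.2) + l := by
        have := a1 a
        omega
      have b2 : (cr G a p.1 : ℤ) * cr G a p.1 = cr G a p.1 := by exact_mod_cast cr_sq G a p.1
      have b3 : (cr G a p.2 : ℤ) * cr G a p.2 = cr G a p.2 := by exact_mod_cast cr_sq G a p.2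
      rw [b1]
      push_cast
      linear_combination a3 + 4 * b2 + 4 * b3
    simp only [a4, sum_add_distrib, ← mul_sum, ← sum_mul, ← Nat.cast_sum, hG.hW, hm, ← hl, gam,
      sum_const, card_univ, nsmul_eq_mul]
    push_cast
    ring
  rw [sum_congr rfl (key Γ h (fun _ => rfl) fun _ => rfl), sum_congr rfl (key Γ' h' hd hm)] at e1
  simp only [sum_add_distrib, ← mul_sum, e0] at e1
  have e2 : ∑ p ∈ prs μ, gam Γ' p.1 p.2 = ∑ p ∈ prs μ, gam Γ p.1 p.2 := by
    have : ∑ p ∈ prs μ, (gam Γ' p.1 p.2 : ℤ) = ∑ p ∈ prs μ, (gam Γ p.1 p.2 : ℤ) := by linarith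
    exact_mod_cast this
  have e3 : ∀ G : SimpleGraph (κ ⊕ μ), ∀ u v, gam G u v = gam G v u := fun G u v =>
    sum_congr rfl fun a _ => mul_comm _ _
  rw [sum_sq_prs _ (e3 Γ), sum_sq_prs _ (e3 Γ'), e2]
  simp only [gam, cr_sq, h.hW, h'.hW]

end tools

theorem sq_sum_pc {α R : Type} [Fintype α] [CommRing R] (τ : R) (c : α → ℕ) :
    (∑ a, τ ^ c a) ^ 2 = ∑ a, (τ ^ 2) ^ c a + 2 * ∑ E ∈ powersetCard 2 univ, τ ^ ∑ a ∈ E, c a := by
  obtain ⟨_⟩ : Nonempty (LinearOrder α) :=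
    ⟨LinearOrder.lift' (Fintype.equivFin α) (Fintype.equivFin α).injective⟩
  rw [sq, sum_mul_sum, sum_sq_prs _ fun a b => mul_comm _ _, sum_pc_two, two_mul]
  congr 1
  · exact sum_congr rfl fun a _ => by ring
  · have : ∀ p ∈ prs α, τ ^ c p.1 * τ ^ c p.2 = τ ^ ∑ a ∈ {p.1, p.2}, c a := fun p hp => by
      rw [sum_pair (mem_filter.1 hp).2.ne, pow_add]
    rw [sum_congr rfl this]

/-- A function given by nine values. -/
def v9 (a0 a1 a2 a3 a4 a5 a6 a7 a8 : ℕ) : ℕ → ℕ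
  | 0 => a0
  | 1 => a1
  | 2 => a2
  | 3 => a3
  | 4 => a4
  | 5 => a5
  | 6 => a6
  | 7 => a7
  | 8 => a8
  | _ => 0

theorem ps_v9 {R : Type} [CommRing R] (τ : R) (a0 a1 a2 a3 a4 a5 a6 a7 a8 : ℕ) :
    ps τ (v9 a0 a1 a2 a3 a4 a5 a6 a7 a8) = xk τ 0 ^ a0 * xk τ 1 ^ a1 * xk τ 2 ^ a2 * xk τ 3 ^ a3 *
      xk τ 4 ^ a4 * xk τ 5 ^ a5 * xk τ 6 ^ a6 * xk τ 7 ^ a7 * xk τ 8 ^ a8 := by
  simp only [ps, prod_range_succ, prod_range_zero, one_mul]
  rfl

theorem sum_v9 (a0 a1 a2 a3 a4 a5 a6 a7 a8 : ℕ) :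
    ∑ k ∈ range 9, v9 a0 a1 a2 a3 a4 a5 a6 a7 a8 k = a0 + a1 + a2 + a3 + a4 + a5 + a6 + a7 + a8 := by
  simp only [sum_range_succ, sum_range_zero, zero_add]
  rfl

theorem prod_seg {M : Type} [CommMonoid M] (f : ℕ → M) (s a b : ℕ) (ha : a ≤ s) (hb : b ≤ s) :
    ∏ i : Fin s, f ((if (i : ℕ) < a then 1 else 0) + if (i : ℕ) < b then 1 else 0) =
      f 0 ^ (s - max a b) * f 1 ^ (max a b - min a b) * f 2 ^ min a b := by
  rw [Fin.prod_univ_eq_prod_range fun i => f ((if i < a then 1 else 0) + if i < b then 1 else 0),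
    ← prod_range_mul_prod_Ico _ (show max a b ≤ s by omega),
    ← prod_range_mul_prod_Ico _ (show min a b ≤ max a b by omega),
    prod_congr rfl (g := fun _ => f 2) fun i hi => by
      rw [mem_range] at hi
      rw [if_pos (by omega), if_pos (by omega)],
    prod_congr (s₁ := Ico (min a b) (max a b)) rfl (g := fun _ => f 1) fun i hi => by
      rw [mem_Ico] at hi
      split_ifs <;> first | rfl | omega,
    prod_congr (s₁ := Ico (max a b) s) rfl (g := fun _ => f 0) fun i hi => by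
      rw [mem_Ico] at hi
      rw [if_neg (by omega), if_neg (by omega)]]
  simp only [prod_const, card_range, Nat.card_Ico]
  ac_rfl

namespace Par
variable {P : Par} {Γ Γ' : SimpleGraph P.Vt}

/-- Edges at a class vertex. -/
noncomputable def cc (G : SimpleGraph P.Vt) (U : Finset (Fin P.n)) (x : P.Kt) : ℕ :=
  ex x.1 + ∑ u ∈ U, cr G (inr x) u

theorem level_poly {R : Type} [CommRing R] (τ : R) (hL : Lev Γ Γ' P.m (400 * P.V) (2 * P.V))
    (hS : P.Sk Γ) (hS' : P.Sk Γ') (h : Str Γ P.m (400 * P.V)) (h' : Str Γ' P.m (400 * P.V))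
    {j d : ℕ} (hj : j ≤ 2) (hd : d ≤ 2 * P.V) :
    ∑ U ∈ powersetCard j univ, τ ^ (1 - eM Γ U / 2) *
      ∑ E ∈ powersetCard d univ, τ ^ ∑ x ∈ E, cc Γ U x =
    ∑ U ∈ powersetCard j univ, τ ^ (1 - eM Γ' U / 2) *
      ∑ E ∈ powersetCard d univ, τ ^ ∑ x ∈ E, cc Γ' U x := by
  have := hL R j d hj hd fun t => if t < 36 * P.V + 4 then τ ^ (t / 2) else 0
  have key : ∀ G : SimpleGraph P.Vt, P.Sk G → Str G P.m (400 * P.V) →
      ∀ U ∈ powersetCard j (univ : Finset (Fin P.n)),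
      (∑ E ∈ powersetCard d univ, if lam G P.m (400 * P.V) U E < 36 * P.V + 4 then
        τ ^ (lam G P.m (400 * P.V) U E / 2) else 0) =
      τ ^ (1 - eM G U / 2) * ∑ E ∈ powersetCard d univ, τ ^ ∑ x ∈ E, cc G U x := by
    intro G hS hG U hU
    have hU2 : U.card ≤ 2 := (mem_powersetCard.1 hU).2 ▸ hj
    rw [mul_sum, ← sum_subset (s₁ := (powersetCard d univ).map
      (mapEmbedding (Function.Embedding.inr : P.Kt ↪ P.Ka)).toEmbedding), sum_map]
    · refine sum_congr rfl fun E hE => ?_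
      have a1 := hG.lam_eq U hU2 (E.map Function.Embedding.inr)
      have a2 : eK G (E.map Function.Embedding.inr) = 0 := by
        simp [eK, ad, hS.kk]
      have a3 : ∑ x ∈ E, cc G U x ≤ E.card * 9 := by
        rw [← smul_eq_mul]
        refine sum_le_card_nsmul _ _ _ fun x _ => ?_
        have b1 := ex_le x.1
        have b2 := sum_le_card_nsmul U (fun u => cr G (inr x) u) 1 fun u _ => ad_le _ _ _
        rw [smul_eq_mul] at b2
        unfold cc
        omega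
      have a4 : eM G U % 2 = 0 := ee_even (G.comap inr) U
      have a5 := eM_le G U
      have a6 : U.card * (U.card - 1) ≤ 2 * 1 := Nat.mul_le_mul hU2 (by omega)
      rw [(mem_powersetCard.1 hE).2] at a3
      rw [sum_map] at a1
      simp only [Function.Embedding.inr_apply, hS.dK_k] at a1
      change _ = 2 * ∑ x ∈ E, cc G U x + 2 at a1
      change (if lam G P.m (400 * P.V) U (E.map Function.Embedding.inr) < _ then
        τ ^ (lam G P.m (400 * P.V) U (E.map Function.Embedding.inr) / 2) else 0) = _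
      rw [if_pos (by omega), ← pow_add]
      congr 1
      omega
    · intro E hE
      obtain ⟨E', hE', rfl⟩ := mem_map.1 hE
      simpa using hE'
    · intro E hE hne
      have hl : E.toLeft ≠ ∅ := fun hl => hne (mem_map.2 ⟨E.toRight, by
        have := card_toLeft_add_card_toRight (u := E)
        rw [hl, (mem_powersetCard.1 hE).2] at this
        simpa using this, by
        change E.toRight.map Function.Embedding.inr = E
        rw [← empty_disjSum, ← hl, toLeft_disjSum_toRight]⟩)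
      obtain ⟨r, hr⟩ := nonempty_iff_ne_empty.2 hl
      have a1 := hG.lam_ge U hU2 E _ (mem_toLeft.1 hr)
      have a2 := hS.dK_p_bd r
      exact if_neg (by omega)
  exact (sum_congr rfl (key Γ hS h)).symm.trans (this.trans (sum_congr rfl (key Γ' hS' h')))

/-- The polynomial of a set of main vertices. -/
noncomputable def ph {R : Type} [CommRing R] (τ : R) (G : SimpleGraph P.Vt)
    (U : Finset (Fin P.n)) : R[X] := ∏ x, xk τ (cc G U x)

theorem level_exact {R : Type} [CommRing R] (τ : R) (hL : Lev Γ Γ' P.m (400 * P.V) (2 * P.V))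
    (hS : P.Sk Γ) (hS' : P.Sk Γ') (h : Str Γ P.m (400 * P.V)) (h' : Str Γ' P.m (400 * P.V))
    {j : ℕ} (hj : j ≤ 2) (b : ℕ → ℕ) (κ κ' : Finset (Fin P.n) → ℕ → ℕ)
    (hκ : ∀ U ∈ powersetCard j univ, ph τ Γ U = ps τ b * ps τ (κ U) ∧
      ∑ k ∈ range 9, κ U k ≤ 2 * P.V)
    (hκ' : ∀ U ∈ powersetCard j univ, ph τ Γ' U = ps τ b * ps τ (κ' U) ∧
      ∑ k ∈ range 9, κ' U k ≤ 2 * P.V) :
    ∑ U ∈ powersetCard j univ, C (τ ^ (1 - eM Γ U / 2)) * ps τ (κ U) =
    ∑ U ∈ powersetCard j univ, C (τ ^ (1 - eM Γ' U / 2)) * ps τ (κ' U) := by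
  rw [← sub_eq_zero]
  refine trunc_zero (ps τ b) _ (2 * P.V) (ps_coeff_zero _ _) ?_ fun d hd => ?_
  · refine (natDegree_sub_le _ _).trans (max_le ?_ ?_)
    · exact natDegree_sum_le_of_forall_le _ _ fun U hU =>
        (natDegree_C_mul_le _ _).trans ((ps_natDegree _ _).trans (hκ U hU).2)
    · exact natDegree_sum_le_of_forall_le _ _ fun U hU =>
        (natDegree_C_mul_le _ _).trans ((ps_natDegree _ _).trans (hκ' U hU).2)
  · rw [mul_sub, mul_sum, mul_sum, coeff_sub, sub_eq_zero, finsetSum_coeff, finsetSum_coeff]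
    refine (sum_congr rfl fun U hU => ?_).trans ((level_poly τ hL hS hS' h h' hj hd).trans
      (sum_congr rfl fun U hU => ?_))
    · rw [mul_left_comm, ← (hκ U hU).1, coeff_C_mul, ph, coeff_prod_xk]
    · rw [mul_left_comm, ← (hκ' U hU).1, coeff_C_mul, ph, coeff_prod_xk]

end Par

end Pool.Agent.MP_f8284b_co.H58

end MrgPart1

-- ======== part 2: formerly Pool.Agent.MP_f8284b_co.h58.Addr
section MrgPart2

set_option autoImplicit false

namespace Pool.Agent.MP_f8284b_co.H58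

open Finset SimpleGraph Classical Sum Polynomial

namespace Par
variable {P : Par} {Γ Γ' : SimpleGraph P.Vt}

/-- Neighbours of a main vertex in a class. -/
noncomputable def ell (G : SimpleGraph P.Vt) (c : Fin 5) (u : Fin P.n) : ℕ :=
  ∑ i, cr G (inr ⟨c, i⟩) u

/-- Main vertices see neither the pointers nor the padding class. -/
structure Pm (G : SimpleGraph P.Vt) : Prop where
  pm : ∀ r u, cr G (inl r) u = 0
  pad : ∀ u, ell G 4 u = 0

theorem ell_le (G : SimpleGraph P.Vt) (c : Fin 5) (u : Fin P.n) : ell G c u ≤ P.sz c := by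
  have := sum_le_card_nsmul univ (fun i => cr G (inr ⟨c, i⟩) u) 1 fun i _ => ad_le _ _ _
  simpa [ell] using this

theorem Cr.ell (hP : P.OK) (h : P.Cr Γ) (c : Fin 5) (u : Fin P.n) : ell Γ c u = P.len c u := by
  simp only [Par.ell, cr, ad, h.km]
  rw [← card_filter, card_lt_fin _ _ (hP.len_le _ u)]

theorem Cr.toPm (hP : P.OK) (h : P.Cr Γ) : Pm Γ :=
  ⟨fun r u => if_neg (h.pm r u), fun u => h.ell hP 4 u⟩

theorem Pm.sum (h : Pm Γ) (hs : Str Γ P.m (400 * P.V)) (u : Fin P.n) :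
    ell Γ 0 u + ell Γ 1 u + ell Γ 2 u + ell Γ 3 u = 400 * P.V := by
  have h1 := hs.hW u
  have h2 := h.pad u
  rw [Fintype.sum_sum_type, sum_Kt, Fin.sum_univ_five, sum_eq_zero fun r _ => h.pm r u] at h1
  unfold ell at *
  omega

theorem pm_of (hL : Lev Γ Γ' P.m (400 * P.V) (2 * P.V)) (hP : P.OK) (hS : P.Sk Γ)
    (hS' : P.Sk Γ') (hC : P.Cr Γ) (h' : Str Γ' P.m (400 * P.V)) : Pm Γ' := by
  have hV := hP.hV
  have h := hP.str hS hC
  have key : ∀ y, 7 ≤ y → ∀ a u, dK Γ a = y → cr Γ a u = 0 := by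
    rintro y hy (r | ⟨c, i⟩) u ha
    · exact if_neg (hC.pm r u)
    · rw [hS.dK_k] at ha
      have : c = 4 := by
        fin_cases c <;> simp [ex] at ha ⊢ <;> omega
      subst this
      exact if_neg fun a => absurd ((hC.km _ _).1 a) (Nat.not_lt_zero _)
  refine ⟨fun r u => ?_, fun u => sum_eq_zero fun i _ => ?_⟩
  · exact first_moment hL h h' (by omega) (hS'.dK_eq hS) _
      (key _ (by have := hS.dK_p_bd r; omega)) _ u rfl
  · exact first_moment hL h h' (by omega) (hS'.dK_eq hS) 7 (key _ le_rfl) _ u (hS.dK_k _)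

theorem ph_one {R : Type} [CommRing R] (τ : R) (G : SimpleGraph P.Vt) (u : Fin P.n) :
    ph τ G {u} = ∏ c, xk τ (ex c) ^ (P.sz c - ell G c u) * xk τ (ex c + 1) ^ ell G c u := by
  rw [ph, Fintype.prod_sigma]
  refine prod_congr rfl fun c _ => ?_
  have e : ∀ i, xk τ (cc G {u} ⟨c, i⟩) =
      if G.Adj (inl (inr ⟨c, i⟩)) (inr u) then xk τ (ex c + 1) else xk τ (ex c) := by
    intro i
    simp only [cc, sum_singleton, cr, ad]
    split_ifs <;> rfl
  have e2 := card_filter_add_card_filter_not (s := univ)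
    fun i : Fin (P.sz c) => G.Adj (inl (inr ⟨c, i⟩)) (inr u)
  have e3 : ell G c u = (univ.filter fun i : Fin (P.sz c) =>
      G.Adj (inl (inr ⟨c, i⟩)) (inr u)).card := (card_filter _ _).symm
  rw [card_univ, Fintype.card_fin] at e2
  simp only [e]
  rw [prod_ite, prod_const, prod_const, mul_comm, e3]
  congr 2
  omega

/-- Exponents of a single main vertex. -/
def k1 (P : Par) (a b c : ℕ) : ℕ → ℕ :=
  v9 (a + b + c) (P.V - (a + b + c)) (2 * P.R * P.R - a) (a + (2 * P.R - b)) b 0 (P.s6 - c) c 0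

theorem ph_one' {R : Type} [CommRing R] (τ : R) (h : Pm Γ) (hs : Str Γ P.m (400 * P.V))
    (u : Fin P.n) :
    ph τ Γ {u} = ps τ (v9 (1600 * P.V) (399 * P.V) 0 0 0 0 0 (18 * P.V + 2) 0) *
      ps τ (P.k1 (ell Γ 1 u) (ell Γ 2 u) (ell Γ 3 u)) ∧
    ∑ k ∈ range 9, P.k1 (ell Γ 1 u) (ell Γ 2 u) (ell Γ 3 u) k ≤ 2 * P.V := by
  have h0 := h.sum hs u
  have h1 := ell_le Γ 1 u
  have h2 := ell_le Γ 2 u
  have h3 := ell_le Γ 3 u
  have hV : P.V = 2 * P.R * P.R + 2 * P.R + P.s6 := rfl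
  rw [sz1] at h1
  rw [sz2] at h2
  rw [sz3] at h3
  refine ⟨?_, by rw [k1, sum_v9]; omega⟩
  rw [ph_one, Fin.prod_univ_five, k1, ps_v9, ps_v9, h.pad, sz0, sz1, sz2, sz3, sz4, ex0, ex1, ex2,
    ex3, ex4, show 2000 * P.V - ell Γ 0 u = 1600 * P.V + (ell Γ 1 u + ell Γ 2 u + ell Γ 3 u) by
      omega, show ell Γ 0 u = 399 * P.V + (P.V - (ell Γ 1 u + ell Γ 2 u + ell Γ 3 u)) by omega]
  simp only [pow_add, pow_zero, Nat.sub_zero, zero_add, Nat.reduceAdd]
  ring

theorem p_one {R : Type} [CommRing R] (τ : R) (G : SimpleGraph P.Vt) (u : Fin P.n) :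
    ∑ x, τ ^ cc G {u} x = ∑ x : P.Kt, τ ^ ex x.1 + (τ - 1) * ∑ c, (ell G c u : R) * τ ^ ex c := by
  rw [sum_Kt, sum_Kt, mul_sum, ← sum_add_distrib]
  refine sum_congr rfl fun c _ => ?_
  rw [ell, Nat.cast_sum, sum_mul, mul_sum, ← sum_add_distrib]
  refine sum_congr rfl fun i _ => ?_
  simp only [cc, sum_singleton, cr, ad]
  split_ifs
  · simp
    ring
  · simp

theorem second_moment (hL : Lev Γ Γ' P.m (400 * P.V) (2 * P.V)) (hP : P.OK) (hS : P.Sk Γ)
    (hS' : P.Sk Γ') (hC : P.Cr Γ) (h' : Str Γ' P.m (400 * P.V)) (u : Fin P.n) :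
    ell Γ' 1 u = P.R * ell Γ' 2 u := by
  have hV := hP.hV
  have h := hP.str hS hC
  have e0 : ∀ G : SimpleGraph P.Vt, ∀ u, eM G {u} = 0 := fun G u => by simp [eM, ad_self]
  have hX : (X : ℤ[X]) ≠ 0 := X_ne_zero
  have hX1 : (X - 1 : ℤ[X]) ≠ 0 := X_sub_C_ne_zero 1
  have e1 := level_poly (X : ℤ[X]) hL hS hS' h h' (j := 1) (d := 1) (by omega) (by omega)
  have e2 := level_poly (X ^ 2 : ℤ[X]) hL hS hS' h h' (j := 1) (d := 1) (by omega) (by omega)
  have e3 := level_poly (X : ℤ[X]) hL hS hS' h h' (j := 1) (d := 2) (by omega) (by omega)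
  simp only [sum_pc_one, e0, sum_singleton, ← mul_sum] at e1 e2 e3
  have f1 := mul_left_cancel₀ (pow_ne_zero _ hX) e1
  have f2 := mul_left_cancel₀ (pow_ne_zero _ (pow_ne_zero _ hX)) e2
  have f3 := mul_left_cancel₀ (pow_ne_zero _ hX) e3
  have f4 : ∑ u, (∑ x, (X : ℤ[X]) ^ cc Γ {u} x) ^ 2 = ∑ u, (∑ x, (X : ℤ[X]) ^ cc Γ' {u} x) ^ 2 := by
    simp only [sq_sum_pc, sum_add_distrib, ← mul_sum, f2, f3]
  simp only [p_one] at f1 f4
  simp only [add_sq, mul_pow, sum_add_distrib, ← mul_sum] at f1 f4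
  have g1 := mul_left_cancel₀ hX1 (add_left_cancel f1)
  rw [g1] at f4
  have g2 := mul_left_cancel₀ (pow_ne_zero _ hX1) (add_left_cancel f4)
  let Λ : ℤ[X] → ℤ[X] → ℤ := fun p q => 2 * p.coeff 4 - 2 * P.R * p.coeff 5 +
    (P.R : ℤ) ^ 2 * (2 * (400 * P.V : ℕ) * q.coeff 3 - p.coeff 3 - p.coeff 5 - p.coeff 9)
  have key : ∀ G : SimpleGraph P.Vt, Pm G → Str G P.m (400 * P.V) →
      Λ (∑ u, (∑ c, (ell G c u : ℤ[X]) * X ^ ex c) ^ 2) (∑ u, ∑ c, (ell G c u : ℤ[X]) * X ^ ex c) =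
        ∑ u, 2 * ((ell G 1 u : ℤ) - P.R * ell G 2 u) ^ 2 := by
    intro G h1 h2
    simp only [Λ, finsetSum_coeff, mul_sum, ← sum_sub_distrib, ← sum_add_distrib]
    refine sum_congr rfl fun u _ => ?_
    have a0 := h1.sum h2 u
    have a1 : (∑ c, (ell G c u : ℤ[X]) * X ^ ex c) ^ 2 =
        C ((ell G 0 u : ℤ) ^ 2) * X ^ 0 + C (2 * ell G 0 u * ell G 1 u : ℤ) * X ^ 2 +
        C (2 * ell G 0 u * ell G 2 u : ℤ) * X ^ 3 + C ((ell G 1 u : ℤ) ^ 2) * X ^ 4 +
        C (2 * ell G 1 u * ell G 2 u : ℤ) * X ^ 5 +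
        C (2 * ell G 0 u * ell G 3 u + (ell G 2 u : ℤ) ^ 2) * X ^ 6 +
        C (2 * ell G 1 u * ell G 3 u : ℤ) * X ^ 8 + C (2 * ell G 2 u * ell G 3 u : ℤ) * X ^ 9 +
        C ((ell G 3 u : ℤ) ^ 2) * X ^ 12 := by
      rw [Fin.sum_univ_five, h1.pad, ex0, ex1, ex2, ex3, ex4]
      simp only [map_mul, map_pow, map_add, map_natCast, map_ofNat]
      ring
    rw [a1, ← a0]
    simp only [Fin.sum_univ_five, ex0, ex1, ex2, ex3, ex4, coeff_add, coeff_C_mul, coeff_X_pow,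
      coeff_natCast_mul]
    norm_num
    ring
  have k1 := key Γ (hC.toPm hP) h
  have k2 := key Γ' (pm_of hL hP hS hS' hC h') h'
  rw [g1, g2, k2, sum_eq_zero (s := univ) (f := fun u => 2 * ((ell Γ 1 u : ℤ) - P.R * ell Γ 2 u) ^ 2)
    fun u _ => by
      rw [hC.ell hP, hC.ell hP]
      change 2 * (((2 * P.R * P.A u : ℕ) : ℤ) - P.R * ((2 * P.A u : ℕ) : ℤ)) ^ 2 = 0
      push_cast
      ring] at k1
  have := (sum_eq_zero_iff_of_nonneg fun u _ => by positivity).1 k1 u (mem_univ _)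
  have : (ell Γ' 1 u : ℤ) - P.R * ell Γ' 2 u = 0 := by simpa using this
  omega

theorem addr (hL : Lev Γ Γ' P.m (400 * P.V) (2 * P.V)) (hP : P.OK) (hS : P.Sk Γ)
    (hS' : P.Sk Γ') (hC : P.Cr Γ) (h' : Str Γ' P.m (400 * P.V)) :
    ∃ σ : Equiv.Perm (Fin P.n), ∀ u c, ell Γ' c (σ u) = P.len c u := by
  have h := hP.str hS hC
  have hm := hC.toPm hP
  have hm' := pm_of hL hP hS hS' hC h'
  have r1 : ∀ u, ell Γ 1 u = P.R * ell Γ 2 u := second_moment (fun _ _ _ _ _ _ _ => rfl) hP hS hS hC h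
  have r2 := second_moment hL hP hS hS' hC h'
  let pick : SimpleGraph P.Vt → Finset (Fin P.n) → ℕ → ℕ := fun G U =>
    P.k1 (∑ u ∈ U, ell G 1 u) (∑ u ∈ U, ell G 2 u) (∑ u ∈ U, ell G 3 u)
  have hp : ∀ G : SimpleGraph P.Vt, Pm G → Str G P.m (400 * P.V) →
      ∀ U ∈ powersetCard 1 univ, ph ta G U =
        ps ta (v9 (1600 * P.V) (399 * P.V) 0 0 0 0 0 (18 * P.V + 2) 0) * ps ta (pick G U) ∧
      ∑ k ∈ range 9, pick G U k ≤ 2 * P.V := by
    intro G a b U hU
    obtain ⟨u, rfl⟩ := card_eq_one.1 (mem_powersetCard.1 hU).2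
    simpa only [pick, sum_singleton] using ph_one' ta a b u
  have e1 := level_exact ta hL hS hS' h h' (by omega) _ _ _ (hp Γ hm h) (hp Γ' hm' h')
  have e0 : ∀ G : SimpleGraph P.Vt, ∀ u, eM G {u} = 0 := fun G u => by simp [eM, ad_self]
  have hta : C (ta ^ (1 - 0 / 2)) ≠ 0 :=
    C_ne_zero.2 (pow_ne_zero _ (left_ne_zero_of_mul_eq_one ta_tb))
  simp only [sum_pc_one, e0, pick, sum_singleton, ← mul_sum, r1, r2] at e1
  have e2 := mul_left_cancel₀ hta e1
  let θ : SimpleGraph P.Vt → Fin P.n → ℕ × ℕ := fun G u => (ell G 2 u, ell G 3 u)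
  let T := range (2 * P.R + 1) ×ˢ range (P.s6 + 1)
  let c : SimpleGraph P.Vt → ℕ × ℕ → ℕ := fun G b => (univ.filter fun u => θ G u = b).card
  have hT : ∀ G u, θ G u ∈ T := fun G u =>
    mem_product.2 ⟨mem_range.2 (Nat.lt_succ_of_le (ell_le G 2 u)),
      mem_range.2 (Nat.lt_succ_of_le (ell_le G 3 u))⟩
  have e3 : ∀ G, ∑ u, ps ta (P.k1 (P.R * ell G 2 u) (ell G 2 u) (ell G 3 u)) =
      ∑ b ∈ T, (c G b : LR[X]) * ps ta (P.k1 (P.R * b.1) b.1 b.2) := by
    intro G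
    rw [← sum_fiberwise_of_maps_to (g := θ G) fun u _ => hT G u]
    refine sum_congr rfl fun b _ => ?_
    rw [sum_congr rfl (g := fun _ => ps ta (P.k1 (P.R * b.1) b.1 b.2)) fun u hu => by
      rw [← (mem_filter.1 hu).2], sum_const, nsmul_eq_mul]
  have e4 : ∀ b, c Γ b = c Γ' b := by
    by_contra hc
    obtain ⟨b, hb⟩ := not_forall.1 hc
    have hbT : b ∈ T := by
      by_contra hn
      have : ∀ G, c G b = 0 := fun G =>
        card_eq_zero.2 (filter_eq_empty_iff.2 fun u _ (e : θ G u = b) => hn (e ▸ hT G u))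
      exact hb (by rw [this, this])
    obtain ⟨b₀, hb₀, l, hl, e⟩ := val_six (T.filter fun b => c Γ b ≠ c Γ' b)
      ⟨b, mem_filter.2 ⟨hbT, hb⟩⟩ (fun b => (c Γ b : ℤ) - c Γ' b)
      (fun b => P.k1 (P.R * b.1) b.1 b.2) (by
        rw [sum_filter_of_ne (p := fun b => c Γ b ≠ c Γ' b) fun b _ hne e => hne (by simp [e])]
        rw [e3, e3, ← sub_eq_zero, ← sum_sub_distrib] at e2
        rw [← e2]
        exact sum_congr rfl fun b _ => by push_cast; ring)
    rw [sum_eq_single_of_mem b₀ (mem_filter.2 ⟨hb₀, rfl, rfl⟩) fun b hb hne => by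
      exfalso
      obtain ⟨a1, a2, a3⟩ := mem_filter.1 hb
      obtain ⟨a4, a5⟩ := mem_product.1 (mem_filter.1 a1).1
      obtain ⟨a6, a7⟩ := mem_product.1 (mem_filter.1 hb₀).1
      rw [mem_range] at a4 a5 a6 a7
      have a8 : P.R * b.1 ≤ P.R * (2 * P.R) := Nat.mul_le_mul_left _ (by omega)
      have a9 : P.R * b₀.1 ≤ P.R * (2 * P.R) := Nat.mul_le_mul_left _ (by omega)
      have a10 : P.R * (2 * P.R) = 2 * P.R * P.R := by ring
      simp only [k1, v9] at a2 a3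
      exact hne (Prod.ext (by omega) (by omega))] at e
    rcases mul_eq_zero.1 e with a | a
    · exact (mem_filter.1 hb₀).2 (by omega)
    · obtain ⟨k, hk, a⟩ := prod_eq_zero_iff.1 a
      exact hl k hk (pow_eq_zero_iff'.1 a).1
  obtain ⟨σ, hσ⟩ := exists_equiv (θ Γ) (θ Γ') e4
  refine ⟨σ, fun u c => ?_⟩
  have a2 : ell Γ' 2 (σ u) = ell Γ 2 u := congrArg Prod.fst (hσ u)
  have a3 : ell Γ' 3 (σ u) = ell Γ 3 u := congrArg Prod.snd (hσ u)
  have a1 : ell Γ' 1 (σ u) = ell Γ 1 u := by rw [r1, r2, a2]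
  have a0 := hm.sum h u
  have a0' := hm'.sum h' (σ u)
  rw [← hC.ell hP]
  fin_cases c
  · change ell Γ' 0 (σ u) = ell Γ 0 u
    omega
  · exact a1
  · exact a2
  · exact a3
  · exact (hm'.pad _).trans (hm.pad _).symm

theorem cr_of_ell (hL : Lev Γ Γ' P.m (400 * P.V) (2 * P.V)) (hP : P.OK) (hS : P.Sk Γ)
    (hS' : P.Sk Γ') (hC : P.Cr Γ) (h' : Str Γ' P.m (400 * P.V))
    (he : ∀ u c, ell Γ' c u = P.len c u) :
    ∃ π : Equiv.Perm P.Ka, P.Sk (Γ'.comap (π.sumCongr (Equiv.refl _))) ∧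
      P.Cr (Γ'.comap (π.sumCongr (Equiv.refl _))) := by
  have hV := hP.hV
  have h := hP.str hS hC
  have hm := hC.toPm hP
  have hm' := pm_of hL hP hS hS' hC h'
  have e1 := gam_sum hL h h' (by omega) (hS'.dK_eq hS) fun u => by
    simp only [Fintype.sum_sum_type, hm.pm, hm'.pm, sum_Kt, hS.dK_k, ← mul_sum]
    congr 1
    exact sum_congr rfl fun c _ => congrArg _ ((he u c).trans (hC.ell hP c u).symm)
  let N : (G : SimpleGraph P.Vt) → ∀ c, Fin P.n → Finset (Fin (P.sz c)) := fun G c u =>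
    univ.filter fun i => G.Adj (inl (inr ⟨c, i⟩)) (inr u)
  have c1 : ∀ G c u, (N G c u).card = ell G c u := fun G c u => card_filter _ _
  have c2 : ∀ G : SimpleGraph P.Vt, Pm G →
      ∑ c, ∑ u, ∑ v, (N G c u ∩ N G c v).card = ∑ u, ∑ v, gam G u v := by
    intro G hG
    rw [sum_comm]
    refine sum_congr rfl fun u _ => ?_
    rw [sum_comm]
    refine sum_congr rfl fun v _ => ?_
    simp only [gam, Fintype.sum_sum_type, hG.pm, sum_Kt, zero_mul, sum_const_zero, zero_add]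
    refine sum_congr rfl fun c _ => ?_
    simp only [N, ← filter_and, card_filter, cr, ad]
    refine sum_congr rfl fun i _ => ?_
    by_cases a : G.Adj (inl (inr ⟨c, i⟩)) (inr u) <;>
      by_cases b : G.Adj (inl (inr ⟨c, i⟩)) (inr v) <;> simp [a, b]
  have c3 := nested_of_sum (N Γ) (N Γ') (fun c u => by rw [c1, c1, he, hC.ell hP])
    (fun c u v => by
      rcases le_total (P.len c u) (P.len c v) with a | a
      · refine Or.inl fun r hr => ?_
        simp only [N, mem_filter, mem_univ, true_and, hC.km] at hr ⊢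
        omega
      · refine Or.inr fun r hr => ?_
        simp only [N, mem_filter, mem_univ, true_and, hC.km] at hr ⊢
        omega)
    (by rw [c2 Γ hm, c2 Γ' hm', e1])
  choose τ hτ using fun c => chain (N Γ' c) (c3 c)
  refine ⟨(Equiv.refl _).sumCongr (Equiv.sigmaCongrRight τ), ⟨fun r r' => hS'.pp _ _,
    fun x y => hS'.kk _ _, fun r x => hS'.pk r ⟨x.1, τ x.1 x.2⟩⟩, fun r u c => ?_, fun x u => ?_⟩
  · have := hm'.pm r u
    rw [cr, ad, if_pos (show Γ'.Adj (inl (inl r)) (inr u) from c)] at this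
    omega
  · have := hτ x.1 u x.2
    rw [c1, he] at this
    rw [← this]
    simp only [N, mem_filter, mem_univ, true_and]
    rfl

end Par

end Pool.Agent.MP_f8284b_co.H58

end MrgPart2

-- ======== part 3: formerly Pool.Agent.MP_f8284b_co.h58.Decode
section MrgPart3

set_option autoImplicit false

namespace Pool.Agent.MP_f8284b_co.H58

open Finset SimpleGraph Classical Sum Polynomial

theorem radix {R a b a' b' : ℕ} (h1 : a ≤ b) (h2 : b < R) (h3 : a' ≤ b') (h4 : b' < R)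
    (h : 2 * R * a + (2 * b - 2 * a) = 2 * R * a' + (2 * b' - 2 * a')) : a = a' ∧ b = b' := by
  have key : ∀ {a b a' b' : ℕ}, b < R →
      2 * R * a + (2 * b - 2 * a) = 2 * R * a' + (2 * b' - 2 * a') → a' ≤ a := by
    intro a b a' b' h2 h
    by_contra hc
    have := Nat.mul_le_mul_left (2 * R) (show a + 1 ≤ a' by omega)
    rw [mul_add] at this
    omega
  obtain rfl := le_antisymm (key h4 h.symm) (key h2 h)
  omega

namespace Par
variable {P : Par} {Γ Γ' : SimpleGraph P.Vt}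

/-- Total length of the variable chains. -/
def sg (P : Par) (u : Fin P.n) : ℕ := 2 * P.R * P.A u + 2 * P.A u + 2 * P.B u

/-- Exponents of a pair of main vertices. -/
def k2 (P : Par) (u v : Fin P.n) : ℕ → ℕ :=
  v9 (min (P.sg u) (P.sg v)) (max (P.sg u) (P.sg v) - min (P.sg u) (P.sg v))
    (P.V - max (P.sg u) (P.sg v) + (2 * P.R * P.R - 2 * P.R * max (P.A u) (P.A v)))
    (2 * P.R * max (P.A u) (P.A v) - 2 * P.R * min (P.A u) (P.A v) +
      (2 * P.R - 2 * max (P.A u) (P.A v)))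
    (2 * P.R * min (P.A u) (P.A v) + (2 * max (P.A u) (P.A v) - 2 * min (P.A u) (P.A v)))
    (2 * min (P.A u) (P.A v)) (P.s6 - 2 * max (P.B u) (P.B v))
    (2 * max (P.B u) (P.B v) - 2 * min (P.B u) (P.B v)) (2 * min (P.B u) (P.B v))

theorem k2_comm (u v : Fin P.n) : P.k2 u v = P.k2 v u := by
  simp only [k2, max_comm, min_comm]

theorem OK.sg_le (hP : P.OK) (u : Fin P.n) : P.sg u ≤ P.V := by
  have h1 := hP.hA u
  have h2 := hP.hB u
  have h3 : 2 * P.R * P.A u ≤ 2 * P.R * P.R := Nat.mul_le_mul_left _ h1.le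
  unfold sg V
  omega

theorem OK.sum_k2 (hP : P.OK) (u v : Fin P.n) : ∑ k ∈ range 9, P.k2 u v k = 2 * P.V := by
  have a1 := hP.sg_le u
  have a2 := hP.sg_le v
  have a3 := hP.hA u
  have a4 := hP.hA v
  have a5 := hP.hB u
  have a6 := hP.hB v
  have a7 : 2 * P.R * max (P.A u) (P.A v) ≤ 2 * P.R * P.R := Nat.mul_le_mul_left _ (by omega)
  have a8 : 2 * P.R * min (P.A u) (P.A v) ≤ 2 * P.R * max (P.A u) (P.A v) :=
    Nat.mul_le_mul_left _ (by omega)
  have hV : P.V = 2 * P.R * P.R + 2 * P.R + P.s6 := rfl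
  rw [k2, sum_v9]
  omega

theorem ph_two {R : Type} [CommRing R] (τ : R) (hP : P.OK) (hC : P.Cr Γ) {u v : Fin P.n}
    (huv : u ≠ v) :
    ph τ Γ {u, v} = ps τ (v9 (1600 * P.V) 0 (399 * P.V) 0 0 0 0 (18 * P.V + 2) 0) *
      ps τ (P.k2 u v) := by
  have e : ph τ Γ {u, v} = ∏ c, xk τ (ex c + 0) ^ (P.sz c - max (P.len c u) (P.len c v)) *
      xk τ (ex c + 1) ^ (max (P.len c u) (P.len c v) - min (P.len c u) (P.len c v)) *
      xk τ (ex c + 2) ^ min (P.len c u) (P.len c v) := by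
    rw [ph, Fintype.prod_sigma]
    refine prod_congr rfl fun c _ => ?_
    rw [← prod_seg (fun k => xk τ (ex c + k)) _ _ _ (hP.len_le c u) (hP.len_le c v)]
    simp only [cc, sum_pair huv, cr, ad, hC.km]
  have a1 := hP.sg_le u
  have a2 := hP.sg_le v
  have l0 : ∀ u, P.len 0 u = 400 * P.V - P.sg u := fun _ => rfl
  have l1 : ∀ u, P.len 1 u = 2 * P.R * P.A u := fun _ => rfl
  have l2 : ∀ u, P.len 2 u = 2 * P.A u := fun _ => rfl
  have l3 : ∀ u, P.len 3 u = 2 * P.B u := fun _ => rfl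
  have l4 : ∀ u, P.len 4 u = 0 := fun _ => rfl
  rw [e, Fin.prod_univ_five, k2, ps_v9, ps_v9, sz0, sz1, sz2, sz3, sz4, ex0, ex1, ex2, ex3, ex4]
  simp only [l0, l1, l2, l3, l4, Nat.mul_max_mul_left, Nat.mul_min_mul_left]
  rw [show 2000 * P.V - max (400 * P.V - P.sg u) (400 * P.V - P.sg v) =
      1600 * P.V + min (P.sg u) (P.sg v) by omega,
    show max (400 * P.V - P.sg u) (400 * P.V - P.sg v) - min (400 * P.V - P.sg u)
      (400 * P.V - P.sg v) = max (P.sg u) (P.sg v) - min (P.sg u) (P.sg v) by omega,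
    show min (400 * P.V - P.sg u) (400 * P.V - P.sg v) =
      399 * P.V + (P.V - max (P.sg u) (P.sg v)) by omega]
  simp only [pow_add, pow_zero, Nat.sub_zero, zero_add, add_zero, Nat.reduceAdd, max_self,
    min_self]
  ring

theorem decode (hL : Lev Γ Γ' P.m (400 * P.V) (2 * P.V)) (hP : P.OK) (hS : P.Sk Γ)
    (hS' : P.Sk Γ') (hC : P.Cr Γ) (hC' : P.Cr Γ') (hl : P.Cl Γ) : Γ' = Γ := by
  let pick : Finset (Fin P.n) → ℕ → ℕ := fun U =>
    if h : U.Nonempty then P.k2 (U.min' h) (U.max' h) else 0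
  have hk : ∀ u v, pick {u, v} = P.k2 u v := by
    intro u v
    simp only [pick, insert_nonempty, dif_pos, min'_pair, max'_pair]
    rcases le_total u v with a | a
    · rw [min_eq_left a, max_eq_right a]
    · rw [min_eq_right a, max_eq_left a, k2_comm]
  have hp : ∀ G : SimpleGraph P.Vt, P.Cr G → ∀ U ∈ powersetCard 2 univ, ph ta G U =
      ps ta (v9 (1600 * P.V) 0 (399 * P.V) 0 0 0 0 (18 * P.V + 2) 0) * ps ta (pick U) ∧
      ∑ k ∈ range 9, pick U k ≤ 2 * P.V := by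
    intro G a U hU
    obtain ⟨u, v, huv, rfl⟩ := card_eq_two.1 (mem_powersetCard.1 hU).2
    rw [hk]
    exact ⟨ph_two ta hP a huv, (hP.sum_k2 u v).le⟩
  have e1 := level_exact ta hL hS hS' (hP.str hS hC) (hP.str hS' hC') le_rfl _ _ _ (hp Γ hC)
    (hp Γ' hC')
  let ε : Fin P.n × Fin P.n → ℤ := fun p =>
    (ad Γ (inr p.1) (inr p.2) : ℤ) - ad Γ' (inr p.1) (inr p.2)
  have e2 : ∑ p ∈ prs (Fin P.n), (ε p : LR[X]) * ps ta (P.k2 p.1 p.2) = 0 := by
    refine (mul_eq_zero.1 ?_).resolve_left (C_ne_zero.2 one_sub_ta)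
    rw [sum_pc_two, sum_pc_two, ← sub_eq_zero, ← sum_sub_distrib] at e1
    rw [← e1, mul_sum]
    refine sum_congr rfl fun p hp => ?_
    have hne : p.1 ≠ p.2 := (mem_filter.1 hp).2.ne
    have a : ∀ G : SimpleGraph P.Vt, eM G {p.1, p.2} / 2 = ad G (inr p.1) (inr p.2) := by
      intro G
      simp only [eM, sum_pair hne, ad_self, ad_comm G (inr p.2)]
      omega
    have b := hk p.1 p.2
    rw [← mul_assoc, ← b, ← sub_mul]
    refine congrArg₂ _ ?_ (by congr)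
    have a1 := a Γ
    have a2 := a Γ'
    refine Eq.trans ?_ (congrArg₂ (fun x y => C (ta ^ (1 - x)) - C (ta ^ (1 - y))) a1 a2).symm
    simp only [ε, ad]
    split_ifs
    · simp
    · simp
    · simp
      ring
    · simp
  have hg : ∀ x y, P.A x = P.A y → P.g x = P.g y := fun x y h => by
    have := hP.hAB x y
    have := hP.hAB y x
    omega
  have e3 : ∀ p ∈ prs (Fin P.n), ε p = 0 := by
    by_contra hc
    push Not at hc
    obtain ⟨p, hp, hp'⟩ := hc
    obtain ⟨p₀, hp₀, e⟩ := val_four ((prs (Fin P.n)).filter fun p => ε p ≠ 0)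
      ⟨p, mem_filter.2 ⟨hp, hp'⟩⟩ ε (fun p => P.k2 p.1 p.2) (by
        rw [sum_filter_of_ne (p := fun p => ε p ≠ 0) fun b _ hne e => hne (by simp [e]), e2])
    set F := ((prs (Fin P.n)).filter fun p => ε p ≠ 0).filter fun i => P.k2 i.1 i.2 4 =
      P.k2 p₀.1 p₀.2 4 ∧ P.k2 i.1 i.2 0 + P.k2 i.1 i.2 2 + P.k2 i.1 i.2 6 + P.k2 i.1 i.2 8 =
      P.k2 p₀.1 p₀.2 0 + P.k2 p₀.1 p₀.2 2 + P.k2 p₀.1 p₀.2 6 + P.k2 p₀.1 p₀.2 8
    have h0 : p₀ ∈ F := mem_filter.2 ⟨hp₀, rfl, rfl⟩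
    have hA : ∀ p ∈ F, min (P.A p.1) (P.A p.2) = min (P.A p₀.1) (P.A p₀.2) ∧
        max (P.A p.1) (P.A p.2) = max (P.A p₀.1) (P.A p₀.2) := fun p hp =>
      radix (R := P.R) min_le_max (max_lt (hP.hA _) (hP.hA _)) min_le_max
        (max_lt (hP.hA _) (hP.hA _)) (mem_filter.1 hp).2.1
    have hin : ∀ p ∈ F, ∀ q ∈ F, P.g p.1 = P.g p.2 → P.g q.1 = P.g q.2 := by
      intro p hp q hq h
      have a1 := hA p hp
      have a2 := hA q hq
      have b1 := hg q.1 p.1
      have b2 := hg q.1 p.2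
      have b3 := hg q.2 p.1
      have b4 := hg q.2 p.2
      omega
    have hlt : ∀ p ∈ F, p.1 < p.2 := fun p hp =>
      (mem_filter.1 (mem_filter.1 (mem_filter.1 hp).1).1).2
    have hne : ∀ p ∈ F, ε p ≠ 0 := fun p hp => (mem_filter.1 (mem_filter.1 hp).1).2
    by_cases c : P.g p₀.1 = P.g p₀.2
    · have : ∀ p ∈ F, ε p * (-1) ^ (P.k2 p.1 p.2 0 + P.k2 p.1 p.2 2) = (-1) ^ P.V := by
        intro p hp
        have a1 : ε p = 1 := by
          have := hne p hp
          have := ad_le Γ' (inr p.1) (inr p.2)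
          have : ad Γ (inr p.1) (inr p.2) = 1 := if_pos (hl _ _ (hlt p hp).ne (hin _ h0 _ hp c))
          simp only [ε] at *
          omega
        have a2 := hP.sg_le p.1
        have a3 := hP.sg_le p.2
        have a4 : P.R * max (P.A p.1) (P.A p.2) ≤ P.R * P.R :=
          Nat.mul_le_mul_left _ (max_lt (hP.hA _) (hP.hA _)).le
        have a5 : ∀ u, P.sg u = 2 * (P.R * P.A u + P.A u + P.B u) := fun u => by
          unfold sg
          ring
        rw [a1, one_mul, neg_one_pow_eq_pow_mod_two, neg_one_pow_eq_pow_mod_two (n := P.V)]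
        congr 1
        have a6 := a5 p.1
        have a7 := a5 p.2
        simp only [k2, v9, mul_assoc]
        omega
      rw [sum_congr rfl fun p hp => by rw [this p hp], ← sum_mul] at e
      refine absurd ((mul_eq_zero.1 e).resolve_right (by simp)) (ne_of_gt ?_)
      exact sum_pos (fun _ _ => by positivity) ⟨p₀, h0⟩
    · refine binary F ⟨p₀, h0⟩ _ _ (fun p hp => Odd.mul ?_ (odd_neg_one.pow)) ?_ e
      · have := hne p hp
        have := ad_le Γ (inr p.1) (inr p.2)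
        have := ad_le Γ' (inr p.1) (inr p.2)
        rw [Int.odd_iff]
        simp only [ε] at *
        omega
      · have key : ∀ p ∈ F, P.A p.1 = min (P.A p₀.1) (P.A p₀.2) ∧
            P.A p.2 = max (P.A p₀.1) (P.A p₀.2) ∧
            P.k2 p.1 p.2 0 + P.k2 p.1 p.2 8 = 2 * P.R * P.A p.1 + 2 * P.A p.1 + 4 * P.B p.1 ∧
            P.k2 p.1 p.2 2 + P.k2 p.1 p.2 6 + 4 * P.R * P.A p.2 + 2 * P.A p.2 + 4 * P.B p.2 =
              P.V + 2 * P.R * P.R + P.s6 := by
          intro p hp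
          have a1 := hP.mono _ _ (hlt p hp)
          have a2 : P.g p.1 ≠ P.g p.2 := fun e => c (hin p hp p₀ h0 e)
          obtain ⟨a3, a4⟩ := hP.hAB p.1 p.2 (by omega)
          have a5 := hA p hp
          have a6 := hP.sg_le p.2
          have a7 : 2 * P.R * P.A p.1 ≤ 2 * P.R * P.A p.2 := Nat.mul_le_mul_left _ a3.le
          have a8 : 2 * P.R * P.A p.2 ≤ 2 * P.R * P.R := Nat.mul_le_mul_left _ (hP.hA _).le
          have a9 := hP.hB p.2
          have a10 : 4 * P.R * P.A p.2 = 2 * (2 * P.R * P.A p.2) := by ring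
          simp only [k2, v9, max_eq_right a3.le, min_eq_left a3.le, max_eq_right a4.le,
            min_eq_left a4.le, sg] at a5 a6 ⊢
          omega
        intro p hp q hq hf
        have a1 := key p hp
        have a2 := key q hq
        have a3 := hP.sum_k2 p.1 p.2
        have a4 := hP.sum_k2 q.1 q.2
        have a5 := (mem_filter.1 hp).2
        have a6 := (mem_filter.1 hq).2
        simp only [sum_range_succ, sum_range_zero] at a3 a4
        have b1 : P.A p.1 = P.A q.1 := by omega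
        have b2 : P.A p.2 = P.A q.2 := by omega
        rw [b1, b2] at a1
        simp only at hf
        exact Prod.ext (hP.inj _ _ b1 (by omega)) (hP.inj _ _ b2 (by omega))
  have e4 : ∀ u v, u < v → (Γ'.Adj (inr u) (inr v) ↔ Γ.Adj (inr u) (inr v)) := by
    intro u v h
    have := e3 (u, v) (mem_filter.2 ⟨mem_univ _, h⟩)
    simp only [ε, ad] at this
    split_ifs at this with a b b <;> simp [a, b] at this ⊢
  have e5 : ∀ a u, Γ'.Adj (inl a) (inr u) ↔ Γ.Adj (inl a) (inr u) := by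
    rintro (r | x) u
    · simp [hC.pm, hC'.pm]
    · rw [hC.km, hC'.km]
  ext x y
  rcases x with a | u <;> rcases y with b | v
  · rcases a with r | x <;> rcases b with r' | y
    · simp [hS.pp, hS'.pp]
    · rw [hS.pk, hS'.pk]
    · rw [adj_comm, Γ.adj_comm, hS.pk, hS'.pk]
    · simp [hS.kk, hS'.kk]
  · exact e5 _ _
  · rw [adj_comm, Γ.adj_comm, e5]
  · rcases lt_trichotomy u v with h | rfl | h
    · exact e4 u v h
    · simp
    · rw [adj_comm, Γ.adj_comm, e4 v u h]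

theorem rigid (hP : P.OK) (hS : P.Sk Γ) (hC : P.Cr Γ) (hl : P.Cl Γ) {V' : Type} [Fintype V']
    (G' : SimpleGraph V') (hI : Inv2 Γ G'ᶜ) (hr : grk G' < Fintype.card P.Vt)
    (hi : ∀ w, ∃ v, G'.Adj w v) : Nonempty (Γ ≃g G'ᶜ) := by
  have h := hP.str hS hC
  have hsp := hP.sparse hS hC hl
  have hV := hP.hV
  have L : ∀ {G : SimpleGraph P.Vt}, Inv2 Γ G → Str G P.m (400 * P.V) →
      Lev Γ G P.m (400 * P.V) (2 * P.V) := fun a b => lev_of a h b hsp hP.num
  obtain ⟨e0, s0⟩ := stage0 G' hI h hsp hP.num (by rwa [Fintype.card_sum] at hr) hi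
  have i0 := hI.comap e0
  obtain ⟨π1, d1⟩ := deg_equiv (L i0 s0) h s0 (by omega)
  have i1 := i0.comap (π1.sumCongr (Equiv.refl _))
  have s1 := s0.comap π1 (Equiv.refl _)
  obtain ⟨π2, k2⟩ := sk_of_deg hP (L i1 s1) hS h s1 fun a => (dK_comap _ _ a).trans (d1 a)
  have i2 := i1.comap (π2.sumCongr (Equiv.refl _))
  have s2 := s1.comap π2 (Equiv.refl _)
  obtain ⟨σ, a3⟩ := addr (L i2 s2) hP hS k2 hC s2
  have i3 := i2.comap ((Equiv.refl _).sumCongr σ)
  have s3 := s2.comap (Equiv.refl _) σ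
  obtain ⟨π4, k4, c4⟩ := cr_of_ell (L i3 s3) hP hS ⟨k2.pp, k2.kk, k2.pk⟩ hC s3 a3
  have i4 := i3.comap (π4.sumCongr (Equiv.refl _))
  have s4 := s3.comap π4 (Equiv.refl _)
  rw [← decode (L i4 s4) hP hS k4 hC c4 hl]
  exact ⟨((((Iso.comap _ _).trans (Iso.comap _ _)).trans (Iso.comap _ _)).trans
    (Iso.comap _ _)).trans (Iso.comap _ _)⟩

end Par

end Pool.Agent.MP_f8284b_co.H58

end MrgPart3

-- ======== part 4: formerly Pool.Agent.MP_f8284b_co.h58.Final
section MrgPart4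

set_option autoImplicit false

namespace Pool.Agent.MP_f8284b_co.H58

open Finset SimpleGraph Classical Sum

/-- An isomorphism of complements is an isomorphism. -/
def isoCompl {V W : Type} {G : SimpleGraph V} {H : SimpleGraph W} (e : Gᶜ ≃g Hᶜ) : G ≃g H :=
  ⟨e.toEquiv, fun {u v} => by
    by_cases huv : u = v
    · simp [huv]
    · have := e.map_rel_iff (a := u) (b := v)
      simp only [compl_adj, ne_eq, EmbeddingLike.apply_eq_iff_eq, huv, not_false_eq_true,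
        true_and, not_iff_not] at this
      exact this⟩

theorem inv2_iso {V W : Type} [Fintype V] [Fintype W] {G : SimpleGraph V} {H : SimpleGraph W}
    (e : G ≃g H) : Inv2 H G := by
  have : G = H.comap e.toEquiv := by
    ext u v
    exact e.map_rel_iff.symm
  rw [this]
  exact Inv2.comap (fun _ _ _ => rfl) e.toEquiv

namespace Par
variable {P : Par}

/-- Generating relation of the graphs of the family. -/
def rel (P : Par) (X : Finset (Fin P.n × Fin P.n)) : P.Vt → P.Vt → Prop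
  | inl (inl r), inl (inr x) => (r : ℕ) < ex x.1
  | inl (inr x), inr u => (x.2 : ℕ) < P.len x.1 u
  | inr u, inr v => P.g u = P.g v ∨ (u, v) ∈ X
  | _, _ => False

/-- The complements of the graphs of the family. -/
def fam (P : Par) (X : Finset (Fin P.n × Fin P.n)) : SimpleGraph P.Vt := fromRel (P.rel X)

theorem fam_sk (X : Finset (Fin P.n × Fin P.n)) : P.Sk (P.fam X) :=
  ⟨fun _ _ => by simp [fam, rel], fun _ _ => by simp [fam, rel], fun _ _ => by simp [fam, rel]⟩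

theorem fam_cr (X : Finset (Fin P.n × Fin P.n)) : P.Cr (P.fam X) :=
  ⟨fun _ _ => by simp [fam, rel], fun _ _ => by simp [fam, rel]⟩

theorem fam_cl (X : Finset (Fin P.n × Fin P.n)) : P.Cl (P.fam X) := fun u v h e => by
  simp [fam, rel, h, e]

theorem unique (hP : P.OK) (X : Finset (Fin P.n × Fin P.n)) {N : ℕ} {G : SimpleGraph (Fin N)}
    (e : Gᶜ ≃g P.fam X) : TutteUnique G := by
  intro W ε _ _ ends hi ht
  have hs : IsSimple (Subtype.val : G.edgeSet → Sym2 (Fin N)) :=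
    ⟨Subtype.val_injective, fun a => G.not_isDiag_of_mem_edgeSet a.2⟩
  have hg : gr (Subtype.val : G.edgeSet → Sym2 (Fin N)) = G := by
    rw [gr, Subtype.range_coe, fromEdgeSet_edgeSet]
  have hs' := simple_of_tutte ht.symm hs
  have H := inv2_of_tutte ht.symm hs
  rw [hg] at H
  have r1 : grk (gr ends) = grk G := by
    have := rk_univ_eq ht
    simp only [rk, coe_univ, Set.image_univ] at this
    rw [← hg]
    exact this
  have r2 : grk G < Fintype.card P.Vt := by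
    have : Nonempty (Fin N) := ⟨e.symm (inl (inl 0))⟩
    have : Nonempty G.ConnectedComponent := ⟨G.connectedComponentMk this.some⟩
    have : 0 < Nat.card G.ConnectedComponent := Nat.card_pos
    have := Fintype.card_pos (α := Fin N)
    rw [← Fintype.card_congr e.toEquiv]
    unfold grk
    omega
  obtain ⟨e'⟩ := rigid hP (fam_sk X) (fam_cr X) (fam_cl X) (gr ends)
    (fun k t h => (inv2_iso e k t h).trans (H k t h)) (r1 ▸ r2) fun w => by
      obtain ⟨a, ha⟩ := hi w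
      obtain ⟨u, hu⟩ := Sym2.mem_iff_exists.1 ha
      have := hs'.2 a
      rw [hu] at this
      exact ⟨u, ⟨a, hu⟩, by simpa using this⟩
  let φ := isoCompl (e.trans e')
  let g : ε ≃ (gr ends).edgeSet := Equiv.ofBijective
    (fun a => ⟨ends a, by
      rw [gr, edgeSet_fromEdgeSet]
      exact ⟨⟨a, rfl⟩, hs'.2 a⟩⟩)
    ⟨fun a b hab => hs'.1 (congrArg Subtype.val hab), fun ⟨s, hs⟩ => by
      rw [gr, edgeSet_fromEdgeSet] at hs
      obtain ⟨⟨a, rfl⟩, -⟩ := hs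
      exact ⟨a, rfl⟩⟩
  exact ⟨φ.toEquiv, φ.mapEdgeSet.trans g.symm, fun a =>
    congrArg Subtype.val (g.apply_symm_apply (φ.mapEdgeSet a))⟩

/-- Pairs of main vertices in different groups. -/
def cross (P : Par) : Finset (Fin P.n × Fin P.n) := (prs (Fin P.n)).filter fun p => P.g p.1 ≠ P.g p.2

theorem family (hP : P.OK) {N : ℕ} (hN : N = Fintype.card P.Vt) :
    ∃ S : Finset (SimpleGraph (Fin N)), S.card = 2 ^ P.cross.card ∧ (∀ G ∈ S, TutteUnique G) ∧
      ∀ G ∈ S, ∀ H ∈ S, Nonempty (G ≃g H) → G = H := by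
  obtain ⟨e⟩ : Nonempty (Fin N ≃ P.Vt) := ⟨Fintype.equivOfCardEq (by simp [hN])⟩
  let Γ : Finset (Fin P.n × Fin P.n) → SimpleGraph (Fin N) := fun X => ((P.fam X).comap e)ᶜ
  have iso : ∀ X, Nonempty ((Γ X)ᶜ ≃g P.fam X) := fun X => by
    simp only [Γ, compl_compl]
    exact ⟨Iso.comap e _⟩
  have inj : ∀ X ∈ P.cross.powerset, ∀ Y ∈ P.cross.powerset, Nonempty (Γ X ≃g Γ Y) → X = Y := by
    rintro X hX Y hY ⟨φ⟩
    have ψ : (Γ X)ᶜ ≃g (Γ Y)ᶜ := isoCompl (by simpa only [compl_compl] using φ)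
    have H := decode (lev_of (inv2_iso (((iso X).some.symm.trans ψ).trans (iso Y).some))
      (hP.str (fam_sk Y) (fam_cr Y)) (hP.str (fam_sk X) (fam_cr X))
      (hP.sparse (fam_sk Y) (fam_cr Y) (fam_cl Y)) hP.num) hP (fam_sk Y) (fam_sk X) (fam_cr Y)
      (fam_cr X) (fam_cl Y)
    have key : ∀ Z ∈ P.cross.powerset, ∀ p ∈ P.cross,
        (P.fam Z).Adj (inr p.1) (inr p.2) ↔ p ∈ Z := by
      intro Z hZ p hp
      obtain ⟨h1, h2⟩ := mem_filter.1 hp
      have h3 : p.1 < p.2 := (mem_filter.1 h1).2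
      have h4 : (p.2, p.1) ∉ Z := fun c =>
        h3.asymm (mem_filter.1 (mem_filter.1 (mem_powerset.1 hZ c)).1).2
      simp [fam, rel, h2, h2.symm, h3.ne, h4]
    ext p
    constructor
    · intro a
      rwa [← key Y hY p (mem_powerset.1 hX a), ← H, key X hX p (mem_powerset.1 hX a)]
    · intro a
      rwa [← key X hX p (mem_powerset.1 hY a), H, key Y hY p (mem_powerset.1 hY a)]
  refine ⟨P.cross.powerset.image Γ, ?_, ?_, ?_⟩
  · rw [card_image_of_injOn fun X hX Y hY c => inj X hX Y hY (by rw [c]; exact ⟨Iso.refl⟩),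
      card_powerset]
  · intro G hG
    obtain ⟨X, -, rfl⟩ := mem_image.1 hG
    exact unique hP X (iso X).some
  · intro G hG H hH c
    obtain ⟨X, hX, rfl⟩ := mem_image.1 hG
    obtain ⟨Y, hY, rfl⟩ := mem_image.1 hH
    rw [inj X hX Y hY c]

end Par

/-- The parameters used. -/
def par (n q : ℕ) : Par :=
  ⟨n, q ^ 2, 2 * q ^ 4, q, fun u => q * (u / q ^ 4) + u % q, fun u => u / q, fun u => u / q ^ 4⟩

theorem par_V (n q : ℕ) : (par n q).V = 4 * q ^ 4 + 2 * q ^ 2 := by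
  simp only [Par.V, par]
  ring

theorem par_ok (n q : ℕ) (hq : 0 < q) (hn : n ≤ q ^ 5) : (par n q).OK := by
  have hg : ∀ u : Fin n, (u : ℕ) / q ^ 4 < q := fun u =>
    Nat.div_lt_of_lt_mul (by rw [← pow_succ]; exact lt_of_lt_of_le u.2 hn)
  have h2 : q ≤ q ^ 2 := Nat.le_self_pow two_ne_zero q
  refine ⟨fun u => ?_, fun u => ?_, hg, by rw [par_V]; change q ≤ _; omega,
    by rw [par_V]; omega, fun u v h => Nat.div_le_div_right h.le, fun u v h => ⟨?_, ?_⟩,
    fun u v h1 h2 => ?_⟩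
  · change q * (u / q ^ 4) + u % q < q ^ 2
    have := Nat.mul_le_mul_left q (Nat.succ_le_of_lt (hg u))
    have := Nat.mod_lt u hq
    nlinarith
  · change 2 * (u / q) ≤ 2 * q ^ 4
    have : (u : ℕ) / q < q ^ 4 :=
      Nat.div_lt_of_lt_mul (by rw [← pow_succ']; exact lt_of_lt_of_le u.2 hn)
    omega
  · change q * (u / q ^ 4) + u % q < q * (v / q ^ 4) + v % q
    have := Nat.mul_le_mul_left q (Nat.succ_le_of_lt (show (u : ℕ) / q ^ 4 < v / q ^ 4 from h))
    have := Nat.mod_lt u hq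
    nlinarith [Nat.zero_le ((v : ℕ) % q)]
  · change (u : ℕ) / q < v / q
    by_contra hc
    have := Nat.div_le_div_right (c := q ^ 3) (not_lt.1 hc)
    rw [Nat.div_div_eq_div_mul, Nat.div_div_eq_div_mul, ← pow_succ'] at this
    exact absurd (show (u : ℕ) / q ^ 4 < v / q ^ 4 from h) (not_lt.2 this)
  · change q * (u / q ^ 4) + u % q = q * (v / q ^ 4) + v % q at h1
    change (u : ℕ) / q = v / q at h2
    have := congrArg (· % q) h1
    simp only [Nat.mul_add_mod, Nat.mod_mod] at this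
    apply Fin.ext
    rw [← Nat.div_add_mod u q, ← Nat.div_add_mod v q, this, h2]

theorem cross_card (n q : ℕ) (hq : 0 < q) : n.choose 2 ≤ (par n q).cross.card + n * q ^ 4 := by
  have h1 : (prs (Fin n)).card = n.choose 2 := by
    have := sum_pc_two (α := Fin n) fun _ => 1
    simpa using this.symm
  have h2 := card_filter_add_card_filter_not (s := prs (Fin n))
    fun p => (p.1 : ℕ) / q ^ 4 ≠ p.2 / q ^ 4
  have h3 : ((prs (Fin n)).filter fun p => ¬ (p.1 : ℕ) / q ^ 4 ≠ p.2 / q ^ 4).card ≤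
      ((univ : Finset (Fin n)) ×ˢ range (q ^ 4)).card := by
    refine card_le_card_of_injOn (fun p => (p.1, (p.2 : ℕ) % q ^ 4)) (fun p _ => ?_) ?_
    · simpa using Nat.mod_lt _ (pow_pos hq 4)
    · intro p hp p' hp' e
      simp only [coe_filter, not_not, Set.mem_ofPred_eq, Prod.mk.injEq] at hp hp' e
      refine Prod.ext e.1 (Fin.ext ?_)
      rw [← Nat.div_add_mod p.2 (q ^ 4), ← Nat.div_add_mod p'.2 (q ^ 4), e.2, ← hp.2, ← hp'.2, e.1]
  rw [card_product, card_univ, Fintype.card_fin, card_range] at h3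
  have h4 : (par n q).cross.card =
    ((prs (Fin n)).filter fun p => (p.1 : ℕ) / q ^ 4 ≠ p.2 / q ^ 4).card := rfl
  omega

theorem choose_add (n s : ℕ) : (n + s).choose 2 ≤ n.choose 2 + (n + s) * s := by
  induction s with
  | zero => simp
  | succ s ih =>
    rw [← add_assoc, Nat.choose_succ_succ' (n + s) 1, Nat.choose_one_right]
    nlinarith

theorem main_nat (N q : ℕ) (hq : 0 < q) (h1 : N ≤ q ^ 5) (h2 : 12123 * q ^ 4 ≤ N) :
    ∃ (S : Finset (SimpleGraph (Fin N))) (k : ℕ), S.card = 2 ^ k ∧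
      N.choose 2 ≤ k + 12124 * (N * q ^ 4) ∧ (∀ G ∈ S, TutteUnique G) ∧
      ∀ G ∈ S, ∀ H ∈ S, Nonempty (G ≃g H) → G = H := by
  have a1 : q ^ 2 ≤ q ^ 4 := Nat.pow_le_pow_right hq (by norm_num)
  have a2 : 0 < q ^ 4 := pow_pos hq 4
  obtain ⟨s, hs⟩ : ∃ s, s = 2019 * (4 * q ^ 4 + 2 * q ^ 2) + 9 := ⟨_, rfl⟩
  obtain ⟨n, rfl⟩ : ∃ n, N = n + s := ⟨N - s, by omega⟩
  obtain ⟨S, b1, b2, b3⟩ := Par.family (par_ok n q hq (by omega)) (N := n + s) (by
    rw [Fintype.card_sum, Par.card_Ka, par_V, Fintype.card_fin, hs]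
    exact add_comm _ _)
  refine ⟨S, _, b1, ?_, b2, b3⟩
  have c1 := cross_card n q hq
  have c2 := choose_add n s
  have c3 : (n + s) * s ≤ (n + s) * (12123 * q ^ 4) := Nat.mul_le_mul_left _ (by omega)
  have c4 : n * q ^ 4 ≤ (n + s) * q ^ 4 := Nat.mul_le_mul_right _ (by omega)
  nlinarith

theorem main : ∃ C : ℝ, ∀ᶠ N : ℕ in Filter.atTop, ∃ S : Finset (SimpleGraph (Fin N)),
    (2 : ℝ) ^ ((N.choose 2 : ℝ) - C * (N : ℝ) ^ (9 / 5 : ℝ)) ≤ S.card ∧
      (∀ G ∈ S, TutteUnique G) ∧ ∀ G ∈ S, ∀ H ∈ S, Nonempty (G ≃g H) → G = H := by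
  refine ⟨12124 * 16, Filter.eventually_atTop.2 ⟨200000 ^ 5 + 1, fun N hN => ?_⟩⟩
  have hex : ∃ q, N ≤ (q + 1) ^ 5 :=
    ⟨N, (Nat.le_succ N).trans (Nat.le_self_pow (by norm_num) _)⟩
  obtain ⟨p, h1, h2⟩ : ∃ p, N ≤ (p + 1) ^ 5 ∧ p ^ 5 < N := by
    refine ⟨Nat.find hex, Nat.find_spec hex, ?_⟩
    rcases Nat.eq_zero_or_pos (Nat.find hex) with a | a
    · rw [a]
      omega
    · have := Nat.find_min hex (Nat.sub_one_lt_of_lt a)
      rw [Nat.sub_add_cancel a] at this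
      omega
  have h3 : 200000 ≤ p := by
    by_contra hc
    have := Nat.pow_le_pow_left (show p + 1 ≤ 200000 by omega) 5
    omega
  have h4 : (p + 1) ^ 4 ≤ 16 * p ^ 4 := by
    have := Nat.pow_le_pow_left (show p + 1 ≤ 2 * p by omega) 4
    rw [mul_pow] at this
    exact this
  obtain ⟨S, k, b1, b2, b3, b4⟩ := main_nat N (p + 1) (by omega) h1 (by
    have : 200000 * p ^ 4 ≤ p ^ 5 := by
      rw [pow_succ' p 4]
      exact Nat.mul_le_mul_right _ h3
    omega)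
  refine ⟨S, ?_, b3, b4⟩
  have hN0 : (0 : ℝ) < N := by exact_mod_cast (show 0 < N by omega)
  have c1 : (p : ℝ) ^ 4 ≤ (N : ℝ) ^ (4 / 5 : ℝ) := by
    have : ((p : ℝ) ^ 5) ^ (4 / 5 : ℝ) ≤ (N : ℝ) ^ (4 / 5 : ℝ) :=
      Real.rpow_le_rpow (by positivity) (by exact_mod_cast h2.le) (by norm_num)
    rwa [← Real.rpow_natCast, ← Real.rpow_mul (by positivity),
      show ((5 : ℕ) : ℝ) * (4 / 5) = ((4 : ℕ) : ℝ) by norm_num, Real.rpow_natCast] at this
  have c2 : (N : ℝ) ^ (9 / 5 : ℝ) = N * (N : ℝ) ^ (4 / 5 : ℝ) := by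
    rw [show (9 / 5 : ℝ) = 1 + 4 / 5 by norm_num, Real.rpow_add hN0, Real.rpow_one]
  have c3 : (N.choose 2 : ℝ) ≤ k + 12124 * (N * (16 * (p : ℝ) ^ 4)) := by
    have := Nat.mul_le_mul_left N h4
    exact_mod_cast (show N.choose 2 ≤ k + 12124 * (N * (16 * p ^ 4)) by omega)
  rw [b1, Nat.cast_pow, ← Real.rpow_natCast, Nat.cast_ofNat]
  refine Real.rpow_le_rpow_of_exponent_le (by norm_num) ?_
  rw [c2]
  nlinarith [mul_le_mul_of_nonneg_left c1 hN0.le]

end Pool.Agent.MP_f8284b_co.H58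

end MrgPart4

-- marker of a merged file
example : 731051 + 736962 = 731051 + 736962 := rfl
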